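import Pool.Agent.Lib.P6ec3b3.Frames

/-!
# Adapted bases and closed conditions on their structure constants
-/

open Module Polynomial

namespace Pool.Agent.Lib.P6ec3b3

attribute [local instance 100] LieRing.ofAssociativeRing

variable {g : Type*} [LieRing g] [LieAlgebra ℝ g]

/-- `ad x` maps `lcs k` into `lcs (k+1)` for `x ∈ n`. -/
theorem ad_mul_pow_mem (n : LieIdeal ℝ g) (x y : g) (hx : x ∈ n) (k : ℕ) (v : g) :
    ((LieAlgebra.ad ℝ g x * LieAlgebra.ad ℝ g y) ^ k) v ∈ n.lcs g k := by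
  induction k with
  | zero => simp
  | succ k ih =>
    rw [pow_succ', Module.End.mul_apply, Module.End.mul_apply, LieIdeal.lcs_succ]
    exact LieSubmodule.lie_mem_lie hx (LieSubmodule.lie_mem _ ih)

theorem ad_pow_mem (n : LieIdeal ℝ g) (x : g) (hx : x ∈ n) (k : ℕ) (v : g) :
    ((LieAlgebra.ad ℝ g x) ^ k) v ∈ n.lcs g k := by
  induction k with
  | zero => simp
  | succ k ih =>
    rw [pow_succ', Module.End.mul_apply, LieIdeal.lcs_succ]
    exact LieSubmodule.lie_mem_lie hx ih

theorem trace_ad_eq_zero [FiniteDimensional ℝ g] (n : LieIdeal ℝ g) (hn : ActsNil n) (x : g)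
    (hx : x ∈ n) : LinearMap.trace ℝ g (LieAlgebra.ad ℝ g x) = 0 := by
  obtain ⟨K, hK⟩ := hn
  apply IsNilpotent.eq_zero
  apply LinearMap.isNilpotent_trace_of_isNilpotent
  refine ⟨K, ?_⟩
  ext v
  have := ad_pow_mem n x hx K v
  rw [hK, LieSubmodule.mem_bot] at this
  rw [this, LinearMap.zero_apply]

theorem trace_ad_mul_eq_zero [FiniteDimensional ℝ g] (n : LieIdeal ℝ g) (hn : ActsNil n)
    (x y : g) (hx : x ∈ n) :
    LinearMap.trace ℝ g (LieAlgebra.ad ℝ g x * LieAlgebra.ad ℝ g y) = 0 := by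
  obtain ⟨K, hK⟩ := hn
  apply IsNilpotent.eq_zero
  apply LinearMap.isNilpotent_trace_of_isNilpotent
  refine ⟨K, ?_⟩
  ext v
  have := ad_mul_pow_mem n x y hx K v
  rw [hK, LieSubmodule.mem_bot] at this
  rw [this, LinearMap.zero_apply]

variable {α β : Type*} [Fintype α] [Fintype β]

/-- A basis adapted to the ideal `n`, with prescribed complementary vectors. -/
structure Adapted (n : LieIdeal ℝ g) (A : α → g) (E : Basis (α ⊕ β) ℝ g) : Prop where
  inl : ∀ a, E (Sum.inl a) = A a
  mem : ∀ x, x ∈ n ↔ ∀ a, E.repr x (Sum.inl a) = 0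

omit [Fintype α] [Fintype β] in
theorem Adapted.inr_mem {n : LieIdeal ℝ g} {A : α → g} {E : Basis (α ⊕ β) ℝ g}
    (h : Adapted n A E) (b : β) : E (Sum.inr b) ∈ n := by
  classical
  rw [h.mem]
  intro a
  rw [Basis.repr_self, Finsupp.single_apply]
  simp

/-- Closed conditions satisfied by the structure constants of adapted bases. -/
structure Good (K : ℕ) (t : α → ℝ) (χ : α → ℝ[X]) (c : SC (α ⊕ β)) : Prop where
  anti : ∀ i j k, c i j k = -c j i k
  jac : Jac c
  out : ∀ i j a, c i j (Sum.inl a) = 0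
  word : ∀ v, Wn c K v
  trA : ∀ a, Hc c (Sum.inl a) = t a
  trB : ∀ b, Hc c (Sum.inr b) = 0
  kil : ∀ b i, killM c (Sum.inr b) i = 0
  ann : ∀ a, aeval (adL c (Sum.inl a)) (χ a) = 0

omit [Fintype α] [Fintype β] in
theorem sc_jac {ι : Type*} [Fintype ι] (E : Basis ι ℝ g) : Jac (sc E) := by
  intro i j l k
  have key : ∀ i j l : ι, ∑ q, sc E i j q * sc E q l k = E.repr ⁅⁅E i, E j⁆, E l⁆ k := by
    intro i j l
    rw [lie_eq_sum E i j, sum_lie, map_sum, Finsupp.finsetSum_apply]
    refine Finset.sum_congr rfl fun q _ => ?_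
    rw [smul_lie, map_smul, Finsupp.smul_apply, smul_eq_mul, sc]
    rfl
  rw [Finset.sum_add_distrib, Finset.sum_add_distrib, key, key, key, ← Finsupp.add_apply,
    ← Finsupp.add_apply, ← map_add, ← map_add]
  have h := lie_jacobi (E i) (E j) (E l)
  have h2 : ⁅⁅E i, E j⁆, E l⁆ + ⁅⁅E j, E l⁆, E i⁆ + ⁅⁅E l, E i⁆, E j⁆ = 0 := by
    rw [← lie_skew ⁅E i, E j⁆ (E l), ← lie_skew ⁅E j, E l⁆ (E i), ← lie_skew ⁅E l, E i⁆ (E j)]
    rw [← neg_eq_zero, ← h]
    abel
  rw [h2, map_zero]
  rfl

omit [Fintype α] [Fintype β] in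
theorem adL_sc {ι : Type*} [Fintype ι] (E : Basis ι ℝ g) (i : ι) :
    adL (sc E) i = E.equivFun.conjAlgEquiv ℝ (LieAlgebra.ad ℝ g (E i)) := by
  refine LinearMap.ext fun v => ?_
  funext k
  rw [LinearEquiv.conjAlgEquiv_apply]
  change ∑ j, v j * sc E i j k = E.repr ⁅E i, E.equivFun.symm v⁆ k
  rw [repr_lie_right]
  refine Finset.sum_congr rfl fun j _ => ?_
  congr 1
  have := congrFun (E.equivFun.apply_symm_apply v) j
  rw [Basis.equivFun_apply] at this
  exact this.symm

theorem good_of_adapted [FiniteDimensional ℝ g] (n : LieIdeal ℝ g) (hgn : ∀ x y : g, ⁅x, y⁆ ∈ n)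
    (K : ℕ) (hK : n.lcs g K = ⊥) (A : α → g) (E : Basis (α ⊕ β) ℝ g) (hE : Adapted n A E) :
    Good K (fun a => LinearMap.trace ℝ g (LieAlgebra.ad ℝ g (A a)))
      (fun a => (LieAlgebra.ad ℝ g (A a) : g →ₗ[ℝ] g).charpoly) (sc E) where
  anti := sc_anti E
  jac := sc_jac E
  out i j a := (hE.mem _).mp (hgn _ _) a
  word := by
    have key : ∀ (m j : ℕ), m + j = K → ∀ v : α ⊕ β → ℝ, E.equivFun.symm v ∈ n.lcs g j →
        Wn (sc E) m v := by
      intro m
      induction m with
      | zero =>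
        intro j hj v hv
        rw [zero_add] at hj
        rw [hj, hK, LieSubmodule.mem_bot] at hv
        exact (LinearEquiv.map_eq_zero_iff _).mp hv
      | succ m ih =>
        intro j hj v hv b
        refine ih (j + 1) (by omega) _ ?_
        have h1 : E.equivFun.symm (adL (sc E) (Sum.inr b) v) =
            ⁅E (Sum.inr b), E.equivFun.symm v⁆ := by
          rw [adL_sc, LinearEquiv.conjAlgEquiv_apply]
          change E.equivFun.symm (E.equivFun ⁅E (Sum.inr b), E.equivFun.symm v⁆) = _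
          rw [LinearEquiv.symm_apply_apply]
        rw [h1, LieIdeal.lcs_succ]
        exact LieSubmodule.lie_mem_lie (hE.inr_mem b) hv
    intro v
    exact key K 0 (by omega) v (by simp)
  trA a := by rw [Hc_eq_trace, hE.inl]
  trB b := by
    rw [Hc_eq_trace]
    exact trace_ad_eq_zero n ⟨K, hK⟩ _ (hE.inr_mem b)
  kil b i := by
    rw [killM_eq_trace]
    exact trace_ad_mul_eq_zero n ⟨K, hK⟩ _ _ (hE.inr_mem b)
  ann a := by
    rw [adL_sc, hE.inl]
    have h1 := Polynomial.aeval_algHom_apply (E.equivFun.conjAlgEquiv ℝ).toAlgHom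
      (LieAlgebra.ad ℝ g (A a) : Module.End ℝ g)
      (LieAlgebra.ad ℝ g (A a) : g →ₗ[ℝ] g).charpoly
    have h2 : aeval (LieAlgebra.ad ℝ g (A a) : Module.End ℝ g)
      (LieAlgebra.ad ℝ g (A a) : g →ₗ[ℝ] g).charpoly = 0 := LinearMap.aeval_self_charpoly _
    rw [h2, map_zero] at h1
    exact h1

/-- The structure constants of adapted bases. -/
def Orb (n : LieIdeal ℝ g) (A : α → g) : Set (SC (α ⊕ β)) :=
  {c | ∃ E : Basis (α ⊕ β) ℝ g, Adapted n A E ∧ sc E = c}

section closed

variable {ι : Type*} [Fintype ι]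

omit [Fintype ι] in
theorem continuous_entry (i j k : ι) : Continuous fun c : SC ι => c i j k := by fun_prop

theorem continuous_adL (i : ι) (f : SC ι → ι → ℝ) (hf : Continuous f) :
    Continuous fun c : SC ι => adL c i (f c) := by
  refine continuous_pi fun k => ?_
  simp only [adL_apply]
  fun_prop

theorem continuous_adL_pow (i : ι) (m : ℕ) (f : SC ι → ι → ℝ) (hf : Continuous f) :
    Continuous fun c : SC ι => (adL c i ^ m) (f c) := by
  induction m with
  | zero => simpa using hf
  | succ m ih =>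
    have : (fun c : SC ι => (adL c i ^ (m + 1)) (f c)) =
        fun c => adL c i ((adL c i ^ m) (f c)) := by
      funext c
      rw [pow_succ', Module.End.mul_apply]
    rw [this]
    exact continuous_adL i _ ih

theorem continuous_mM (k l : ι) : Continuous fun c : SC ι => mM c k l := by
  unfold mM
  fun_prop

theorem continuous_killM (k l : ι) : Continuous fun c : SC ι => killM c k l := by
  unfold killM
  fun_prop

theorem continuous_Hc (k : ι) : Continuous fun c : SC ι => Hc c k := by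
  unfold Hc
  fun_prop

theorem continuous_ricM (k l : ι) : Continuous fun c : SC ι => ricM c k l := by
  unfold ricM
  have h1 := continuous_mM k l
  have h2 := continuous_killM k l
  have h3 : ∀ h : ι, Continuous fun c : SC ι => Hc c h := continuous_Hc
  refine (h1.sub (h2.const_mul _)).sub (Continuous.const_mul ?_ _)
  refine continuous_finsetSum _ fun h _ => (h3 h).mul ?_
  fun_prop

end closed

theorem isClosed_Wn (m : ℕ) : ∀ f : SC (α ⊕ β) → (α ⊕ β → ℝ), Continuous f →
    IsClosed {c | Wn c m (f c)} := by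
  induction m with
  | zero => intro f hf; exact isClosed_eq hf continuous_const
  | succ m ih =>
    intro f hf
    have : {c | Wn c (m + 1) (f c)} = ⋂ b : β, {c | Wn c m (adL c (Sum.inr b) (f c))} := by
      ext c
      simp only [Set.mem_ofPred_eq, Set.mem_iInter]
      rfl
    rw [this]
    exact isClosed_iInter fun b => ih _ (continuous_adL _ _ hf)

theorem isClosed_good (K : ℕ) (t : α → ℝ) (χ : α → ℝ[X]) :
    IsClosed {c : SC (α ⊕ β) | Good K t χ c} := by
  have h1 : IsClosed {c : SC (α ⊕ β) | ∀ i j k, c i j k = -c j i k} := by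
    simp only [Set.ofPred_forall]
    exact isClosed_iInter fun i => isClosed_iInter fun j => isClosed_iInter fun k =>
      isClosed_eq (by fun_prop) (by fun_prop)
  have h2 : IsClosed {c : SC (α ⊕ β) | Jac c} := by
    unfold Jac
    simp only [Set.ofPred_forall]
    exact isClosed_iInter fun i => isClosed_iInter fun j => isClosed_iInter fun l =>
      isClosed_iInter fun k => isClosed_eq (by fun_prop) (by fun_prop)
  have h3 : IsClosed {c : SC (α ⊕ β) | ∀ i j a, c i j (Sum.inl a) = 0} := by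
    simp only [Set.ofPred_forall]
    exact isClosed_iInter fun i => isClosed_iInter fun j => isClosed_iInter fun k =>
      isClosed_eq (by fun_prop) (by fun_prop)
  have h4 : IsClosed {c : SC (α ⊕ β) | ∀ v, Wn c K v} := by
    simp only [Set.ofPred_forall]
    exact isClosed_iInter fun v => isClosed_Wn K _ continuous_const
  have h5 : IsClosed {c : SC (α ⊕ β) | ∀ a, Hc c (Sum.inl a) = t a} := by
    simp only [Set.ofPred_forall]
    exact isClosed_iInter fun v => isClosed_eq (continuous_Hc _) (by fun_prop)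
  have h6 : IsClosed {c : SC (α ⊕ β) | ∀ b, Hc c (Sum.inr b) = 0} := by
    simp only [Set.ofPred_forall]
    exact isClosed_iInter fun v => isClosed_eq (continuous_Hc _) (by fun_prop)
  have h7 : IsClosed {c : SC (α ⊕ β) | ∀ b i, killM c (Sum.inr b) i = 0} := by
    simp only [Set.ofPred_forall]
    exact isClosed_iInter fun v => isClosed_iInter fun i =>
      isClosed_eq (continuous_killM _ _) (by fun_prop)
  have h8 : IsClosed {c : SC (α ⊕ β) | ∀ a, aeval (adL c (Sum.inl a)) (χ a) = 0} := by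
    have : {c : SC (α ⊕ β) | ∀ a, aeval (adL c (Sum.inl a)) (χ a) = 0} =
        ⋂ (a : α) (v : α ⊕ β → ℝ), {c | aeval (adL c (Sum.inl a)) (χ a) v = 0} := by
      ext c
      simp only [Set.mem_ofPred_eq, Set.mem_iInter]
      constructor
      · intro h a v; rw [h a]; rfl
      · intro h a; exact LinearMap.ext fun v => h a v
    rw [this]
    refine isClosed_iInter fun a => isClosed_iInter fun v => isClosed_eq ?_ continuous_const
    have h9 : (fun c : SC (α ⊕ β) => aeval (adL c (Sum.inl a)) (χ a) v) =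
        fun c => ∑ i ∈ Finset.range ((χ a).natDegree + 1),
          (χ a).coeff i • (adL c (Sum.inl a) ^ i) v := by
      funext c
      rw [aeval_eq_sum_range, LinearMap.sum_apply]
      rfl
    rw [h9]
    exact continuous_finsetSum _ fun i _ =>
      (continuous_adL_pow (Sum.inl a) i (fun _ => v) continuous_const).const_smul ((χ a).coeff i)
  have : {c : SC (α ⊕ β) | Good K t χ c} = {c | ∀ i j k, c i j k = -c j i k} ∩ {c | Jac c} ∩
      {c | ∀ i j a, c i j (Sum.inl a) = 0} ∩ {c | ∀ v, Wn c K v} ∩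
      {c | ∀ a, Hc c (Sum.inl a) = t a} ∩ {c | ∀ b, Hc c (Sum.inr b) = 0} ∩
      {c | ∀ b i, killM c (Sum.inr b) i = 0} ∩
      {c | ∀ a, aeval (adL c (Sum.inl a)) (χ a) = 0} := by
    ext c
    constructor
    · intro (h : Good K t χ c)
      exact ⟨⟨⟨⟨⟨⟨⟨h.anti, h.jac⟩, h.out⟩, h.word⟩, h.trA⟩, h.trB⟩, h.kil⟩, h.ann⟩
    · rintro ⟨⟨⟨⟨⟨⟨⟨a1, a2⟩, a3⟩, a4⟩, a5⟩, a6⟩, a7⟩, a8⟩
      exact ⟨a1, a2, a3, a4, a5, a6, a7, a8⟩
  rw [this]
  exact ((((((h1.inter h2).inter h3).inter h4).inter h5).inter h6).inter h7).inter h8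

end Pool.Agent.Lib.P6ec3b3
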