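import Pool.Agent.Lib.P6ec3b3.Adapted

/-!
# Compactness of the set of nonpositive curvature structures in an orbit closure
-/

open Module Polynomial Filter Topology

namespace Pool.Agent.Lib.P6ec3b3

attribute [local instance 100] LieRing.ofAssociativeRing

/-- The quadratic form of a matrix. -/
def qf {κ : Type*} [Fintype κ] (M : Matrix κ κ ℝ) (v : κ → ℝ) : ℝ := ∑ k, ∑ l, M k l * v k * v l

theorem qf_eq_dot {κ : Type*} [Fintype κ] (M : Matrix κ κ ℝ) (v : κ → ℝ) :
    qf M v = star v ⬝ᵥ (M.mulVec v) := by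
  unfold qf
  rw [dotProduct]
  refine Finset.sum_congr rfl fun k _ => ?_
  rw [Matrix.mulVec, dotProduct, Finset.mul_sum]
  refine Finset.sum_congr rfl fun l _ => ?_
  simp only [star_trivial]
  ring

theorem continuous_qf {κ : Type*} [Fintype κ] :
    Continuous fun p : Matrix κ κ ℝ × (κ → ℝ) => qf p.1 p.2 := by
  unfold qf
  refine continuous_finsetSum _ fun k _ => continuous_finsetSum _ fun l _ => ?_
  have h1 : Continuous fun p : Matrix κ κ ℝ × (κ → ℝ) => p.1 k l :=
    (continuous_apply_apply k l).comp continuous_fst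
  fun_prop

theorem isOpen_posQ {κ : Type*} [Fintype κ] :
    IsOpen {M : Matrix κ κ ℝ | ∀ v : κ → ℝ, v ≠ 0 → 0 < qf M v} := by
  rw [isOpen_iff_mem_nhds]
  intro M0 hM0
  have hK : IsCompact (Metric.sphere (0 : κ → ℝ) 1) := isCompact_sphere _ _
  have h1 : ∀ᶠ M in 𝓝 M0, ∀ v ∈ Metric.sphere (0 : κ → ℝ) 1, 0 < qf M v := by
    refine hK.eventually_forall_of_forall_eventually fun v hv => ?_
    have hv0 : v ≠ 0 := by
      intro h
      rw [h, mem_sphere_zero_iff_norm, norm_zero] at hv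
      exact zero_ne_one hv
    exact (continuous_qf.continuousAt (x := (M0, v))).eventually (lt_mem_nhds (hM0 v hv0))
  refine mem_of_superset h1 ?_
  intro M hM v hv
  have hn : 0 < ‖v‖ := norm_pos_iff.mpr hv
  have h2 := hM (‖v‖⁻¹ • v) (by
    rw [mem_sphere_zero_iff_norm, norm_smul, norm_inv, norm_norm, inv_mul_cancel₀ hn.ne'])
  have h3 : qf M (‖v‖⁻¹ • v) = ‖v‖⁻¹ ^ 2 * qf M v := by
    unfold qf
    simp only [Finset.mul_sum, Pi.smul_apply, smul_eq_mul]
    refine Finset.sum_congr rfl fun k _ => Finset.sum_congr rfl fun l _ => ?_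
    ring
  rw [h3] at h2
  have h4 : 0 < ‖v‖⁻¹ ^ 2 := by positivity
  exact (mul_pos_iff_of_pos_left h4).mp h2

section smul

variable {ι : Type*} [Fintype ι]

theorem mM_smul (r : ℝ) (c : SC ι) (k l : ι) : mM (r • c) k l = r ^ 2 * mM c k l := by
  unfold mM
  simp only [Pi.smul_apply, smul_eq_mul]
  have h1 : ∑ i, ∑ q, r * c k i q * (r * c l i q) = r ^ 2 * ∑ i, ∑ q, c k i q * c l i q := by
    simp only [Finset.mul_sum]
    exact Finset.sum_congr rfl fun i _ => Finset.sum_congr rfl fun q _ => by ring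
  have h2 : ∑ i, ∑ j, r * c i j k * (r * c i j l) = r ^ 2 * ∑ i, ∑ j, c i j k * c i j l := by
    simp only [Finset.mul_sum]
    exact Finset.sum_congr rfl fun i _ => Finset.sum_congr rfl fun q _ => by ring
  rw [h1, h2]
  ring

theorem adL_smul (r : ℝ) (c : SC ι) (i : ι) : adL (r • c) i = r • adL c i := by
  refine LinearMap.ext fun v => ?_
  funext k
  rw [LinearMap.smul_apply, Pi.smul_apply, adL_apply, adL_apply, smul_eq_mul, Finset.mul_sum]
  refine Finset.sum_congr rfl fun j _ => ?_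
  simp only [Pi.smul_apply, smul_eq_mul]
  ring

end smul

variable {α β : Type*} [Fintype α] [Fintype β]

theorem Wn_smul_vec (r : ℝ) (c : SC (α ⊕ β)) (m : ℕ) :
    ∀ v, Wn c m v → Wn c m (r • v) := by
  induction m with
  | zero => intro v h; change r • v = 0; rw [show v = 0 from h, smul_zero]
  | succ m ih =>
    intro v h b
    rw [map_smul]
    exact ih _ (h b)

theorem Wn_smul (r : ℝ) (c : SC (α ⊕ β)) (m : ℕ) : ∀ v, Wn c m v → Wn (r • c) m v := by
  induction m with
  | zero => intro v h; exact h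
  | succ m ih =>
    intro v h b
    rw [adL_smul, LinearMap.smul_apply]
    exact Wn_smul_vec r _ m _ (ih _ (h b))

/-- The Ricci tensor restricted to the nilpotent ideal. -/
noncomputable def GM (t : α → ℝ) (c : SC (α ⊕ β)) : Matrix β β ℝ := fun k l =>
  mM c (Sum.inr k) (Sum.inr l) -
    (1 / 2) * ∑ a, t a * (c (Sum.inl a) (Sum.inr k) (Sum.inr l) +
      c (Sum.inl a) (Sum.inr l) (Sum.inr k))

theorem ricM_eq_GM {K : ℕ} {t : α → ℝ} {χ : α → ℝ[X]} {c : SC (α ⊕ β)} (h : Good K t χ c)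
    (k l : β) : ricM c (Sum.inr k) (Sum.inr l) = GM t c k l := by
  unfold ricM GM
  rw [h.kil, Fintype.sum_sum_type]
  simp only [h.trA, h.trB, zero_mul, Finset.sum_const_zero, add_zero, mul_zero, sub_zero]

theorem continuous_GM (t : α → ℝ) : Continuous fun c : SC (α ⊕ β) => GM t c := by
  refine continuous_matrix fun k l => ?_
  unfold GM
  have h1 := continuous_mM (Sum.inr k : α ⊕ β) (Sum.inr l)
  refine h1.sub (Continuous.const_mul ?_ _)
  fun_prop

theorem mM_symm {ι : Type*} [Fintype ι] (c : SC ι) (k l : ι) : mM c k l = mM c l k := by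
  unfold mM
  simp only [mul_comm]

theorem GM_symm (t : α → ℝ) (c : SC (α ⊕ β)) (k l : β) : GM t c k l = GM t c l k := by
  unfold GM
  rw [mM_symm]
  simp only [add_comm]

/-- Structures with nonpositive Ricci tensor on `n`. -/
def KK (t : α → ℝ) (S : Set (SC (α ⊕ β))) : Set (SC (α ⊕ β)) :=
  {c | c ∈ closure S ∧ ∀ v : β → ℝ, qf (GM t c) v ≤ 0}

theorem isClosed_KK (t : α → ℝ) (S : Set (SC (α ⊕ β))) : IsClosed (KK t S) := by
  have : KK t S = closure S ∩ ⋂ v : β → ℝ, {c | qf (GM t c) v ≤ 0} := by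
    ext c
    simp only [KK, Set.mem_ofPred_eq, Set.mem_inter_iff, Set.mem_iInter]
  rw [this]
  refine isClosed_closure.inter (isClosed_iInter fun v => isClosed_le ?_ continuous_const)
  exact continuous_qf.comp ((continuous_GM t).prodMk continuous_const)

/-- Nilpotency in the limit of rescalings. -/
theorem nil_of_limit (χ : ℝ[X]) (hχ : χ.Monic) (a : α ⊕ β) (c : ℕ → SC (α ⊕ β)) (r : ℕ → ℝ)
    (hann : ∀ N, aeval (adL (c N) a) χ = 0) (hr : Tendsto r atTop (𝓝 0))
    (d : SC (α ⊕ β)) (hd : Tendsto (fun N => r N • c N) atTop (𝓝 d)) :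
    adL d a ^ χ.natDegree = 0 := by
  refine LinearMap.ext fun v => ?_
  rw [LinearMap.zero_apply]
  have hpow : ∀ i : ℕ, Tendsto (fun N => (adL (r N • c N) a ^ i) v) atTop
      (𝓝 ((adL d a ^ i) v)) := fun i =>
    ((continuous_adL_pow a i (fun _ => v) continuous_const).tendsto d).comp hd
  have h1 := hpow χ.natDegree
  have h2 : ∀ N, (adL (r N • c N) a ^ χ.natDegree) v =
      -∑ i ∈ Finset.range χ.natDegree, (χ.coeff i * r N ^ (χ.natDegree - i)) •
        (adL (r N • c N) a ^ i) v := by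
    intro N
    have h3 := congrArg (fun f => f v) (hann N)
    simp only [LinearMap.zero_apply] at h3
    rw [aeval_eq_sum_range, Finset.sum_range_succ, Polynomial.Monic.coeff_natDegree hχ, one_smul,
      LinearMap.add_apply, LinearMap.sum_apply] at h3
    have h4 : (adL (c N) a ^ χ.natDegree) v =
      -∑ i ∈ Finset.range χ.natDegree, (χ.coeff i • adL (c N) a ^ i) v :=
      eq_neg_of_add_eq_zero_right h3
    rw [adL_smul, _root_.smul_pow, LinearMap.smul_apply, h4, smul_neg, Finset.smul_sum]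
    congr 1
    refine Finset.sum_congr rfl fun i hi => ?_
    rw [_root_.smul_pow, LinearMap.smul_apply, LinearMap.smul_apply, smul_smul, smul_smul]
    congr 1
    have h5 : χ.natDegree = (χ.natDegree - i) + i := by
      have := Finset.mem_range.mp hi
      omega
    conv_lhs => rw [h5, pow_add]
    ring
  have h3 : Tendsto (fun N => -∑ i ∈ Finset.range χ.natDegree,
      (χ.coeff i * r N ^ (χ.natDegree - i)) • (adL (r N • c N) a ^ i) v) atTop (𝓝 0) := by
    have h4 : Tendsto (fun N => -∑ i ∈ Finset.range χ.natDegree,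
      (χ.coeff i * r N ^ (χ.natDegree - i)) • (adL (r N • c N) a ^ i) v) atTop
      (𝓝 (-∑ i ∈ Finset.range χ.natDegree, (0 : ℝ) • (adL d a ^ i) v)) := by
      refine (tendsto_finsetSum _ fun i hi => ?_).neg
      refine Tendsto.smul ?_ (hpow i)
      have h5 : χ.natDegree - i ≠ 0 := by
        have := Finset.mem_range.mp hi
        omega
      have h6 : Tendsto (fun N => r N ^ (χ.natDegree - i)) atTop (𝓝 0) := by
        have := hr.pow (χ.natDegree - i)
        rwa [zero_pow h5] at this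
      have := h6.const_mul (χ.coeff i)
      rwa [mul_zero] at this
    simpa using h4
  refine tendsto_nhds_unique h1 ?_
  simp only [h2]
  exact h3

/-- The set `KK` is bounded. -/
theorem bounded_KK {K : ℕ} {t : α → ℝ} {χ : α → ℝ[X]} (hχ : ∀ a, (χ a).Monic)
    (S : Set (SC (α ⊕ β))) (hS : ∀ c ∈ S, Good K t χ c) :
    Bornology.IsBounded (KK t S) := by
  have hgood : ∀ c ∈ closure S, Good K t χ c := fun c hc =>
    closure_minimal (t := {c | Good K t χ c}) hS (isClosed_good K t χ) hc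
  by_contra hb
  have hex : ∀ N : ℕ, ∃ c ∈ KK t S, (N : ℝ) < ‖c‖ := by
    intro N
    by_contra h
    push Not at h
    exact hb (isBounded_iff_forall_norm_le.mpr ⟨N, h⟩)
  choose c hcK hcN using hex
  have hpos : ∀ N, 0 < ‖c N‖ := fun N => lt_of_le_of_lt (Nat.cast_nonneg N) (hcN N)
  have hr0 : Tendsto (fun N => ‖c N‖⁻¹) atTop (𝓝 0) := by
    refine tendsto_inv_atTop_zero.comp ?_
    exact tendsto_atTop_mono (fun N => (hcN N).le) tendsto_natCast_atTop_atTop
  have hsph : ∀ N, ‖c N‖⁻¹ • c N ∈ Metric.sphere (0 : SC (α ⊕ β)) 1 := by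
    intro N
    rw [mem_sphere_zero_iff_norm, norm_smul, norm_inv, norm_norm, inv_mul_cancel₀ (hpos N).ne']
  obtain ⟨d, hd, φ, hφ, hlim⟩ := (isCompact_sphere (0 : SC (α ⊕ β)) 1).tendsto_subseq hsph
  have hrφ : Tendsto (fun N => ‖c (φ N)‖⁻¹) atTop (𝓝 0) := hr0.comp hφ.tendsto_atTop
  have hlim' : Tendsto (fun N => ‖c (φ N)‖⁻¹ • c (φ N)) atTop (𝓝 d) := hlim
  have hG : ∀ N, Good K t χ (c (φ N)) := fun N => hgood _ (hcK (φ N)).1
  have hentry : ∀ i j k, Tendsto (fun N => (‖c (φ N)‖⁻¹ • c (φ N)) i j k) atTop (𝓝 (d i j k)) :=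
    fun i j k => ((continuous_entry i j k).tendsto d).comp hlim'
  have anti : ∀ i j k, d i j k = -d j i k := by
    intro i j k
    refine tendsto_nhds_unique (hentry i j k) ?_
    refine ((hentry j i k).neg).congr fun N => ?_
    simp only [Pi.smul_apply, smul_eq_mul]
    rw [(hG N).anti i j k]
    ring
  have out : ∀ i j a, d i j (Sum.inl a) = 0 := by
    intro i j a
    refine tendsto_nhds_unique (hentry i j (Sum.inl a)) ?_
    refine tendsto_const_nhds.congr fun N => ?_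
    simp only [Pi.smul_apply, smul_eq_mul]
    rw [(hG N).out i j a, mul_zero]
  have jac : Jac d := by
    have hcl : IsClosed {c : SC (α ⊕ β) | Jac c} := by
      unfold Jac
      simp only [Set.ofPred_forall]
      exact isClosed_iInter fun i => isClosed_iInter fun j => isClosed_iInter fun l =>
        isClosed_iInter fun k => isClosed_eq (by fun_prop) (by fun_prop)
    refine hcl.mem_of_tendsto hlim' (Eventually.of_forall fun N => ?_)
    intro i j l k
    have h := (hG N).jac i j l k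
    have h2 : ∑ q, ((‖c (φ N)‖⁻¹ • c (φ N)) i j q * (‖c (φ N)‖⁻¹ • c (φ N)) q l k +
        (‖c (φ N)‖⁻¹ • c (φ N)) j l q * (‖c (φ N)‖⁻¹ • c (φ N)) q i k +
        (‖c (φ N)‖⁻¹ • c (φ N)) l i q * (‖c (φ N)‖⁻¹ • c (φ N)) q j k) = ‖c (φ N)‖⁻¹ ^ 2 *
        ∑ q, (c (φ N) i j q * c (φ N) q l k + c (φ N) j l q * c (φ N) q i k +
          c (φ N) l i q * c (φ N) q j k) := by
      rw [Finset.mul_sum]
      refine Finset.sum_congr rfl fun q _ => ?_
      simp only [Pi.smul_apply, smul_eq_mul]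
      ring
    rw [h2, h, mul_zero]
  have word : ∀ v, Wn d K v := by
    intro v
    refine (isClosed_Wn K (fun _ => v) continuous_const).mem_of_tendsto hlim'
      (Eventually.of_forall fun N => ?_)
    exact Wn_smul _ _ K v ((hG N).word v)
  have hnil : ∀ a : α, ∃ P : ℕ, adL d (Sum.inl a) ^ P = 0 := by
    intro a
    exact ⟨(χ a).natDegree, nil_of_limit (χ a) (hχ a) (Sum.inl a) (fun N => c (φ N)) _
      (fun N => (hG N).ann a) hrφ d hlim'⟩
  have hne : d ≠ 0 := by
    intro h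
    rw [h, mem_sphere_zero_iff_norm, norm_zero] at hd
    exact zero_ne_one hd
  obtain ⟨z, hz, hzpos⟩ := milnor d anti jac out word hnil hne
  set w : β → ℝ := fun b => z (Sum.inr b) with hw
  have hsum : ∀ e : SC (α ⊕ β), ∑ k, ∑ l, mM e k l * z k * z l =
      ∑ k, ∑ l, mM e (Sum.inr k) (Sum.inr l) * w k * w l := by
    intro e
    simp only [Fintype.sum_sum_type, hz, mul_zero, zero_mul, Finset.sum_const_zero, zero_add]
    rfl
  have hle : ∀ N, ∑ k, ∑ l, mM (‖c (φ N)‖⁻¹ • c (φ N)) k l * z k * z l ≤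
      ‖c (φ N)‖⁻¹ * ∑ k, ∑ l, ((1 / 2) * ∑ a, t a *
        ((‖c (φ N)‖⁻¹ • c (φ N)) (Sum.inl a) (Sum.inr k) (Sum.inr l) +
          (‖c (φ N)‖⁻¹ • c (φ N)) (Sum.inl a) (Sum.inr l) (Sum.inr k))) * w k * w l := by
    intro N
    have h1 := (hcK (φ N)).2 w
    have h2 : qf (GM t (c (φ N))) w * ‖c (φ N)‖⁻¹ ^ 2 =
        ∑ k, ∑ l, mM (‖c (φ N)‖⁻¹ • c (φ N)) k l * z k * z l -
        ‖c (φ N)‖⁻¹ * ∑ k, ∑ l, ((1 / 2) * ∑ a, t a *
        ((‖c (φ N)‖⁻¹ • c (φ N)) (Sum.inl a) (Sum.inr k) (Sum.inr l) +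
          (‖c (φ N)‖⁻¹ • c (φ N)) (Sum.inl a) (Sum.inr l) (Sum.inr k))) * w k * w l := by
      rw [hsum]
      unfold qf GM
      simp only [mM_smul]
      rw [Finset.sum_mul, Finset.mul_sum, ← Finset.sum_sub_distrib]
      refine Finset.sum_congr rfl fun k _ => ?_
      rw [Finset.sum_mul, Finset.mul_sum, ← Finset.sum_sub_distrib]
      refine Finset.sum_congr rfl fun l _ => ?_
      have h3 : ∑ a, t a * ((‖c (φ N)‖⁻¹ • c (φ N)) (Sum.inl a) (Sum.inr k) (Sum.inr l) +
          (‖c (φ N)‖⁻¹ • c (φ N)) (Sum.inl a) (Sum.inr l) (Sum.inr k)) =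
          ‖c (φ N)‖⁻¹ * ∑ a, t a * (c (φ N) (Sum.inl a) (Sum.inr k) (Sum.inr l) +
          c (φ N) (Sum.inl a) (Sum.inr l) (Sum.inr k)) := by
        rw [Finset.mul_sum]
        refine Finset.sum_congr rfl fun a _ => ?_
        simp only [Pi.smul_apply, smul_eq_mul]
        ring
      rw [h3]
      ring
    have h3 : qf (GM t (c (φ N))) w * ‖c (φ N)‖⁻¹ ^ 2 ≤ 0 :=
      mul_nonpos_of_nonpos_of_nonneg h1 (by positivity)
    linarith
  have hl1 : Tendsto (fun N => ∑ k, ∑ l, mM (‖c (φ N)‖⁻¹ • c (φ N)) k l * z k * z l) atTop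
      (𝓝 (∑ k, ∑ l, mM d k l * z k * z l)) :=
    tendsto_finsetSum _ fun k _ => tendsto_finsetSum _ fun l _ =>
      ((((continuous_mM k l).tendsto d).comp hlim').mul_const _).mul_const _
  have hl2 : Tendsto (fun N => ‖c (φ N)‖⁻¹ * ∑ k, ∑ l, ((1 / 2) * ∑ a, t a *
        ((‖c (φ N)‖⁻¹ • c (φ N)) (Sum.inl a) (Sum.inr k) (Sum.inr l) +
          (‖c (φ N)‖⁻¹ • c (φ N)) (Sum.inl a) (Sum.inr l) (Sum.inr k))) * w k * w l) atTop
      (𝓝 (0 * ∑ k, ∑ l, ((1 / 2) * ∑ a, t a *
        (d (Sum.inl a) (Sum.inr k) (Sum.inr l) +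
          d (Sum.inl a) (Sum.inr l) (Sum.inr k))) * w k * w l)) := by
    refine hrφ.mul ?_
    refine tendsto_finsetSum _ fun k _ => tendsto_finsetSum _ fun l _ => ?_
    refine Tendsto.mul_const _ (Tendsto.mul_const _ (Tendsto.const_mul _ ?_))
    exact tendsto_finsetSum _ fun a _ => ((hentry _ _ _).add (hentry _ _ _)).const_mul _
  have := le_of_tendsto_of_tendsto' hl1 hl2 hle
  rw [zero_mul] at this
  linarith

end Pool.Agent.Lib.P6ec3b3
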