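import Pool.Agent.Lib.P6ec3b3.Variation

/-!
# Structure of the maximisers
-/

open Module Filter Topology Polynomial

namespace Pool.Agent.Lib.P6ec3b3

variable {α β : Type*} [Fintype α] [Fintype β]

/-- The matrix of `ad A_a` on the ideal. -/
def Dm (c : SC (α ⊕ β)) (a : α) : Matrix β β ℝ := fun l k => c (Sum.inl a) (Sum.inr k) (Sum.inr l)

/-- The matrix of `ad e_i` on the ideal. -/
def Mm (c : SC (α ⊕ β)) (i : β) : Matrix β β ℝ := fun k j => c (Sum.inr i) (Sum.inr j) (Sum.inr k)

/-- The moment map of the bracket of the ideal. -/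
noncomputable def MM (c : SC (α ⊕ β)) : Matrix β β ℝ := fun k l =>
  -(1 / 2) * ∑ i, ∑ q, c (Sum.inr k) (Sum.inr i) (Sum.inr q) *
      c (Sum.inr l) (Sum.inr i) (Sum.inr q) +
    (1 / 4) * ∑ i, ∑ j, c (Sum.inr i) (Sum.inr j) (Sum.inr k) *
      c (Sum.inr i) (Sum.inr j) (Sum.inr l)

theorem mM_split (c : SC (α ⊕ β)) (anti : ∀ i j k, c i j k = -c j i k)
    (out : ∀ i j a, c i j (Sum.inl a) = 0) (hf : ∀ a b k, c (Sum.inl a) (Sum.inl b) k = 0)
    (k l : β) : mM c (Sum.inr k) (Sum.inr l) = MM c k l + (1 / 2) * ∑ a,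
      ((Dm c a * (Dm c a).transpose) k l - ((Dm c a).transpose * Dm c a) k l) := by
  unfold mM MM
  simp only [Fintype.sum_sum_type, out, mul_zero, Finset.sum_const_zero, zero_add, hf,
    Finset.sum_add_distrib, Matrix.mul_apply, Matrix.transpose_apply, Dm,
    Finset.sum_sub_distrib]
  have e1 : ∀ a : α, ∑ q, c (Sum.inr k) (Sum.inl a) (Sum.inr q) *
      c (Sum.inr l) (Sum.inl a) (Sum.inr q) = ∑ q, c (Sum.inl a) (Sum.inr k) (Sum.inr q) *
      c (Sum.inl a) (Sum.inr l) (Sum.inr q) := by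
    intro a
    refine Finset.sum_congr rfl fun q _ => ?_
    rw [anti (Sum.inr k) (Sum.inl a), anti (Sum.inr l) (Sum.inl a)]
    ring
  have e2 : ∑ i : β, ∑ a : α, c (Sum.inr i) (Sum.inl a) (Sum.inr k) *
      c (Sum.inr i) (Sum.inl a) (Sum.inr l) = ∑ a : α, ∑ i : β,
      c (Sum.inl a) (Sum.inr i) (Sum.inr k) * c (Sum.inl a) (Sum.inr i) (Sum.inr l) := by
    rw [Finset.sum_comm]
    refine Finset.sum_congr rfl fun a _ => Finset.sum_congr rfl fun i _ => ?_
    rw [anti (Sum.inr i) (Sum.inl a) (Sum.inr k), anti (Sum.inr i) (Sum.inl a) (Sum.inr l)]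
    ring
  simp only [e1, e2]
  ring

theorem killM_symm {ι : Type*} [Fintype ι] (c : SC ι) (k l : ι) : killM c k l = killM c l k := by
  unfold killM
  rw [Finset.sum_comm]
  exact Finset.sum_congr rfl fun i _ => Finset.sum_congr rfl fun q _ => mul_comm _ _

theorem ricM_symm {ι : Type*} [Fintype ι] (c : SC ι) (k l : ι) : ricM c k l = ricM c l k := by
  unfold ricM
  rw [mM_symm, killM_symm]
  simp only [add_comm]

section cons

variable [DecidableEq β]
variable {K : ℕ} {t : α → ℝ} {χ : α → ℝ[X]} {c : SC (α ⊕ β)}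

/-- The matrix `F = -G`, and its inverse `C`, are commuting with everything in sight. -/
structure MaxData (t : α → ℝ) (c : SC (α ⊕ β)) (C : Matrix β β ℝ) : Prop where
  pos : (-GM t c).PosDef
  eq : C = (-GM t c)⁻¹
  ker : piU (emb0 C) c = 0

theorem MaxData.transpose {C : Matrix β β ℝ} (h : MaxData t c C) : C.transpose = C := by
  rw [h.eq]
  have := h.pos.inv.isHermitian
  rw [Matrix.IsHermitian, Matrix.conjTranspose_eq_transpose_of_trivial] at this
  exact this

theorem MaxData.isUnit {C : Matrix β β ℝ} (h : MaxData t c C) : IsUnit (-GM t c).det :=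
  isUnit_iff_ne_zero.mpr h.pos.det_pos.ne'

theorem MaxData.mul_left {C : Matrix β β ℝ} (h : MaxData t c C) : (-GM t c) * C = 1 := by
  rw [h.eq]
  exact Matrix.mul_nonsing_inv _ h.isUnit

theorem MaxData.mul_right {C : Matrix β β ℝ} (h : MaxData t c C) : C * (-GM t c) = 1 := by
  rw [h.eq]
  exact Matrix.nonsing_inv_mul _ h.isUnit

theorem MaxData.eq_zero {C : Matrix β β ℝ} (h : MaxData t c C) (y : β → ℝ)
    (hy : ∀ k, ∑ m, C k m * y m = 0) : y = 0 := by
  have h1 : C.mulVec y = 0 := by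
    funext k
    exact hy k
  have h2 : (-GM t c).mulVec (C.mulVec y) = y := by
    rw [Matrix.mulVec_mulVec, h.mul_left, Matrix.one_mulVec]
  rw [h1, Matrix.mulVec_zero] at h2
  exact h2.symm

theorem MaxData.f_zero {C : Matrix β β ℝ} (h : MaxData t c C) (hg : Good K t χ c)
    (a b : α) (k : α ⊕ β) : c (Sum.inl a) (Sum.inl b) k = 0 := by
  rcases k with k | k
  · exact hg.out _ _ _
  · have h1 : (fun m : β => c (Sum.inl a) (Sum.inl b) (Sum.inr m)) = 0 := by
      refine h.eq_zero _ fun k => ?_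
      have h2 := congrFun (congrFun (congrFun h.ker (Sum.inl a)) (Sum.inl b)) (Sum.inr k)
      rw [piU_apply] at h2
      simpa [Fintype.sum_sum_type, emb0] using h2
    exact congrFun h1 k

theorem MaxData.comm {C : Matrix β β ℝ} (h : MaxData t c C) (a : α) :
    C * Dm c a = Dm c a * C := by
  ext l k
  have h2 := congrFun (congrFun (congrFun h.ker (Sum.inl a)) (Sum.inr k)) (Sum.inr l)
  rw [piU_emb0] at h2
  rw [Matrix.mul_apply, Matrix.mul_apply]
  have h3 : ∑ q, C q k * c (Sum.inl a) (Sum.inr q) (Sum.inr l) =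
      ∑ q, Dm c a l q * C q k := Finset.sum_congr rfl fun q _ => mul_comm _ _
  rw [h3] at h2
  exact sub_eq_zero.mp h2

theorem MaxData.comm' {C : Matrix β β ℝ} (h : MaxData t c C) (X : Matrix β β ℝ)
    (hX : C * X = X * C) : (-GM t c) * X = X * (-GM t c) := by
  calc (-GM t c) * X = (-GM t c) * X * (C * (-GM t c)) := by rw [h.mul_right, mul_one]
    _ = (-GM t c) * (X * C) * (-GM t c) := by simp only [mul_assoc]
    _ = (-GM t c) * (C * X) * (-GM t c) := by rw [hX]
    _ = ((-GM t c) * C) * X * (-GM t c) := by simp only [mul_assoc]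
    _ = X * (-GM t c) := by rw [h.mul_left, one_mul]

theorem MaxData.comm_M {C : Matrix β β ℝ} (h : MaxData t c C) (i : β) :
    C * Mm c i - Mm c i * C = ∑ q, C q i • Mm c q := by
  ext k j
  have h2 := congrFun (congrFun (congrFun h.ker (Sum.inr i)) (Sum.inr j)) (Sum.inr k)
  rw [piU_apply] at h2
  simp only [Fintype.sum_sum_type, emb0, Matrix.fromBlocks_apply₂₁, Matrix.zero_apply, zero_mul,
    Finset.sum_const_zero, zero_add, Matrix.fromBlocks_apply₂₂, Matrix.fromBlocks_apply₁₂] at h2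
  rw [Matrix.sub_apply, Matrix.mul_apply, Matrix.mul_apply, Matrix.sum_apply]
  simp only [Matrix.smul_apply, smul_eq_mul, Mm]
  have h3 : ∑ q, c (Sum.inr i) (Sum.inr q) (Sum.inr k) * C q j =
      ∑ q, C q j * c (Sum.inr i) (Sum.inr q) (Sum.inr k) :=
    Finset.sum_congr rfl fun q _ => mul_comm _ _
  rw [h3]
  have h4 : (0 : SC (α ⊕ β)) (Sum.inr i) (Sum.inr j) (Sum.inr k) = 0 := rfl
  rw [h4] at h2
  linarith

theorem MaxData.trace_zero {C : Matrix β β ℝ} (h : MaxData t c C) (X : Matrix β β ℝ)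
    (hX : C * X = X * C) (i : β) : (X * Mm c i).trace = 0 := by
  have h1 : (fun q => (X * Mm c q).trace) = 0 := by
    refine h.eq_zero _ fun i => ?_
    have h2 : (X * (C * Mm c i - Mm c i * C)).trace = 0 := by
      rw [Matrix.mul_sub, Matrix.trace_sub, ← Matrix.mul_assoc, ← Matrix.mul_assoc,
        Matrix.trace_mul_comm (X * Mm c i) C, ← Matrix.mul_assoc, hX, sub_self]
    rw [h.comm_M, Matrix.mul_sum, Matrix.trace_sum] at h2
    rw [← h2]
    refine Finset.sum_congr rfl fun q _ => ?_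
    rw [Matrix.mul_smul, Matrix.trace_smul, smul_eq_mul]
    congr 1
    exact congrFun (congrFun h.transpose q) i
  exact congrFun h1 i

theorem MaxData.D_comm {C : Matrix β β ℝ} (h : MaxData t c C) (hg : Good K t χ c) (a b : α) :
    Dm c a * Dm c b = Dm c b * Dm c a := by
  ext k j
  rw [Matrix.mul_apply, Matrix.mul_apply]
  have h1 := hg.jac (Sum.inl a) (Sum.inl b) (Sum.inr j) (Sum.inr k)
  have h2 : ∀ q, c (Sum.inl a) (Sum.inl b) q * c q (Sum.inr j) (Sum.inr k) +
      c (Sum.inl b) (Sum.inr j) q * c q (Sum.inl a) (Sum.inr k) +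
      c (Sum.inr j) (Sum.inl a) q * c q (Sum.inl b) (Sum.inr k) =
      c (Sum.inl a) (Sum.inr j) q * c (Sum.inl b) q (Sum.inr k) -
      c (Sum.inl b) (Sum.inr j) q * c (Sum.inl a) q (Sum.inr k) := by
    intro q
    rw [h.f_zero hg, hg.anti q (Sum.inl a), hg.anti q (Sum.inl b), hg.anti (Sum.inr j) (Sum.inl a)]
    ring
  simp only [h2] at h1
  rw [Finset.sum_sub_distrib, Fintype.sum_sum_type, Fintype.sum_sum_type] at h1
  simp only [hg.out, zero_mul, Finset.sum_const_zero, zero_add] at h1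
  have h3 : ∑ q, Dm c a k q * Dm c b q j = ∑ q, c (Sum.inl b) (Sum.inr j) (Sum.inr q) *
      c (Sum.inl a) (Sum.inr q) (Sum.inr k) := Finset.sum_congr rfl fun q _ => mul_comm _ _
  have h4 : ∑ q, Dm c b k q * Dm c a q j = ∑ q, c (Sum.inl a) (Sum.inr j) (Sum.inr q) *
      c (Sum.inl b) (Sum.inr q) (Sum.inr k) := Finset.sum_congr rfl fun q _ => mul_comm _ _
  rw [h3, h4]
  linarith

theorem MaxData.derivation {C : Matrix β β ℝ} (h : MaxData t c C) (hg : Good K t χ c) (b : α) :
    piU (emb0 (Dm c b)) c = 0 := by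
  have hu : ∀ k l, (emb0 (Dm c b) : Matrix (α ⊕ β) (α ⊕ β) ℝ) k l = c (Sum.inl b) l k := by
    intro k l
    rcases k with k | k <;> rcases l with l | l
    · simp [emb0, hg.out]
    · simp [emb0, hg.out]
    · simp [emb0, h.f_zero hg]
    · rfl
  funext i j k
  rw [piU_apply]
  simp only [hu]
  have h1 := hg.jac (Sum.inl b) i j k
  have h2 : ∀ q, c (Sum.inl b) i q * c q j k + c i j q * c q (Sum.inl b) k +
      c j (Sum.inl b) q * c q i k = c (Sum.inl b) i q * c q j k -
      c (Sum.inl b) q k * c i j q + c (Sum.inl b) j q * c i q k := by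
    intro q
    rw [hg.anti q (Sum.inl b), hg.anti j (Sum.inl b), hg.anti q i k]
    ring
  simp only [h2, Finset.sum_add_distrib, Finset.sum_sub_distrib] at h1
  have h4 : (0 : SC (α ⊕ β)) i j k = 0 := rfl
  rw [h4]
  linarith

omit [DecidableEq β] in
theorem sum_mul_eq_trace (X Y : Matrix β β ℝ) :
    ∑ k, ∑ l, X k l * Y k l = (X * Y.transpose).trace := by
  rw [Matrix.trace]
  refine Finset.sum_congr rfl fun k _ => ?_
  rw [Matrix.diag_apply, Matrix.mul_apply]
  rfl

theorem MaxData.normal {C : Matrix β β ℝ} (h : MaxData t c C) (hg : Good K t χ c) (a b : α) :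
    (Dm c b).transpose * Dm c a = Dm c a * (Dm c b).transpose := by
  have hder := h.derivation hg b
  have hcond : ∑ k, ∑ l, (emb0 (Dm c b) * (emb0 (Dm c b)).transpose -
      (emb0 (Dm c b)).transpose * emb0 (Dm c b) : Matrix (α ⊕ β) (α ⊕ β) ℝ) k l * mM c k l = 0 := by
    have e1 : (emb0 (Dm c b) * (emb0 (Dm c b)).transpose -
      (emb0 (Dm c b)).transpose * emb0 (Dm c b) : Matrix (α ⊕ β) (α ⊕ β) ℝ) =
      emb0 (Dm c b * (Dm c b).transpose - (Dm c b).transpose * Dm c b) := by
      rw [emb0_transpose]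
      unfold emb0
      rw [Matrix.fromBlocks_multiply, Matrix.fromBlocks_multiply, sub_eq_add_neg,
        Matrix.fromBlocks_neg, Matrix.fromBlocks_add]
      simp [sub_eq_add_neg]
    rw [e1, sum_emb0]
    set Z := Dm c b * (Dm c b).transpose - (Dm c b).transpose * Dm c b with hZ
    have hZT : Z.transpose = Z := by
      rw [hZ, Matrix.transpose_sub, Matrix.transpose_mul, Matrix.transpose_mul,
        Matrix.transpose_transpose]
    have e2 : ∀ k l, mM c (Sum.inr k) (Sum.inr l) = -((-GM t c) k l) +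
        (1 / 2) * ∑ a, t a * (Dm c a l k + Dm c a k l) := by
      intro k l
      rw [Matrix.neg_apply, neg_neg]
      unfold GM Dm
      ring
    have e3 : ∑ k, ∑ l, Z k l * (-GM t c) k l = 0 := by
      rw [sum_mul_eq_trace]
      have hT : (-GM t c).transpose = -GM t c := by
        have := h.pos.isHermitian
        rw [Matrix.IsHermitian, Matrix.conjTranspose_eq_transpose_of_trivial] at this
        exact this
      rw [hT, hZ, Matrix.sub_mul, Matrix.trace_sub]
      have hc := h.comm' _ (h.comm b)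
      have e4 : (Dm c b * (Dm c b).transpose * -GM t c).trace =
          ((Dm c b).transpose * Dm c b * -GM t c).trace := by
        rw [Matrix.mul_assoc, Matrix.trace_mul_comm, Matrix.mul_assoc, hc, ← Matrix.mul_assoc]
      rw [e4, sub_self]
    have e5 : ∀ a, ∑ k, ∑ l, Z k l * Dm c a k l = 0 := by
      intro a
      rw [sum_mul_eq_trace, hZ, Matrix.sub_mul, Matrix.trace_sub]
      have hc : (Dm c a).transpose * (Dm c b).transpose =
          (Dm c b).transpose * (Dm c a).transpose := by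
        rw [← Matrix.transpose_mul, ← Matrix.transpose_mul, h.D_comm hg]
      have e4 : (Dm c b * (Dm c b).transpose * (Dm c a).transpose).trace =
          ((Dm c b).transpose * Dm c b * (Dm c a).transpose).trace := by
        rw [Matrix.mul_assoc, ← hc, ← Matrix.mul_assoc, Matrix.trace_mul_comm, Matrix.mul_assoc]
      rw [e4, sub_self]
    have e6 : ∀ a, ∑ k, ∑ l, Z k l * Dm c a l k = 0 := by
      intro a
      rw [← e5 a, Finset.sum_comm]
      refine Finset.sum_congr rfl fun k _ => Finset.sum_congr rfl fun l _ => ?_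
      rw [show Z l k = Z k l from congrFun (congrFun hZT k) l]
    have e7 : ∑ k, ∑ l, Z k l * mM c (Sum.inr k) (Sum.inr l) =
        -∑ k, ∑ l, Z k l * (-GM t c) k l + ∑ a, (1 / 2) * t a *
        (∑ k, ∑ l, Z k l * Dm c a l k + ∑ k, ∑ l, Z k l * Dm c a k l) := by
      have s1 : ∀ k l, Z k l * mM c (Sum.inr k) (Sum.inr l) = -(Z k l * (-GM t c) k l) +
          ∑ a, (1 / 2) * t a * (Z k l * Dm c a l k + Z k l * Dm c a k l) := by
        intro k l
        rw [e2, mul_add, Finset.mul_sum, Finset.mul_sum]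
        congr 1
        · ring
        · exact Finset.sum_congr rfl fun a _ => by ring
      simp only [s1, Finset.sum_add_distrib, Finset.sum_neg_distrib]
      congr 1
      have s2 : ∀ k, ∑ l, ∑ a, (1 / 2) * t a * (Z k l * Dm c a l k + Z k l * Dm c a k l) =
          ∑ a, ∑ l, (1 / 2) * t a * (Z k l * Dm c a l k + Z k l * Dm c a k l) :=
        fun k => Finset.sum_comm
      simp only [s2]
      rw [Finset.sum_comm]
      refine Finset.sum_congr rfl fun a _ => ?_
      simp only [← Finset.mul_sum, Finset.sum_add_distrib]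
    rw [e7, e3]
    simp only [e5, e6]
    simp
  have h1 := transpose_derivation (emb0 (Dm c b)) c hg.anti hder hcond
  rw [emb0_transpose] at h1
  ext l k
  have h2 := congrFun (congrFun (congrFun h1 (Sum.inl a)) (Sum.inr k)) (Sum.inr l)
  rw [piU_emb0] at h2
  rw [Matrix.mul_apply, Matrix.mul_apply]
  have h3 : ∑ q, (Dm c b).transpose q k * c (Sum.inl a) (Sum.inr q) (Sum.inr l) =
      ∑ q, Dm c a l q * (Dm c b).transpose q k := Finset.sum_congr rfl fun q _ => mul_comm _ _
  rw [h3] at h2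
  exact sub_eq_zero.mp h2

theorem MaxData.t_ne {C : Matrix β β ℝ} [Nonempty β] (h : MaxData t c C) (hg : Good K t χ c) :
    t ≠ 0 := by
  intro ht
  have h1 := sum_mul_mM2 (emb0 C) (by rw [emb0_transpose, h.transpose]) c c hg.anti hg.anti
  rw [h.ker] at h1
  have h0 : ip (0 : SC (α ⊕ β)) c = 0 := by
    unfold ip
    simp
  rw [h0, sum_emb0] at h1
  have h2 : ∀ k l, mM2 c c (Sum.inr k) (Sum.inr l) = -((-GM t c) k l) := by
    intro k l
    rw [← mM_eq_mM2, Matrix.neg_apply, neg_neg]
    unfold GM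
    rw [ht]
    simp
  simp only [h2, mul_neg, Finset.sum_neg_distrib] at h1
  rw [sum_mul_eq_trace] at h1
  have hT : (-GM t c).transpose = -GM t c := by
    have := h.pos.isHermitian
    rw [Matrix.IsHermitian, Matrix.conjTranspose_eq_transpose_of_trivial] at this
    exact this
  rw [hT, h.mul_right, Matrix.trace_one] at h1
  have h3 : (0 : ℝ) < Fintype.card β := by
    exact_mod_cast Fintype.card_pos
  linarith

end cons

end Pool.Agent.Lib.P6ec3b3
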