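import Pool.Agent.Lib.P6ec3b3.Defs

/-!
# Structure constants and the Ricci curvature in an orthonormal basis
-/

open Module

namespace Pool.Agent.Lib.P6ec3b3

attribute [local instance 100] LieRing.ofAssociativeRing

/-- Arrays of structure constants: `c i j k` is the coefficient of `E k` in `⁅E i, E j⁆`. -/
abbrev SC (ι : Type*) := ι → ι → ι → ℝ

section arrays

variable {ι : Type*} [Fintype ι]

/-- `Hc c l = tr (ad E_l)`: the mean curvature vector. -/
noncomputable def Hc (c : SC ι) (l : ι) : ℝ := ∑ i, c l i i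

/-- The moment map part of the Ricci tensor. -/
noncomputable def mM (c : SC ι) (k l : ι) : ℝ :=
  -(1 / 2) * ∑ i, ∑ q, c k i q * c l i q + (1 / 4) * ∑ i, ∑ j, c i j k * c i j l

/-- The Killing form. -/
noncomputable def killM (c : SC ι) (k l : ι) : ℝ := ∑ i, ∑ q, c k i q * c l q i

/-- The Ricci tensor of a metric Lie algebra in an orthonormal basis. -/
noncomputable def ricM (c : SC ι) (j k : ι) : ℝ :=
  mM c j k - (1 / 2) * killM c j k - (1 / 2) * ∑ h, Hc c h * (c h j k + c h k j)

/-- The Ricci tensor of the array is negative definite. -/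
def NegR (c : SC ι) : Prop := ∀ v : ι → ℝ, v ≠ 0 → ∑ j, ∑ k, ricM c j k * v j * v k < 0

/-- Connection coefficients. -/
noncomputable def Gam (c : SC ι) (i j k : ι) : ℝ := (1 / 2) * (c i j k - c j k i + c k i j)

theorem ric_identity (c : SC ι) (anti : ∀ i j k, c i j k = -c j i k) (j k : ι) :
    ∑ i, ∑ l, (Gam c j k l * Gam c i l i - Gam c i k l * Gam c j l i - c i j l * Gam c l k i) =
      ricM c j k - (1 / 2) * ∑ l, Hc c l * c j k l := by
  have sw : ∀ f : ι → ι → ℝ, ∑ i, ∑ l, f l i = ∑ i, ∑ l, f i l := fun f => Finset.sum_comm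
  have key : ∀ i l, -Gam c i k l * Gam c j l i - c i j l * Gam c l k i =
      (1 / 4) * (c k i l * c j l i) - (1 / 4) * (c k i l * c l i j) - (1 / 4) * (c k i l * c j i l)
      + (1 / 4) * (c k l i * c j l i) + (1 / 4) * (c k l i * c i l j)
      - (1 / 4) * (c k l i * c j i l) - (1 / 4) * (c l i k * c j l i)
      + (1 / 4) * (c i l k * c i l j) - (1 / 4) * (c i l k * c j i l)
      - (1 / 2) * (c k l i * c j i l) - (1 / 2) * (c k i l * c j i l)
      + (1 / 2) * (c i l k * c j i l) := by
    intro i l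
    unfold Gam
    rw [anti i k l, anti i j l, anti l k i, anti i l k, anti i l j]
    ring
  have h1 : ∑ i, ∑ l, Gam c j k l * Gam c i l i = - ∑ l, Hc c l * Gam c j k l := by
    rw [Finset.sum_comm, ← Finset.sum_neg_distrib]
    refine Finset.sum_congr rfl fun l _ => ?_
    rw [Hc, Finset.sum_mul, ← Finset.sum_neg_distrib]
    refine Finset.sum_congr rfl fun i _ => ?_
    have h0 : c i i l = 0 := by have := anti i i l; linarith
    have h2 : Gam c i l i = -c l i i := by
      unfold Gam; rw [anti i l i, h0]; ring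
    rw [h2]; ring
  have h2 : ∑ i, ∑ l, (-Gam c i k l * Gam c j l i - c i j l * Gam c l k i) =
      mM c j k - (1 / 2) * killM c j k := by
    simp only [key]
    simp only [Finset.sum_add_distrib, Finset.sum_sub_distrib, ← Finset.mul_sum]
    have e1 := sw (fun i l => c k i l * c j l i)
    have e2 := sw (fun i l => c k i l * c l i j)
    have e3 := sw (fun i l => c k i l * c j i l)
    have e4 := sw (fun i l => c l i k * c j l i)
    have e5 : mM c j k = -(1 / 2) * ∑ i, ∑ q, c k i q * c j i q +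
        (1 / 4) * ∑ i, ∑ l, c i l k * c i l j := by
      unfold mM; simp only [mul_comm (c j _ _), mul_comm (c _ _ j)]
    have e6 : killM c j k = ∑ i, ∑ l, c k i l * c j l i := by
      unfold killM
      rw [sw (fun l i => c j i l * c k l i)]
      simp only [mul_comm (c j _ _)]
    rw [e5, e6]
    linarith
  have h3 : ∑ l, Hc c l * Gam c j k l = (1 / 2) * ∑ l, Hc c l * c j k l +
      (1 / 2) * ∑ h, Hc c h * (c h j k + c h k j) := by
    rw [Finset.mul_sum, Finset.mul_sum, ← Finset.sum_add_distrib]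
    refine Finset.sum_congr rfl fun l _ => ?_
    unfold Gam; rw [anti k l j]; ring
  have h4 : ∑ i, ∑ l, (Gam c j k l * Gam c i l i - Gam c i k l * Gam c j l i -
      c i j l * Gam c l k i) = ∑ i, ∑ l, Gam c j k l * Gam c i l i +
      ∑ i, ∑ l, (-Gam c i k l * Gam c j l i - c i j l * Gam c l k i) := by
    simp only [← Finset.sum_add_distrib]
    refine Finset.sum_congr rfl fun i _ => Finset.sum_congr rfl fun l _ => ?_
    ring
  rw [h4, h1, h2, h3, ricM]
  ring

end arrays

section basis

variable {g : Type*} [LieRing g] [LieAlgebra ℝ g]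
variable {ι : Type*} [Fintype ι]

/-- Structure constants of a basis. -/
noncomputable def sc (E : Basis ι ℝ g) : SC ι := fun i j k => E.repr ⁅E i, E j⁆ k

omit [Fintype ι] in
theorem sc_anti (E : Basis ι ℝ g) (i j k : ι) : sc E i j k = -sc E j i k := by
  unfold sc
  rw [← lie_skew, map_neg, Finsupp.neg_apply]

theorem lie_eq_sum (E : Basis ι ℝ g) (i j : ι) : ⁅E i, E j⁆ = ∑ k, sc E i j k • E k :=
  (E.sum_repr _).symm

theorem repr_lie_right (E : Basis ι ℝ g) (i k : ι) (y : g) :
    E.repr ⁅E i, y⁆ k = ∑ j, E.repr y j * sc E i j k := by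
  conv_lhs => rw [← E.sum_repr y]
  rw [lie_sum, map_sum, Finsupp.finsetSum_apply]
  refine Finset.sum_congr rfl fun j _ => ?_
  rw [lie_smul, map_smul, Finsupp.smul_apply, smul_eq_mul, sc]

theorem trace_eq (E : Basis ι ℝ g) (f : g →ₗ[ℝ] g) :
    LinearMap.trace ℝ g f = ∑ i, E.repr (f (E i)) i := by
  classical
  rw [LinearMap.trace_eq_matrix_trace ℝ E, Matrix.trace]
  refine Finset.sum_congr rfl fun i _ => ?_
  rw [Matrix.diag_apply, LinearMap.toMatrix_apply]

theorem Hc_eq_trace (E : Basis ι ℝ g) (l : ι) :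
    Hc (sc E) l = LinearMap.trace ℝ g (LieAlgebra.ad ℝ g (E l)) := by
  rw [trace_eq E]
  rfl

/-- `Σ_l H_l c_jk^l = tr ad [E_j, E_k] = 0`. -/
theorem Hc_sc (E : Basis ι ℝ g) (j k : ι) : ∑ l, Hc (sc E) l * sc E j k l = 0 := by
  classical
  have : Module.Finite ℝ g := Module.Finite.of_basis E
  have h1 : LinearMap.trace ℝ g (LieAlgebra.ad ℝ g ⁅E j, E k⁆) = 0 := by
    rw [LieHom.map_lie, LieRing.of_associative_ring_bracket, map_sub, LinearMap.trace_mul_comm,
      sub_self]
  rw [lie_eq_sum, map_sum, map_sum] at h1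
  rw [← h1]
  refine Finset.sum_congr rfl fun l _ => ?_
  rw [map_smul, map_smul, Hc_eq_trace, smul_eq_mul, mul_comm]

theorem killM_eq_trace (E : Basis ι ℝ g) (k l : ι) :
    killM (sc E) k l =
      LinearMap.trace ℝ g (LieAlgebra.ad ℝ g (E k) * LieAlgebra.ad ℝ g (E l)) := by
  rw [trace_eq E, killM, Finset.sum_comm]
  refine Finset.sum_congr rfl fun q _ => ?_
  rw [Module.End.mul_apply, LieAlgebra.ad_apply, LieAlgebra.ad_apply, repr_lie_right]
  refine Finset.sum_congr rfl fun i _ => ?_
  rw [mul_comm]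
  rfl

end basis

end Pool.Agent.Lib.P6ec3b3
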