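import Mathlib

/-!
# Left-invariant Ricci curvature on a Lie algebra
-/

namespace Pool.Agent.Lib.P6ec3b3

variable {g : Type*} [LieRing g] [LieAlgebra ℝ g]

/-- `D` (with `D x y` standing for `∇ₓ y`) is the Levi-Civita connection of the left-invariant
metric with inner product `B` on the Lie algebra `g`: torsion free and compatible with `B`. -/
structure IsLeviCivita (B : g →ₗ[ℝ] g →ₗ[ℝ] ℝ) (D : g →ₗ[ℝ] g →ₗ[ℝ] g) : Prop where
  torsion_free : ∀ x y, D x y - D y x = ⁅x, y⁆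
  metric : ∀ x y z, B (D x y) z + B y (D x z) = 0

/-- The curvature `R(x,y) z = ∇ₓ∇_y z - ∇_y∇ₓ z - ∇_[x,y] z`. -/
def curvature (D : g →ₗ[ℝ] g →ₗ[ℝ] g) (x y z : g) : g :=
  D x (D y z) - D y (D x z) - D ⁅x, y⁆ z

/-- The linear map `z ↦ R(z,x) y`. -/
def curvatureMap (D : g →ₗ[ℝ] g →ₗ[ℝ] g) (x y : g) : g →ₗ[ℝ] g where
  toFun z := curvature D z x y
  map_add' a b := by simp only [curvature, map_add, LinearMap.add_apply, add_lie]; abel
  map_smul' r a := by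
    simp only [curvature, map_smul, LinearMap.smul_apply, smul_lie, RingHom.id_apply, smul_sub]

/-- The Ricci tensor `Ric(x,y) = tr (z ↦ R(z,x) y)`. -/
noncomputable def ricci (D : g →ₗ[ℝ] g →ₗ[ℝ] g) (x y : g) : ℝ :=
  LinearMap.trace ℝ g (curvatureMap D x y)

variable (g) in
/-- The Lie algebra `g` carries an inner product `B` whose left-invariant metric has negative
Ricci curvature. -/
def HasNegRicci : Prop :=
  ∃ (B : g →ₗ[ℝ] g →ₗ[ℝ] ℝ) (D : g →ₗ[ℝ] g →ₗ[ℝ] g),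
    (∀ x y, B x y = B y x) ∧ (∀ x, x ≠ 0 → 0 < B x x) ∧ IsLeviCivita B D ∧
      ∀ x, x ≠ 0 → ricci D x x < 0

end Pool.Agent.Lib.P6ec3b3
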