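import Pool.Agent.Lib.P6ec3b3.Compact

/-!
# Derivatives of determinants, inverses and of the action
-/

open Module Filter Topology

namespace Pool.Agent.Lib.P6ec3b3

section det

variable {κ : Type*} [Fintype κ] [DecidableEq κ]

theorem hasDerivAt_det_one (F : ℝ → Matrix κ κ ℝ) (F' : Matrix κ κ ℝ) (h0 : F 0 = 1)
    (hF : ∀ i j, HasDerivAt (fun s => F s i j) (F' i j) 0) :
    HasDerivAt (fun s => (F s).det) F'.trace 0 := by
  have h1 : ∀ σ : Equiv.Perm κ, HasDerivAt (fun s => ∏ i, F s (σ i) i)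
      (∑ i, (∏ j ∈ Finset.univ.erase i, F 0 (σ j) j) • F' (σ i) i) 0 := fun σ =>
    HasDerivAt.fun_finsetProd fun i _ => hF (σ i) i
  have h2 : ∀ σ : Equiv.Perm κ, σ ≠ 1 →
      (∑ i, (∏ j ∈ Finset.univ.erase i, F 0 (σ j) j) • F' (σ i) i) = 0 := by
    intro σ hσ
    refine Finset.sum_eq_zero fun i _ => ?_
    have : ∃ j, j ≠ i ∧ σ j ≠ j := by
      by_contra h
      push Not at h
      apply hσ
      ext j
      by_cases hj : j = i
      · subst hj
        by_contra h3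
        have h4 : σ j ≠ j := h3
        have h5 := h (σ j) h4
        exact h4 (σ.injective h5)
      · exact h j hj
    obtain ⟨j, hji, hj⟩ := this
    rw [Finset.prod_eq_zero (Finset.mem_erase.mpr ⟨hji, Finset.mem_univ j⟩), zero_smul]
    rw [h0, Matrix.one_apply_ne hj]
  have h3 : (∑ i, (∏ j ∈ Finset.univ.erase i, F 0 ((1 : Equiv.Perm κ) j) j) •
      F' ((1 : Equiv.Perm κ) i) i) = F'.trace := by
    rw [Matrix.trace]
    refine Finset.sum_congr rfl fun i _ => ?_
    rw [Finset.prod_eq_one, one_smul]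
    · rfl
    · intro j _
      rw [h0]
      exact Matrix.one_apply_eq j
  have h4 : HasDerivAt (fun s => ∑ σ : Equiv.Perm κ, Equiv.Perm.sign σ • ∏ i, F s (σ i) i)
      (∑ σ : Equiv.Perm κ, Equiv.Perm.sign σ •
        (∑ i, (∏ j ∈ Finset.univ.erase i, F 0 (σ j) j) • F' (σ i) i)) 0 := by
    refine HasDerivAt.fun_sum fun σ _ => ?_
    have h5 := (h1 σ).const_mul ((Equiv.Perm.sign σ : ℤ) : ℝ)
    refine (h5.congr_deriv ?_).congr_of_eventuallyEq (Eventually.of_forall fun s => ?_)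
    · rw [Units.smul_def, zsmul_eq_mul]
    · simp only [Units.smul_def, zsmul_eq_mul]
  have h5 : (∑ σ : Equiv.Perm κ, Equiv.Perm.sign σ •
        (∑ i, (∏ j ∈ Finset.univ.erase i, F 0 (σ j) j) • F' (σ i) i)) = F'.trace := by
    rw [Finset.sum_eq_single (1 : Equiv.Perm κ)]
    · rw [h3, Equiv.Perm.sign_one, one_smul]
    · intro σ _ hσ
      rw [h2 σ hσ, smul_zero]
    · intro h
      exact absurd (Finset.mem_univ _) h
  rw [h5] at h4
  refine h4.congr_of_eventuallyEq (Eventually.of_forall fun s => ?_)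
  simp only [Matrix.det_apply]

theorem hasDerivAt_det (F : ℝ → Matrix κ κ ℝ) (F' : Matrix κ κ ℝ) (h0 : (F 0).det ≠ 0)
    (hF : ∀ i j, HasDerivAt (fun s => F s i j) (F' i j) 0) :
    HasDerivAt (fun s => (F s).det) ((F 0).det * ((F 0)⁻¹ * F').trace) 0 := by
  have hu : IsUnit (F 0).det := isUnit_iff_ne_zero.mpr h0
  have h1 : ∀ s, (F s).det = (F 0).det * ((F 0)⁻¹ * F s).det := by
    intro s
    rw [← Matrix.det_mul, ← Matrix.mul_assoc, Matrix.mul_nonsing_inv _ hu, Matrix.one_mul]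
  have h2 : HasDerivAt (fun s => ((F 0)⁻¹ * F s).det) ((F 0)⁻¹ * F').trace 0 := by
    refine hasDerivAt_det_one _ _ (Matrix.nonsing_inv_mul _ hu) fun i j => ?_
    simp only [Matrix.mul_apply]
    exact HasDerivAt.fun_sum fun k _ => (hF k j).const_mul _
  refine (h2.const_mul ((F 0).det)).congr_of_eventuallyEq (Eventually.of_forall fun s => ?_)
  exact h1 s

omit [Fintype κ] in
theorem continuous_one_add_smul (C : Matrix κ κ ℝ) : Continuous fun s : ℝ => 1 + s • C := by
  fun_prop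

theorem eventually_isUnit (C : Matrix κ κ ℝ) : ∀ᶠ s : ℝ in 𝓝 0, IsUnit (1 + s • C).det := by
  have h1 : Continuous fun s : ℝ => (1 + s • C).det := (continuous_one_add_smul C).matrix_det
  have h2 : (fun s : ℝ => (1 + s • C).det) 0 ≠ 0 := by simp
  have h3 := h1.continuousAt.eventually_ne h2
  filter_upwards [h3] with s hs
  exact isUnit_iff_ne_zero.mpr hs

theorem tendsto_inv_one_add (C : Matrix κ κ ℝ) :
    Tendsto (fun s : ℝ => (1 + s • C)⁻¹) (𝓝 0) (𝓝 1) := by
  have h1 : Continuous fun s : ℝ => (1 + s • C).det := (continuous_one_add_smul C).matrix_det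
  have h2 : Continuous fun s : ℝ => (1 + s • C).adjugate :=
    (continuous_one_add_smul C).matrix_adjugate
  have h3 : Tendsto (fun s : ℝ => ((1 + s • C).det)⁻¹ • (1 + s • C).adjugate) (𝓝 0)
      (𝓝 (((1 + (0 : ℝ) • C).det)⁻¹ • (1 + (0 : ℝ) • C).adjugate)) := by
    refine Tendsto.smul ?_ (h2.tendsto 0)
    refine (h1.tendsto 0).inv₀ ?_
    simp
  have h4 : (((1 + (0 : ℝ) • C).det)⁻¹ • (1 + (0 : ℝ) • C).adjugate) = 1 := by simp
  rw [h4] at h3
  refine h3.congr fun s => ?_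
  rw [Matrix.inv_def, Ring.inverse_eq_inv']

theorem hasDerivAt_inv_one_add (C : Matrix κ κ ℝ) (i j : κ) :
    HasDerivAt (fun s : ℝ => (1 + s • C)⁻¹ i j) (-C i j) 0 := by
  rw [hasDerivAt_iff_tendsto_slope]
  have h1 : Tendsto (fun s : ℝ => -(C * (1 + s • C)⁻¹) i j) (𝓝[≠] 0) (𝓝 (-C i j)) := by
    have h2 : Tendsto (fun s : ℝ => C * (1 + s • C)⁻¹) (𝓝 0) (𝓝 (C * 1)) :=
      (Continuous.tendsto (continuous_const.matrix_mul continuous_id) 1).comp
        (tendsto_inv_one_add C)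
    rw [mul_one] at h2
    have h3 : Tendsto (fun s : ℝ => (C * (1 + s • C)⁻¹) i j) (𝓝 0) (𝓝 (C i j)) :=
      ((continuous_apply_apply i j).tendsto C).comp h2
    exact (h3.neg).mono_left nhdsWithin_le_nhds
  refine h1.congr' ?_
  have h4 : ∀ᶠ s : ℝ in 𝓝[≠] 0, IsUnit (1 + s • C).det :=
    (eventually_isUnit C).filter_mono nhdsWithin_le_nhds
  filter_upwards [h4, self_mem_nhdsWithin] with s hs hs0
  have hs0' : s ≠ 0 := hs0
  have h5 : (1 + s • C)⁻¹ = 1 - s • (C * (1 + s • C)⁻¹) := by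
    have h6 : (1 + s • C) * (1 + s • C)⁻¹ = 1 := Matrix.mul_nonsing_inv _ hs
    rw [add_mul, one_mul, smul_mul_assoc] at h6
    exact eq_sub_of_add_eq h6
  rw [slope_def_field]
  simp only [zero_smul, add_zero, inv_one, sub_zero]
  rw [eq_div_iff hs0']
  conv_rhs => rw [h5]
  rw [Matrix.sub_apply, Matrix.smul_apply, smul_eq_mul]
  ring

omit [Fintype κ] in
theorem hasDerivAt_one_add (C : Matrix κ κ ℝ) (i j : κ) :
    HasDerivAt (fun s : ℝ => (1 + s • C) i j) (C i j) 0 := by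
  simp only [Matrix.add_apply, Matrix.smul_apply, smul_eq_mul]
  have := ((hasDerivAt_id (0 : ℝ)).mul_const (C i j)).const_add ((1 : Matrix κ κ ℝ) i j)
  simpa using this

end det

section act

variable {ι : Type*} [Fintype ι]

/-- The action of a change of basis with matrix `P`, inverse `Q`. -/
def act (P Q : Matrix ι ι ℝ) (c : SC ι) : SC ι := opO Q (opL P (opR P c))

theorem act_apply (P Q : Matrix ι ι ℝ) (c : SC ι) (i j k : ι) :
    act P Q c i j k = ∑ l, Q k l * ∑ q, P q i * ∑ r, P r j * c q r l := rfl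

theorem act_one [DecidableEq ι] (c : SC ι) : act 1 1 c = c := by
  funext i j k
  rw [act_apply]
  simp [Matrix.one_apply]

theorem act_mem_closure (P Q : Matrix ι ι ℝ) (S : Set (SC ι)) (hS : ∀ c ∈ S, act P Q c ∈ S)
    (c : SC ι) (hc : c ∈ closure S) : act P Q c ∈ closure S := by
  have h1 : Continuous (act P Q) := by
    have : act P Q = (opO Q ∘ₗ opL P ∘ₗ opR P : SC ι →ₗ[ℝ] SC ι) := rfl
    rw [this]
    exact LinearMap.continuous_of_finiteDimensional _
  exact map_mem_closure h1 hc hS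

theorem hasDerivAt_act [DecidableEq ι] (P Q : ℝ → Matrix ι ι ℝ) (U : Matrix ι ι ℝ)
    (hP0 : P 0 = 1) (hQ0 : Q 0 = 1)
    (hP : ∀ i j, HasDerivAt (fun s => P s i j) (U i j) 0)
    (hQ : ∀ i j, HasDerivAt (fun s => Q s i j) (-U i j) 0) (c : SC ι) (i j k : ι) :
    HasDerivAt (fun s => act (P s) (Q s) c i j k) (-piU U c i j k) 0 := by
  simp only [act_apply]
  have h1 : ∀ q l, HasDerivAt (fun s => ∑ r, P s r j * c q r l) (∑ r, U r j * c q r l) 0 :=
    fun q l => HasDerivAt.fun_sum fun r _ => (hP r j).mul_const _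
  have h2 : ∀ l, HasDerivAt (fun s => ∑ q, P s q i * ∑ r, P s r j * c q r l)
      (∑ q, (U q i * ∑ r, P 0 r j * c q r l + P 0 q i * ∑ r, U r j * c q r l)) 0 :=
    fun l => HasDerivAt.fun_sum fun q _ => (hP q i).mul (h1 q l)
  have h3 := HasDerivAt.fun_sum (u := Finset.univ) fun l (_ : l ∈ Finset.univ) =>
    (hQ k l).mul (h2 l)
  refine h3.congr_deriv ?_
  rw [hP0, hQ0, piU_apply]
  simp only [Matrix.one_apply, ite_mul, one_mul, zero_mul, Finset.sum_ite_eq',
    Finset.sum_ite_eq, Finset.mem_univ, if_true, Finset.sum_add_distrib]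
  simp only [neg_mul]
  simp only [Finset.sum_neg_distrib]
  ring

end act

end Pool.Agent.Lib.P6ec3b3
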