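import Pool.Agent.Lib.P6ec3b3.Coord

/-!
# The Ricci tensor of a left-invariant metric in an orthonormal basis
-/

open Module

namespace Pool.Agent.Lib.P6ec3b3

attribute [local instance 100] LieRing.ofAssociativeRing

variable {g : Type*} [LieRing g] [LieAlgebra ℝ g]
variable {ι : Type*} [Fintype ι]

/-- The Ricci tensor as a bilinear form. -/
noncomputable def ricciBil (D : g →ₗ[ℝ] g →ₗ[ℝ] g) : g →ₗ[ℝ] g →ₗ[ℝ] ℝ :=
  LinearMap.mk₂ ℝ (ricci D)
    (by
      intro x x' y
      unfold ricci
      rw [← map_add]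
      congr 1
      ext z
      simp only [curvatureMap, curvature, map_add, LinearMap.add_apply, lie_add, LinearMap.coe_mk,
        AddHom.coe_mk]
      abel)
    (by
      intro r x y
      unfold ricci
      rw [← map_smul]
      congr 1
      ext z
      simp only [curvatureMap, curvature, map_smul, LinearMap.smul_apply, lie_smul,
        LinearMap.coe_mk, AddHom.coe_mk, smul_sub])
    (by
      intro x y y'
      unfold ricci
      rw [← map_add]
      congr 1
      ext z
      simp only [curvatureMap, curvature, map_add, LinearMap.add_apply, LinearMap.coe_mk,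
        AddHom.coe_mk]
      abel)
    (by
      intro r x y
      unfold ricci
      rw [← map_smul]
      congr 1
      ext z
      simp only [curvatureMap, curvature, map_smul, LinearMap.smul_apply,
        LinearMap.coe_mk, AddHom.coe_mk, smul_sub])

theorem ricciBil_apply (D : g →ₗ[ℝ] g →ₗ[ℝ] g) (x y : g) : ricciBil D x y = ricci D x y := rfl

theorem bil_sum (E : Basis ι ℝ g) (b : g →ₗ[ℝ] g →ₗ[ℝ] ℝ) (x y : g) :
    b x y = ∑ j, ∑ k, b (E j) (E k) * E.repr x j * E.repr y k := by
  conv_lhs => rw [← E.sum_repr x, ← E.sum_repr y]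
  rw [map_sum b, LinearMap.sum_apply]
  refine Finset.sum_congr rfl fun j _ => ?_
  rw [map_smul, LinearMap.smul_apply, map_sum, Finset.smul_sum]
  refine Finset.sum_congr rfl fun k _ => ?_
  rw [map_smul, smul_eq_mul, smul_eq_mul]
  ring

/-- The connection coefficients determine the Ricci tensor. -/
theorem ricci_eq_of_gam (E : Basis ι ℝ g) (D : g →ₗ[ℝ] g →ₗ[ℝ] g)
    (hD : ∀ i j, D (E i) (E j) = ∑ k, Gam (sc E) i j k • E k) (j k : ι) :
    ricci D (E j) (E k) = ricM (sc E) j k := by
  classical
  have hrep : ∀ i j k, E.repr (D (E i) (E j)) k = Gam (sc E) i j k := by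
    intro i j k
    rw [hD, map_sum, Finsupp.finsetSum_apply]
    simp [Finsupp.single_apply]
  have hrep2 : ∀ i (y : g) k, E.repr (D (E i) y) k = ∑ l, E.repr y l * Gam (sc E) i l k := by
    intro i y k
    conv_lhs => rw [← E.sum_repr y]
    rw [map_sum, map_sum, Finsupp.finsetSum_apply]
    refine Finset.sum_congr rfl fun l _ => ?_
    rw [map_smul, map_smul, Finsupp.smul_apply, smul_eq_mul, hrep]
  have hrep3 : ∀ (x : g) j k, E.repr (D x (E j)) k = ∑ l, E.repr x l * Gam (sc E) l j k := by
    intro x j k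
    conv_lhs => rw [← E.sum_repr x]
    rw [map_sum, LinearMap.sum_apply, map_sum, Finsupp.finsetSum_apply]
    refine Finset.sum_congr rfl fun l _ => ?_
    rw [map_smul, LinearMap.smul_apply, map_smul, Finsupp.smul_apply, smul_eq_mul, hrep]
  unfold ricci
  rw [trace_eq E]
  have h1 : ∀ i, E.repr (curvatureMap D (E j) (E k) (E i)) i =
      ∑ l, (Gam (sc E) j k l * Gam (sc E) i l i - Gam (sc E) i k l * Gam (sc E) j l i -
        sc E i j l * Gam (sc E) l k i) := by
    intro i
    simp only [curvatureMap, curvature, LinearMap.coe_mk, AddHom.coe_mk]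
    rw [map_sub, map_sub, Finsupp.sub_apply, Finsupp.sub_apply, hrep2, hrep2, hrep3,
      ← Finset.sum_sub_distrib, ← Finset.sum_sub_distrib]
    refine Finset.sum_congr rfl fun l _ => ?_
    rw [hrep, hrep]
    rfl
  simp only [h1]
  rw [ric_identity _ (sc_anti E), Hc_sc]
  ring

theorem gam_of_leviCivita [DecidableEq ι] (E : Basis ι ℝ g) (B : g →ₗ[ℝ] g →ₗ[ℝ] ℝ)
    (D : g →ₗ[ℝ] g →ₗ[ℝ] g) (hE : ∀ i j, B (E i) (E j) = if i = j then 1 else 0)
    (hLC : IsLeviCivita B D) (i j : ι) : D (E i) (E j) = ∑ k, Gam (sc E) i j k • E k := by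
  have hrep : ∀ x k, E.repr x k = B x (E k) := by
    intro x k
    conv_rhs => rw [← E.sum_repr x]
    rw [map_sum, LinearMap.sum_apply]
    simp [hE]
  rw [← E.sum_repr (D (E i) (E j))]
  refine Finset.sum_congr rfl fun k _ => ?_
  congr 1
  rw [hrep]
  have t1 : ∀ i j k, B (D (E i) (E j)) (E k) - B (D (E j) (E i)) (E k) = sc E i j k := by
    intro i j k
    have := congrArg (fun x => B x (E k)) (hLC.torsion_free (E i) (E j))
    simp only [map_sub, LinearMap.sub_apply] at this
    rw [this, sc, hrep]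
  have hsymm : ∀ x k, B (E k) x = B x (E k) := by
    intro x k
    rw [← hrep]
    conv_lhs => rw [← E.sum_repr x]
    rw [map_sum]
    simp [hE]
  have t2 : ∀ i j k, B (D (E i) (E j)) (E k) + B (D (E i) (E k)) (E j) = 0 := by
    intro i j k
    have := hLC.metric (E i) (E j) (E k)
    rwa [hsymm (D (E i) (E k)) j] at this
  unfold Gam
  have a1 := t1 i j k
  have a2 := t1 j k i
  have a3 := t1 k i j
  have b1 := t2 i j k
  have b2 := t2 j i k
  have b3 := t2 k i j
  linarith

/-- In an orthonormal basis, negative Ricci curvature is `NegR` of the structure constants. -/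
theorem negR_of_metric [DecidableEq ι] (E : Basis ι ℝ g) (B : g →ₗ[ℝ] g →ₗ[ℝ] ℝ)
    (D : g →ₗ[ℝ] g →ₗ[ℝ] g) (hE : ∀ i j, B (E i) (E j) = if i = j then 1 else 0)
    (hLC : IsLeviCivita B D) (hneg : ∀ x, x ≠ 0 → ricci D x x < 0) : NegR (sc E) := by
  intro v hv
  have hx : E.equivFun.symm v ≠ 0 := by
    intro h
    exact hv ((LinearEquiv.map_eq_zero_iff _).mp h)
  have h1 := hneg _ hx
  rw [← ricciBil_apply, bil_sum E] at h1
  refine lt_of_eq_of_lt ?_ h1
  refine Finset.sum_congr rfl fun j _ => Finset.sum_congr rfl fun k _ => ?_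
  rw [ricciBil_apply, ricci_eq_of_gam E D (gam_of_leviCivita E B D hE hLC)]
  have h2 : ∀ l, E.repr (E.equivFun.symm v) l = v l := by
    intro l
    have := congrFun (E.equivFun.apply_symm_apply v) l
    rwa [Basis.equivFun_apply] at this
  rw [h2, h2]

/-- The inner product making `E` orthonormal. -/
noncomputable def dotB (E : Basis ι ℝ g) : g →ₗ[ℝ] g →ₗ[ℝ] ℝ :=
  LinearMap.mk₂ ℝ (fun x y => ∑ i, E.repr x i * E.repr y i)
    (by intro x x' y; simp [add_mul, Finset.sum_add_distrib])
    (by intro r x y; simp [Finset.mul_sum, mul_assoc])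
    (by intro x y y'; simp [mul_add, Finset.sum_add_distrib])
    (by
      intro r x y
      simp only [map_smul, Finsupp.smul_apply, smul_eq_mul, Finset.mul_sum]
      refine Finset.sum_congr rfl fun i _ => ?_
      ring)

theorem dotB_apply (E : Basis ι ℝ g) (x y : g) :
    dotB E x y = ∑ i, E.repr x i * E.repr y i := rfl

theorem dotB_basis [DecidableEq ι] (E : Basis ι ℝ g) (i j : ι) :
    dotB E (E i) (E j) = if i = j then 1 else 0 := by
  rw [dotB_apply]
  simp [Finsupp.single_apply]

theorem hasNegRicci_of_basis (E : Basis ι ℝ g) (h : NegR (sc E)) : HasNegRicci g := by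
  classical
  have anti := sc_anti E
  let D : g →ₗ[ℝ] g →ₗ[ℝ] g :=
    E.constr ℝ (fun i => E.constr ℝ (fun j => ∑ k, Gam (sc E) i j k • E k))
  have hD : ∀ i j, D (E i) (E j) = ∑ k, Gam (sc E) i j k • E k := by
    intro i j
    simp only [D, Basis.constr_basis]
  have hB : ∀ i j, dotB E (E i) (E j) = if i = j then 1 else 0 := dotB_basis E
  have hBD : ∀ i j k, dotB E (D (E i) (E j)) (E k) = Gam (sc E) i j k := by
    intro i j k
    rw [hD, map_sum, LinearMap.sum_apply]
    simp [hB]
  have hsymm : ∀ x y, dotB E x y = dotB E y x := by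
    intro x y
    rw [dotB_apply, dotB_apply]
    refine Finset.sum_congr rfl fun i _ => ?_
    ring
  refine ⟨dotB E, D, hsymm, ?_, ⟨?_, ?_⟩, ?_⟩
  · intro x hx
    rw [dotB_apply]
    have h0 : ∀ i ∈ Finset.univ, 0 ≤ E.repr x i * E.repr x i := fun i _ => mul_self_nonneg _
    refine lt_of_le_of_ne (Finset.sum_nonneg h0) fun h1 => hx ?_
    have h2 := (Finset.sum_eq_zero_iff_of_nonneg h0).mp h1.symm
    apply E.repr.map_eq_zero_iff.mp
    ext i
    exact mul_self_eq_zero.mp (h2 i (Finset.mem_univ i))
  · intro x y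
    have h1 : D - D.flip = (LieAlgebra.ad ℝ g : g →ₗ[ℝ] Module.End ℝ g) := by
      refine E.ext fun i => E.ext fun j => ?_
      change D (E i) (E j) - D (E j) (E i) = ⁅E i, E j⁆
      rw [hD, hD, lie_eq_sum, ← Finset.sum_sub_distrib]
      refine Finset.sum_congr rfl fun k _ => ?_
      rw [← sub_smul]
      congr 1
      unfold Gam
      rw [anti j i k, anti i k j, anti k j i]
      ring
    exact congrArg (fun f => f x y) h1
  · intro x y z
    have h1 : ∀ y z : g, (dotB E).flip z ∘ₗ D.flip y + dotB E y ∘ₗ D.flip z = 0 := by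
      intro y z
      refine E.ext fun i => ?_
      have h2 : ∀ z : g, (dotB E).flip z ∘ₗ D (E i) + (dotB E).flip (D (E i) z) = 0 := by
        intro z
        refine E.ext fun j => ?_
        have h3 : (dotB E (D (E i) (E j)) + dotB E (E j) ∘ₗ D (E i)) = 0 := by
          refine E.ext fun k => ?_
          change dotB E (D (E i) (E j)) (E k) + dotB E (E j) (D (E i) (E k)) = 0
          rw [hsymm (E j), hBD, hBD]
          unfold Gam
          rw [anti i k j, anti j i k, anti k j i]
          ring
        exact congrArg (fun f => f z) h3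
      exact congrArg (fun f => f y) (h2 z)
    exact congrArg (fun f => f x) (h1 y z)
  · intro x hx
    rw [← ricciBil_apply, bil_sum E]
    have hv : (fun i => E.repr x i) ≠ 0 := by
      intro h0
      apply hx
      apply E.repr.map_eq_zero_iff.mp
      ext i
      exact congrFun h0 i
    refine lt_of_eq_of_lt ?_ (h _ hv)
    refine Finset.sum_congr rfl fun j _ => Finset.sum_congr rfl fun k _ => ?_
    rw [ricciBil_apply, ricci_eq_of_gam E D hD]

end Pool.Agent.Lib.P6ec3b3
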