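import Pool.Agent.Lib.P6ec3b3.Defs

/-!
# Orthonormal bases adapted to a subspace
-/

open Module

namespace Pool.Agent.Lib.P6ec3b3

theorem exists_adapted_aux (V : Type*) [NormedAddCommGroup V] [InnerProductSpace ℝ V]
    [FiniteDimensional ℝ V] (W : Submodule ℝ V) :
    ∃ (m p : ℕ) (E : Basis (Fin m ⊕ Fin p) ℝ V), finrank ℝ W = p ∧
      (∀ i j, inner ℝ (E i) (E j) = if i = j then (1 : ℝ) else 0) ∧
      ∀ x, x ∈ W ↔ ∀ a, E.repr x (Sum.inl a) = 0 := by
  have hc : IsCompl Wᗮ W := (Submodule.isCompl_orthogonal W).symm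
  let b1 := stdOrthonormalBasis ℝ Wᗮ
  let b2 := stdOrthonormalBasis ℝ W
  let E : Basis (Fin (finrank ℝ Wᗮ) ⊕ Fin (finrank ℝ W)) ℝ V :=
    (b1.toBasis.prod b2.toBasis).map (Submodule.prodEquivOfIsCompl Wᗮ W hc)
  have hl : ∀ a, E (Sum.inl a) = (b1 a : V) := by
    intro a
    simp [E, Submodule.coe_prodEquivOfIsCompl']
  have hr : ∀ b, E (Sum.inr b) = (b2 b : V) := by
    intro b
    simp [E, Submodule.coe_prodEquivOfIsCompl']
  refine ⟨_, _, E, rfl, ?_, ?_⟩
  · intro i j
    rcases i with a | b <;> rcases j with a' | b'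
    · rw [hl, hl, ← Submodule.coe_inner, b1.inner_eq_ite]
      simp
    · rw [hl, hr]
      simp only [reduceCtorEq, if_false]
      exact Submodule.inner_left_of_mem_orthogonal (b2 b').2 (b1 a).2
    · rw [hl, hr]
      simp only [reduceCtorEq, if_false]
      exact Submodule.inner_right_of_mem_orthogonal (b2 b).2 (b1 a').2
    · rw [hr, hr, ← Submodule.coe_inner, b2.inner_eq_ite]
      simp
  · intro x
    rw [← Submodule.prodEquivOfIsCompl_symm_apply_fst_eq_zero _ _ hc]
    have h1 : ∀ a, E.repr x (Sum.inl a) =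
        b1.toBasis.repr ((Submodule.prodEquivOfIsCompl Wᗮ W hc).symm x).1 a := by
      intro a
      simp only [E, Basis.map_repr, LinearEquiv.trans_apply, Basis.prod_repr_inl]
    constructor
    · intro h a
      rw [h1, h]
      simp
    · intro h
      apply b1.toBasis.repr.map_eq_zero_iff.mp
      ext a
      rw [← h1]
      exact h a

theorem exists_adapted (V : Type*) [AddCommGroup V] [Module ℝ V] [FiniteDimensional ℝ V]
    (B : V →ₗ[ℝ] V →ₗ[ℝ] ℝ) (hsymm : ∀ x y, B x y = B y x) (hpos : ∀ x, x ≠ 0 → 0 < B x x)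
    (W : Submodule ℝ V) :
    ∃ (m p : ℕ) (E : Basis (Fin m ⊕ Fin p) ℝ V), finrank ℝ W = p ∧
      (∀ i j, B (E i) (E j) = if i = j then (1 : ℝ) else 0) ∧
      ∀ x, x ∈ W ↔ ∀ a, E.repr x (Sum.inl a) = 0 := by
  let core : InnerProductSpace.Core ℝ V :=
    { inner := fun x y => B x y
      conj_inner_symm := fun x y => hsymm y x
      re_inner_nonneg := fun x => by
        by_cases hx : x = 0
        · rw [hx]; simp
        · exact (hpos x hx).le
      add_left := fun x y z => by simp
      smul_left := fun x y r => by simp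
      definite := fun x hx => by
        by_contra h
        exact (hpos x h).ne' hx }
  let : NormedAddCommGroup V := core.toNormedAddCommGroup
  let : InnerProductSpace ℝ V := InnerProductSpace.ofCore core.toCore
  exact exists_adapted_aux V W

end Pool.Agent.Lib.P6ec3b3
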