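import Pool.Agent.Lib.P6ec3b3.RankOne
import Pool.Agent.Lib.P6ec3b3.Ortho
import Pool.Agent.Lib.P6ec3b3.Metric

/-!
# First implication: negative Ricci curvature passes to a rank one subalgebra
-/

open Module Filter Topology Polynomial

namespace Pool.Agent.Lib.P6ec3b3

attribute [local instance 100] LieRing.ofAssociativeRing

variable {g : Type*} [LieRing g] [LieAlgebra ℝ g]

theorem sc_of_lie {κ : Type*} [Fintype κ] (E : Basis κ ℝ g) (d : SC κ)
    (h : ∀ i j, ⁅E i, E j⁆ = ∑ k, d i j k • E k) : sc E = d := by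
  classical
  funext i j k
  rw [sc, h, map_sum, Finsupp.finsetSum_apply]
  simp [Finsupp.single_apply]

variable {α β : Type*} [Fintype α] [Fintype β] [DecidableEq α] [DecidableEq β]

theorem adapted_chB {n : LieIdeal ℝ g} {A : α → g} {E : Basis (α ⊕ β) ℝ g} (h : Adapted n A E)
    (P Q : Matrix β β ℝ) (h1 : (emb P * emb Q : Matrix (α ⊕ β) (α ⊕ β) ℝ) = 1)
    (h2 : (emb Q * emb P : Matrix (α ⊕ β) (α ⊕ β) ℝ) = 1) :
    Adapted n A (chB E (emb P) (emb Q) h1 h2) where
  inl a := by
    rw [chB_apply, Fintype.sum_sum_type]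
    simp [emb, Matrix.one_apply, h.inl]
  mem x := by
    rw [h.mem]
    refine forall_congr' fun a => ?_
    rw [chB_repr, Fintype.sum_sum_type]
    simp [emb, Matrix.one_apply]

theorem invt_orb (n : LieIdeal ℝ g) (A : α → g) : Invt (Orb (β := β) n A) := by
  rintro P Q h1 h2 c ⟨E, hE, rfl⟩
  have e1 : (emb P * emb Q : Matrix (α ⊕ β) (α ⊕ β) ℝ) = 1 := by rw [emb_mul, h1, emb_one]
  have e2 : (emb Q * emb P : Matrix (α ⊕ β) (α ⊕ β) ℝ) = 1 := by rw [emb_mul, h2, emb_one]
  exact ⟨chB E (emb P) (emb Q) e1 e2, adapted_chB hE P Q e1 e2, sc_chB E _ _ e1 e2⟩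

omit [DecidableEq α] in
/-- The maximum principle: a maximiser of the determinant exists. -/
theorem exists_max {K : ℕ} {t : α → ℝ} {χ : α → ℝ[X]} (hχ : ∀ a, (χ a).Monic)
    (S : Set (SC (α ⊕ β))) (hS : ∀ c ∈ S, Good K t χ c)
    (c0 : SC (α ⊕ β)) (hc0 : c0 ∈ S) (hpos : ∀ v : β → ℝ, v ≠ 0 → qf (GM t c0) v < 0) :
    ∃ c, c ∈ closure S ∧ Good K t χ c ∧ (-GM t c).PosDef ∧
      ∀ d ∈ KK t S, (-GM t d).det ≤ (-GM t c).det := by
  have hcomp : IsCompact (KK t S) :=
    Metric.isCompact_of_isClosed_isBounded (isClosed_KK t S) (bounded_KK hχ S hS)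
  have hherm : ∀ c : SC (α ⊕ β), (-GM t c).IsHermitian := by
    intro c
    rw [Matrix.IsHermitian, Matrix.conjTranspose_eq_transpose_of_trivial]
    ext k l
    rw [Matrix.transpose_apply, Matrix.neg_apply, Matrix.neg_apply, GM_symm]
  have hneg : ∀ (c : SC (α ⊕ β)) (v : β → ℝ), qf (-GM t c) v = -qf (GM t c) v := by
    intro c v
    unfold qf
    simp only [Matrix.neg_apply, neg_mul, Finset.sum_neg_distrib]
  have hc0K : c0 ∈ KK t S := by
    refine ⟨subset_closure hc0, fun v => ?_⟩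
    by_cases hv : v = 0
    · rw [hv]
      unfold qf
      simp
    · exact (hpos v hv).le
  have hcont : ContinuousOn (fun c : SC (α ⊕ β) => (-GM t c).det) (KK t S) :=
    ((continuous_GM t).neg.matrix_det).continuousOn
  obtain ⟨c, hcK, hmax⟩ := hcomp.exists_isMaxOn ⟨c0, hc0K⟩ hcont
  have hc0pos : (-GM t c0).PosDef := by
    refine Matrix.PosDef.of_dotProduct_mulVec_pos (hherm c0) fun v hv => ?_
    rw [← qf_eq_dot, hneg]
    linarith [hpos v hv]
  have hdet : 0 < (-GM t c).det := lt_of_lt_of_le hc0pos.det_pos (hmax hc0K)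
  have hsemi : (-GM t c).PosSemidef := by
    refine Matrix.PosSemidef.of_dotProduct_mulVec_nonneg (hherm c) fun v => ?_
    rw [← qf_eq_dot, hneg]
    linarith [hcK.2 v]
  have hgood : Good K t χ c :=
    closure_minimal (t := {c | Good K t χ c}) hS (isClosed_good K t χ) hcK.1
  exact ⟨c, hcK.1, hgood, hsemi.posDef_iff_det_ne_zero.mpr hdet.ne', fun d hd => hmax hd⟩

omit [DecidableEq α] [DecidableEq β] in
/-- Openness of negative Ricci curvature. -/
theorem isOpen_negR {ι : Type*} [Fintype ι] : IsOpen {c : SC ι | NegR c} := by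
  have h1 : {c : SC ι | NegR c} = (fun c : SC ι => (-(fun j k => ricM c j k) : Matrix ι ι ℝ)) ⁻¹'
      {M : Matrix ι ι ℝ | ∀ v : ι → ℝ, v ≠ 0 → 0 < qf M v} := by
    ext c
    simp only [Set.mem_preimage, Set.mem_ofPred_eq, NegR]
    refine forall_congr' fun v => forall_congr' fun _ => ?_
    have : qf (-(fun j k => ricM c j k) : Matrix ι ι ℝ) v =
        -∑ j, ∑ k, ricM c j k * v j * v k := by
      unfold qf
      simp only [Pi.neg_apply, neg_mul, Finset.sum_neg_distrib]
    rw [this]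
    constructor
    · intro h; linarith
    · intro h; linarith
  rw [h1]
  refine isOpen_posQ.preimage ?_
  refine Continuous.neg ?_
  exact continuous_pi fun j => continuous_pi fun k => continuous_ricM j k

/-- The rank one subalgebra. -/
theorem hasNegRicci_rank_one (n : LieIdeal ℝ g) (hgn : ∀ x y : g, ⁅x, y⁆ ∈ n) (A : α → g)
    (E : Basis (α ⊕ β) ℝ g) (hE : Adapted n A E) (w : α → ℝ) (hw : w ≠ 0)
    (hneg : NegR (rk1 w (sc E))) :
    ∃ Y : g, Y ∉ n ∧ ∃ s : LieSubalgebra ℝ g,
      s.toSubmodule = Submodule.span ℝ {Y} ⊔ (LieSubmodule.toSubmodule n) ∧ HasNegRicci s := by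
  set Y : g := ∑ a, w a • E (Sum.inl a) with hY
  have hrepY : ∀ a, E.repr Y (Sum.inl a) = w a := by
    intro a
    rw [hY, map_sum, Finsupp.finsetSum_apply]
    simp [Finsupp.single_apply]
  have hYn : Y ∉ n := by
    intro h
    apply hw
    funext a
    rw [← hrepY a]
    exact (hE.mem Y).mp h a
  let s : LieSubalgebra ℝ g :=
    { (Submodule.span ℝ {Y} ⊔ (LieSubmodule.toSubmodule n)) with
      lie_mem' := by
        intro x y _ _
        exact Submodule.mem_sup_right (hgn x y) }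
  have hs : s.toSubmodule = Submodule.span ℝ {Y} ⊔ (LieSubmodule.toSubmodule n) := rfl
  refine ⟨Y, hYn, s, hs, ?_⟩
  have hYs : Y ∈ s := Submodule.mem_sup_left (Submodule.mem_span_singleton_self Y)
  have hns : ∀ x ∈ n, x ∈ s := fun x hx => Submodule.mem_sup_right hx
  let v : Unit ⊕ β → s := fun i => match i with
    | Sum.inl _ => ⟨Y, hYs⟩
    | Sum.inr b => ⟨E (Sum.inr b), hns _ (hE.inr_mem b)⟩
  have hvl : ((v (Sum.inl ()) : s) : g) = Y := rfl
  have hvr : ∀ b : β, ((v (Sum.inr b) : s) : g) = E (Sum.inr b) := fun b => rfl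
  have hli : LinearIndependent ℝ v := by
    rw [Fintype.linearIndependent_iff]
    intro x hx
    have h1 : x (Sum.inl ()) • Y + ∑ b, x (Sum.inr b) • E (Sum.inr b) = 0 := by
      have h2 := congrArg (fun y : s => (y : g)) hx
      simp only [Fintype.sum_sum_type, Fintype.sum_unique] at h2
      rw [show ((0 : s) : g) = 0 from rfl] at h2
      rw [← h2]
      push_cast
      rfl
    have h3 : x (Sum.inl ()) = 0 := by
      by_contra hne
      apply hw
      funext a
      have h4 := congrArg (fun y => E.repr y (Sum.inl a)) h1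
      simp only [map_add, map_smul, Finsupp.add_apply, Finsupp.smul_apply, smul_eq_mul, map_sum,
        Finsupp.finsetSum_apply, hrepY, Basis.repr_self, Finsupp.single_apply, map_zero,
        Finsupp.zero_apply] at h4
      simp only [reduceCtorEq, if_false, mul_zero, Finset.sum_const_zero, add_zero] at h4
      rcases mul_eq_zero.mp h4 with h5 | h5
      · exact absurd h5 hne
      · exact h5
    have h6 : ∀ b, x (Sum.inr b) = 0 := by
      intro b
      rw [h3, zero_smul, zero_add] at h1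
      have h4 := congrArg (fun y => E.repr y (Sum.inr b)) h1
      simp only [map_smul, Finsupp.smul_apply, smul_eq_mul, map_sum,
        Finsupp.finsetSum_apply, Basis.repr_self, Finsupp.single_apply, map_zero,
        Finsupp.zero_apply] at h4
      simpa using h4
    intro i
    rcases i with u | b
    · exact h3
    · exact h6 b
  have hspan : ⊤ ≤ Submodule.span ℝ (Set.range v) := by
    rintro ⟨y, hy⟩ -
    obtain ⟨y1, hy1, y2, hy2, rfl⟩ := Submodule.mem_sup.mp hy
    obtain ⟨r, rfl⟩ := Submodule.mem_span_singleton.mp hy1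
    have h1 : y2 = ∑ b, E.repr y2 (Sum.inr b) • E (Sum.inr b) := by
      conv_lhs => rw [← E.sum_repr y2, Fintype.sum_sum_type]
      have h2 := (hE.mem y2).mp hy2
      simp only [h2, zero_smul, Finset.sum_const_zero, zero_add]
    have h3 : (⟨r • Y + y2, hy⟩ : s) = r • v (Sum.inl ()) +
        ∑ b, E.repr y2 (Sum.inr b) • v (Sum.inr b) := by
      apply Subtype.ext
      push_cast
      rw [hvl]
      simp only [hvr]
      rw [← h1]
    rw [h3]
    refine Submodule.add_mem _ (Submodule.smul_mem _ _ (Submodule.subset_span ⟨Sum.inl (), rfl⟩))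
      (Submodule.sum_mem _ fun b _ => Submodule.smul_mem _ _
        (Submodule.subset_span ⟨Sum.inr b, rfl⟩))
  let E' : Basis (Unit ⊕ β) ℝ s := Basis.mk hli hspan
  have hE' : ∀ i, E' i = v i := fun i => Basis.mk_apply hli hspan i
  refine hasNegRicci_of_basis E' ?_
  have hout : ∀ i j a, sc E i j (Sum.inl a) = 0 := fun i j a => (hE.mem _).mp (hgn _ _) a
  have hlie : ∀ i j, ⁅E i, E j⁆ = ∑ b, sc E i j (Sum.inr b) • E (Sum.inr b) := by
    intro i j
    rw [lie_eq_sum E i j, Fintype.sum_sum_type]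
    simp only [hout, zero_smul, Finset.sum_const_zero, zero_add]
  have hsc : sc E' = rk1 w (sc E) := by
    refine sc_of_lie E' _ fun i j => ?_
    simp only [hE']
    apply Subtype.ext
    rw [Fintype.sum_sum_type]
    simp only [rk1_out, zero_smul, Finset.sum_const_zero, zero_add]
    have hcoe : ((∑ b, rk1 w (sc E) i j (Sum.inr b) • v (Sum.inr b) : s) : g) =
        ∑ b, rk1 w (sc E) i j (Sum.inr b) • E (Sum.inr b) := by
      push_cast
      rfl
    rw [hcoe, LieSubalgebra.coe_bracket]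
    rcases i with ⟨⟩ | i <;> rcases j with ⟨⟩ | j
    · rw [hvl, lie_self]
      simp only [rk1_f, zero_smul, Finset.sum_const_zero]
    · rw [hvl, hvr, hY, sum_lie]
      simp only [smul_lie, hlie, rk1, Finset.sum_smul, Finset.smul_sum, smul_smul]
      rw [Finset.sum_comm]
    · rw [hvl, hvr, hY, lie_sum]
      simp only [lie_smul, hlie, rk1, Finset.sum_smul, Finset.smul_sum, smul_smul]
      rw [Finset.sum_comm]
    · rw [hvr, hvr, hlie]
      rfl
  rw [hsc]
  exact hneg

omit [Fintype α] [Fintype β] [DecidableEq α] [DecidableEq β] in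
theorem dir1 [FiniteDimensional ℝ g] (n : LieIdeal ℝ g) (hgn : ∀ x y : g, ⁅x, y⁆ ∈ n)
    (hnil : ActsNil n) (hn0 : n ≠ ⊥) (h : HasNegRicci g) :
    ∃ Y : g, Y ∉ n ∧ ∃ s : LieSubalgebra ℝ g,
      s.toSubmodule = Submodule.span ℝ {Y} ⊔ (LieSubmodule.toSubmodule n) ∧ HasNegRicci s := by
  obtain ⟨B, D, hsymm, hpos, hLC, hneg⟩ := h
  obtain ⟨m, p, E, hp, hEo, hEn⟩ := exists_adapted g B hsymm hpos (LieSubmodule.toSubmodule n)
  have hNeg : NegR (sc E) := negR_of_metric E B D hEo hLC hneg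
  obtain ⟨K, hK⟩ := hnil
  set A : Fin m → g := fun a => E (Sum.inl a) with hA
  have hAd : Adapted n A E := ⟨fun a => rfl, hEn⟩
  have hppos : 0 < p := by
    rw [← hp]
    have : Nontrivial (LieSubmodule.toSubmodule n) := by
      rw [Submodule.nontrivial_iff_ne_bot]
      intro h0
      exact hn0 ((LieSubmodule.toSubmodule_inj _ _).mp (by rw [h0]; rfl))
    exact finrank_pos
  have : Nonempty (Fin p) := ⟨⟨0, hppos⟩⟩
  set t : Fin m → ℝ := fun a => LinearMap.trace ℝ g (LieAlgebra.ad ℝ g (A a)) with ht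
  set χ : Fin m → ℝ[X] := fun a => (LieAlgebra.ad ℝ g (A a) : g →ₗ[ℝ] g).charpoly with hχ
  set S : Set (SC (Fin m ⊕ Fin p)) := Orb n A with hS
  have hSgood : ∀ c ∈ S, Good K t χ c := by
    rintro c ⟨E', hE', rfl⟩
    exact good_of_adapted n hgn K hK A E' hE'
  have hc0 : sc E ∈ S := ⟨E, hAd, rfl⟩
  have hqf : ∀ v : Fin p → ℝ, v ≠ 0 → qf (GM t (sc E)) v < 0 := by
    intro v hv
    have hg := hSgood _ hc0
    have h1 := hNeg (Sum.elim (fun _ => 0) v) (by
      intro h0
      apply hv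
      funext b
      exact congrFun h0 (Sum.inr b))
    simp only [Fintype.sum_sum_type, Sum.elim_inl, Sum.elim_inr, mul_zero, zero_mul,
      Finset.sum_const_zero, zero_add] at h1
    unfold qf
    simp only [← ricM_eq_GM hg]
    exact h1
  obtain ⟨c, hcl, hgood, hcpos, hmax⟩ := exists_max (fun a => LinearMap.charpoly_monic _) S hSgood
    (sc E) hc0 hqf
  have hker := variation S (invt_orb n A) c hgood.anti hcl hcpos hmax
  have hM : MaxData t c (-GM t c)⁻¹ := ⟨hcpos, rfl, hker⟩
  have htne := hM.t_ne hgood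
  have hsq : 0 < ∑ a, t a ^ 2 := by
    have h0 : 0 ≤ ∑ a, t a ^ 2 := Finset.sum_nonneg fun a _ => sq_nonneg _
    refine lt_of_le_of_ne h0 fun h1 => htne ?_
    funext a
    have h2 := (Finset.sum_eq_zero_iff_of_nonneg fun a _ => sq_nonneg (t a)).mp h1.symm a
      (Finset.mem_univ a)
    exact pow_eq_zero_iff (two_ne_zero) |>.mp h2
  set τ : ℝ := Real.sqrt (∑ a, t a ^ 2) with hτ
  have hτpos : 0 < τ := Real.sqrt_pos.mpr hsq
  have hττ : τ * τ = ∑ a, t a ^ 2 := Real.mul_self_sqrt hsq.le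
  set w : Fin m → ℝ := fun a => τ⁻¹ * t a with hw
  have hwt : ∀ a, t a = τ * w a := by
    intro a
    simp only [hw]
    rw [← mul_assoc, mul_inv_cancel₀ hτpos.ne', one_mul]
  have hww : ∑ a, w a * t a = τ := by
    simp only [hw, mul_assoc, ← Finset.mul_sum, ← sq]
    rw [← hττ, ← mul_assoc, inv_mul_cancel₀ hτpos.ne', one_mul]
  have hw0 : w ≠ 0 := by
    intro h0
    rw [h0] at hww
    simp only [Pi.zero_apply, zero_mul, Finset.sum_const_zero] at hww
    exact hτpos.ne hww
  have hR := hM.negR_rk1 hgood w τ hτpos hwt hww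
  have hopen : IsOpen {c : SC (Fin m ⊕ Fin p) | NegR (rk1 w c)} :=
    isOpen_negR.preimage (continuous_rk1 w)
  obtain ⟨c', hc'1, hc'2⟩ := mem_closure_iff.mp hcl _ hopen hR
  obtain ⟨E', hE', rfl⟩ := hc'2
  exact hasNegRicci_rank_one n hgn A E' hE' w hw0 hc'1

end Pool.Agent.Lib.P6ec3b3
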