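import Pool.Agent.Lib.P6ec3b3.GoodFrame

/-!
# Second implication: extending negative Ricci curvature to the whole algebra
-/

open Module Filter Topology

namespace Pool.Agent.Lib.P6ec3b3

attribute [local instance 100] LieRing.ofAssociativeRing

section arrays

variable {ι : Type*} [Fintype ι]

/-- The Ricci curvature as a sum of squares. -/
theorem ricQ_expand (c : SC ι) (anti : ∀ i j k, c i j k = -c j i k) (w : ι → ℝ)
    (A : ι → ι → ℝ) (hA : ∀ i q, A i q = ∑ j, w j * c j i q) :
    ∑ j, ∑ k, ricM c j k * w j * w k = -(1 / 2) * ∑ i, ∑ q, A i q * A i q -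
      (1 / 2) * ∑ i, ∑ q, A i q * A q i + (1 / 4) * ∑ i, ∑ j, (∑ k, c i j k * w k) ^ 2 +
      ∑ h, Hc c h * ∑ k, A h k * w k := by
  have q1 : ∑ k, ∑ l, (∑ i, ∑ q, c k i q * c l i q) * w k * w l = ∑ i, ∑ q, A i q * A i q := by
    have h1 : ∀ i q, A i q * A i q = ∑ k, ∑ l, c k i q * c l i q * w k * w l := by
      intro i q
      rw [hA, Finset.sum_mul_sum]
      exact Finset.sum_congr rfl fun k _ => Finset.sum_congr rfl fun l _ => by ring
    have s1 : ∀ k, ∑ l, (∑ i, ∑ q, c k i q * c l i q) * w k * w l =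
        ∑ i, ∑ q, ∑ l, c k i q * c l i q * w k * w l := by
      intro k
      simp only [Finset.sum_mul]
      rw [Finset.sum_comm]
      refine Finset.sum_congr rfl fun i _ => Finset.sum_comm
    rw [Finset.sum_congr rfl fun k _ => s1 k, Finset.sum_comm]
    refine Finset.sum_congr rfl fun i _ => ?_
    rw [Finset.sum_comm]
    exact Finset.sum_congr rfl fun j _ => (h1 i j).symm
  have q2 : ∑ k, ∑ l, killM c k l * w k * w l = ∑ i, ∑ q, A i q * A q i := by
    have h1 : ∀ i q, A i q * A q i = ∑ k, ∑ l, c k i q * c l q i * w k * w l := by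
      intro i q
      rw [hA, hA, Finset.sum_mul_sum]
      exact Finset.sum_congr rfl fun k _ => Finset.sum_congr rfl fun l _ => by ring
    have s1 : ∀ k, ∑ l, killM c k l * w k * w l =
        ∑ i, ∑ q, ∑ l, c k i q * c l q i * w k * w l := by
      intro k
      unfold killM
      simp only [Finset.sum_mul]
      rw [Finset.sum_comm]
      refine Finset.sum_congr rfl fun i _ => Finset.sum_comm
    rw [Finset.sum_congr rfl fun k _ => s1 k, Finset.sum_comm]
    refine Finset.sum_congr rfl fun i _ => ?_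
    rw [Finset.sum_comm]
    exact Finset.sum_congr rfl fun j _ => (h1 i j).symm
  have q3 : ∑ k, ∑ l, (∑ i, ∑ j, c i j k * c i j l) * w k * w l =
      ∑ i, ∑ j, (∑ k, c i j k * w k) ^ 2 := by
    have h1 : ∀ i j, (∑ k, c i j k * w k) ^ 2 = ∑ k, ∑ l, c i j k * c i j l * w k * w l := by
      intro i j
      rw [sq, Finset.sum_mul_sum]
      exact Finset.sum_congr rfl fun i _ => Finset.sum_congr rfl fun q _ => by ring
    have s1 : ∀ k, ∑ l, (∑ i, ∑ j, c i j k * c i j l) * w k * w l =
        ∑ i, ∑ j, ∑ l, c i j k * c i j l * w k * w l := by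
      intro k
      simp only [Finset.sum_mul]
      rw [Finset.sum_comm]
      refine Finset.sum_congr rfl fun i _ => Finset.sum_comm
    rw [Finset.sum_congr rfl fun k _ => s1 k, Finset.sum_comm]
    refine Finset.sum_congr rfl fun i _ => ?_
    rw [Finset.sum_comm]
    exact Finset.sum_congr rfl fun j _ => (h1 i j).symm
  have q4 : ∑ k, ∑ l, (∑ h, Hc c h * (c h k l + c h l k)) * w k * w l =
      -2 * ∑ h, Hc c h * ∑ k, A h k * w k := by
    have h1 : ∀ k l, (∑ h, Hc c h * (c h k l + c h l k)) * w k * w l =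
        ∑ h, (Hc c h * (w k * c h k l * w l) + Hc c h * (w l * c h l k * w k)) := by
      intro k l
      simp only [Finset.sum_mul]
      exact Finset.sum_congr rfl fun i _ => by ring
    simp only [h1]
    have h2 : ∀ k, ∑ l, ∑ h, (Hc c h * (w k * c h k l * w l) +
        Hc c h * (w l * c h l k * w k)) =
        ∑ h, ∑ l, (Hc c h * (w k * c h k l * w l) + Hc c h * (w l * c h l k * w k)) :=
      fun k => Finset.sum_comm
    simp only [h2]
    rw [Finset.sum_comm, Finset.mul_sum]
    refine Finset.sum_congr rfl fun h _ => ?_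
    simp only [Finset.sum_add_distrib]
    have h5 : ∑ k, A h k * w k = -∑ k, ∑ l, w l * c h l k * w k := by
      rw [← Finset.sum_neg_distrib]
      refine Finset.sum_congr rfl fun k _ => ?_
      rw [hA, Finset.sum_mul, ← Finset.sum_neg_distrib]
      refine Finset.sum_congr rfl fun l _ => ?_
      rw [anti l h k]
      ring
    have h3 : ∑ k, ∑ l, Hc c h * (w l * c h l k * w k) = -(Hc c h * ∑ k, A h k * w k) := by
      rw [h5, mul_neg, neg_neg, Finset.mul_sum]
      refine Finset.sum_congr rfl fun k _ => ?_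
      rw [Finset.mul_sum]
    have h4 : ∑ k, ∑ l, Hc c h * (w k * c h k l * w l) = -(Hc c h * ∑ k, A h k * w k) := by
      rw [Finset.sum_comm, h3]
    rw [h3, h4]
    ring
  have e1 : ∑ j, ∑ k, ricM c j k * w j * w k =
      -(1 / 2) * (∑ k, ∑ l, (∑ i, ∑ q, c k i q * c l i q) * w k * w l) +
      (1 / 4) * (∑ k, ∑ l, (∑ i, ∑ j, c i j k * c i j l) * w k * w l) -
      (1 / 2) * (∑ k, ∑ l, killM c k l * w k * w l) -
      (1 / 2) * (∑ k, ∑ l, (∑ h, Hc c h * (c h k l + c h l k)) * w k * w l) := by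
    rw [Finset.mul_sum, Finset.mul_sum, Finset.mul_sum, Finset.mul_sum, ← Finset.sum_add_distrib,
      ← Finset.sum_sub_distrib, ← Finset.sum_sub_distrib]
    refine Finset.sum_congr rfl fun k _ => ?_
    rw [Finset.mul_sum, Finset.mul_sum, Finset.mul_sum, Finset.mul_sum, ← Finset.sum_add_distrib,
      ← Finset.sum_sub_distrib, ← Finset.sum_sub_distrib]
    refine Finset.sum_congr rfl fun l _ => ?_
    rw [ricM, mM]
    ring
  rw [e1, q1, q2, q3, q4]
  ring

/-- The weighted Ricci tensor: `ω` is the square of the scaling factor. -/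
noncomputable def rr (ω : ι → ℝ) (c : SC ι) (j k : ι) : ℝ :=
  -(1 / 2) * ∑ i, ω i * ∑ q, c j i q * c k i q +
    (1 / 4) * ∑ i, ∑ l, ω i * ω l * (c i l j * c i l k) -
    (1 / 2) * killM c j k - (1 / 2) * ∑ h, ω h * (Hc c h * (c h j k + c h k j))

theorem rr_symm (ω : ι → ℝ) (c : SC ι) (j k : ι) : rr ω c j k = rr ω c k j := by
  unfold rr
  rw [killM_symm]
  simp only [mul_comm (c j _ _), mul_comm (c _ _ j), add_comm (c _ j k)]

theorem ricM_scaled (δ : ι → ℝ) (c : SC ι) (hc : ∀ i j k, δ k * c i j k = c i j k) (j k : ι) :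
    ricM (fun i j k => δ i * δ j * c i j k) j k = δ j * δ k * rr (fun i => δ i ^ 2) c j k := by
  have h1 : ∑ i, ∑ q, δ j * δ i * c j i q * (δ k * δ i * c k i q) =
      δ j * δ k * ∑ i, δ i ^ 2 * ∑ q, c j i q * c k i q := by
    simp only [Finset.mul_sum]
    exact Finset.sum_congr rfl fun i _ => Finset.sum_congr rfl fun q _ => by ring
  have h2 : ∑ i, ∑ l, δ i * δ l * c i l j * (δ i * δ l * c i l k) =
      δ j * δ k * ∑ i, ∑ l, δ i ^ 2 * δ l ^ 2 * (c i l j * c i l k) := by
    simp only [Finset.mul_sum]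
    refine Finset.sum_congr rfl fun i _ => Finset.sum_congr rfl fun l _ => ?_
    conv_lhs => rw [← hc i l j, ← hc i l k]
    ring
  have h3 : killM (fun i j k => δ i * δ j * c i j k) j k = δ j * δ k * killM c j k := by
    unfold killM
    simp only [Finset.mul_sum]
    refine Finset.sum_congr rfl fun i _ => Finset.sum_congr rfl fun q _ => ?_
    conv_rhs => rw [← hc j i q, ← hc k q i]
    ring
  have h4 : ∀ h, Hc (fun i j k => δ i * δ j * c i j k) h = δ h * Hc c h := by
    intro h
    unfold Hc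
    simp only [Finset.mul_sum]
    refine Finset.sum_congr rfl fun i _ => ?_
    conv_rhs => rw [← hc h i i]
    ring
  have h5 : ∑ h, δ h * Hc c h * (δ h * δ j * c h j k + δ h * δ k * c h k j) =
      δ j * δ k * ∑ h, δ h ^ 2 * (Hc c h * (c h j k + c h k j)) := by
    simp only [Finset.mul_sum]
    refine Finset.sum_congr rfl fun h _ => ?_
    conv_lhs => rw [← hc h j k, ← hc h k j]
    ring
  unfold ricM mM rr
  simp only [h1, h2, h3, h4, h5]
  ring

end arrays

section blocks

variable {σ κ : Type*} [Fintype σ] [Fintype κ]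

/-- The limiting weights. -/
def wt (ε : ℝ) : σ ⊕ κ → ℝ := Sum.elim (fun _ => 1) (fun _ => ε)

theorem continuous_rr_wt (c : SC (σ ⊕ κ)) (j k : σ ⊕ κ) :
    Continuous fun ε : ℝ => rr (fun i => wt ε i ^ 2) c j k := by
  have h1 : ∀ i : σ ⊕ κ, Continuous fun ε : ℝ => wt ε i ^ 2 := by
    intro i
    rcases i with i | i
    · simp only [wt, Sum.elim_inl]; fun_prop
    · simp only [wt, Sum.elim_inr]; fun_prop
  unfold rr
  fun_prop

/-- If the limiting tensor is negative definite then `g` has a metric of negative Ricci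
curvature. -/
theorem hasNegRicci_of_limit {g : Type*} [LieRing g] [LieAlgebra ℝ g] [DecidableEq σ]
    [DecidableEq κ] (E : Basis (σ ⊕ κ) ℝ g) (hout : ∀ i j a, sc E i j (Sum.inr a) = 0)
    (hneg : ∀ v : σ ⊕ κ → ℝ, v ≠ 0 →
      ∑ j, ∑ k, rr (fun i => wt 0 i ^ 2) (sc E) j k * v j * v k < 0) :
    HasNegRicci g := by
  have hev : ∀ᶠ ε in 𝓝 (0 : ℝ), ∀ v : σ ⊕ κ → ℝ, v ≠ 0 →
      0 < qf (-(fun j k => rr (fun i => wt ε i ^ 2) (sc E) j k) : Matrix (σ ⊕ κ) (σ ⊕ κ) ℝ) v := by
    have hc : Continuous fun ε : ℝ => (-(fun j k => rr (fun i => wt ε i ^ 2) (sc E) j k) :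
        Matrix (σ ⊕ κ) (σ ⊕ κ) ℝ) := by
      refine Continuous.neg ?_
      exact continuous_pi fun j => continuous_pi fun k => continuous_rr_wt _ j k
    refine hc.continuousAt.eventually (isOpen_posQ.mem_nhds ?_)
    intro v hv
    have h1 := hneg v hv
    unfold qf
    simp only [Pi.neg_apply, neg_mul, Finset.sum_neg_distrib]
    linarith
  have hev2 := (hev.filter_mono (nhdsWithin_le_nhds (s := Set.Ioi 0))).and self_mem_nhdsWithin
  obtain ⟨ε, hε, hε0⟩ := hev2.exists
  have hε1 : (0 : ℝ) < ε := hε0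
  set δ : σ ⊕ κ → ℝ := wt ε with hδ
  have hδ0 : ∀ i, δ i ≠ 0 := by
    intro i
    rcases i with i | i
    · simp [hδ, wt]
    · simpa [hδ, wt] using hε1.ne'
  have h1 : Matrix.diagonal δ * Matrix.diagonal (fun i => (δ i)⁻¹) = 1 := by
    rw [Matrix.diagonal_mul_diagonal, ← Matrix.diagonal_one]
    congr 1
    funext i
    exact mul_inv_cancel₀ (hδ0 i)
  have h2 : Matrix.diagonal (fun i => (δ i)⁻¹) * Matrix.diagonal δ = 1 := by
    rw [Matrix.diagonal_mul_diagonal, ← Matrix.diagonal_one]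
    congr 1
    funext i
    exact inv_mul_cancel₀ (hδ0 i)
  refine hasNegRicci_of_basis (chB E _ _ h1 h2) ?_
  have hA : ∀ i j k, δ k * sc E i j k = sc E i j k := by
    intro i j k
    rcases k with k | k
    · simp [hδ, wt]
    · rw [hout, mul_zero]
  have h3 : sc (chB E _ _ h1 h2) = fun i j k => δ i * δ j * sc E i j k := by
    rw [sc_chB]
    funext i j k
    rw [opO_apply]
    simp only [opL_apply, opR_apply, Matrix.diagonal_apply, ite_mul, zero_mul,
      Finset.sum_ite_eq, Finset.sum_ite_eq', Finset.mem_univ, if_true]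
    have h4 := hA i j k
    have h5 := hδ0 k
    rw [← h4]
    field_simp
    linear_combination (δ i * δ j) * (0 : ℝ) - (δ i * δ j) * h4
  rw [h3]
  intro v hv
  simp only [ricM_scaled δ (sc E) hA]
  have hv' : (fun i => δ i * v i) ≠ 0 := by
    intro h0
    apply hv
    funext i
    have h4 := congrFun h0 i
    rcases mul_eq_zero.mp h4 with h | h
    · exact absurd h (hδ0 i)
    · exact h
  have h4 := hε _ hv'
  unfold qf at h4
  simp only [Pi.neg_apply, neg_mul, Finset.sum_neg_distrib] at h4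
  have h5 : ∑ j, ∑ k, δ j * δ k * rr (fun i => δ i ^ 2) (sc E) j k * v j * v k =
      ∑ j, ∑ k, rr (fun i => δ i ^ 2) (sc E) j k * (δ j * v j) * (δ k * v k) :=
    Finset.sum_congr rfl fun j _ => Finset.sum_congr rfl fun k _ => by ring
  rw [h5]
  linarith

end blocks

variable {g : Type*} [LieRing g] [LieAlgebra ℝ g]
variable {σ : Type*} [Fintype σ]

/-- Matrix entries of the action of `g` on `s`. -/
noncomputable def aL (s : LieSubalgebra ℝ g) (h : ∀ x y : g, ⁅x, y⁆ ∈ s) (e : Basis σ ℝ s)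
    (i q : σ) : g →ₗ[ℝ] ℝ :=
  e.coord q ∘ₗ (adS s h).flip (e i)

omit [Fintype σ] in
theorem aL_apply (s : LieSubalgebra ℝ g) (h : ∀ x y : g, ⁅x, y⁆ ∈ s) (e : Basis σ ℝ s)
    (i q : σ) (W : g) : aL s h e i q W = e.repr (adS s h W (e i)) q := rfl

/-- The mixed part of the limiting Ricci tensor. -/
noncomputable def Fl (s : LieSubalgebra ℝ g) (h : ∀ x y : g, ⁅x, y⁆ ∈ s) (e : Basis σ ℝ s) :
    g →ₗ[ℝ] (σ → ℝ) :=
  LinearMap.pi fun k =>
    (-(1 / 2) : ℝ) • ∑ i, ∑ q, sc e k i q • aL s h e i q -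
    (1 / 2 : ℝ) • ∑ i, ∑ q, sc e k q i • aL s h e i q +
    (1 / 2 : ℝ) • ∑ l, Hc (sc e) l • aL s h e l k

theorem Fl_apply (s : LieSubalgebra ℝ g) (h : ∀ x y : g, ⁅x, y⁆ ∈ s) (e : Basis σ ℝ s)
    (W : g) (k : σ) : Fl s h e W k =
    -(1 / 2) * ∑ i, ∑ q, sc e k i q * aL s h e i q W -
    (1 / 2) * ∑ i, ∑ q, sc e k q i * aL s h e i q W +
    (1 / 2) * ∑ l, Hc (sc e) l * aL s h e l k W := by
  unfold Fl
  simp only [LinearMap.pi_apply, LinearMap.add_apply, LinearMap.sub_apply, LinearMap.smul_apply,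
    LinearMap.sum_apply, smul_eq_mul]

theorem aL_of_mem (s : LieSubalgebra ℝ g) (h : ∀ x y : g, ⁅x, y⁆ ∈ s) (e : Basis σ ℝ s)
    (i q : σ) (W : s) : aL s h e i q (W : g) = ∑ j, e.repr W j * sc e j i q := by
  rw [aL_apply]
  have h1 : adS s h (W : g) (e i) = ⁅W, e i⁆ := rfl
  rw [h1, ← lie_skew, map_neg, Finsupp.neg_apply, repr_lie_right, ← Finset.sum_neg_distrib]
  refine Finset.sum_congr rfl fun j _ => ?_
  rw [sc_anti e j i q]
  ring

/-- The form `F` is definite on `s`. -/
theorem Fl_neg (s : LieSubalgebra ℝ g) (h : ∀ x y : g, ⁅x, y⁆ ∈ s) (e : Basis σ ℝ s)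
    (hneg : NegR (sc e)) (W : s) (hW : W ≠ 0) : Fl s h e (W : g) ≠ 0 := by
  intro h0
  set w : σ → ℝ := fun i => e.repr W i with hw
  set A : σ → σ → ℝ := fun i q => ∑ j, w j * sc e j i q with hA
  have hw0 : w ≠ 0 := by
    intro h1
    apply hW
    apply e.repr.map_eq_zero_iff.mp
    ext i
    exact congrFun h1 i
  have h1 := hneg w hw0
  rw [ricQ_expand (sc e) (sc_anti e) w A (fun i q => rfl)] at h1
  have h2 : ∑ k, w k * Fl s h e (W : g) k = 0 := by
    rw [h0]
    simp
  have haL : ∀ i q, aL s h e i q (W : g) = A i q := fun i q => aL_of_mem s h e i q W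
  simp only [Fl_apply, haL] at h2
  have h3 : ∑ k, w k * (-(1 / 2) * ∑ i, ∑ q, sc e k i q * A i q -
      (1 / 2) * ∑ i, ∑ q, sc e k q i * A i q + (1 / 2) * ∑ l, Hc (sc e) l * A l k) =
      -(1 / 2) * ∑ i, ∑ q, A i q * A i q - (1 / 2) * ∑ i, ∑ q, A i q * A q i +
      (1 / 2) * ∑ l, Hc (sc e) l * ∑ k, A l k * w k := by
    have s1 : ∑ i, ∑ q, A i q * A i q = ∑ k, w k * ∑ i, ∑ q, sc e k i q * A i q := by
      have t1 : ∀ i q, A i q * A i q = ∑ k, w k * (sc e k i q * A i q) := by
        intro i q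
        conv_lhs => rw [show A i q * A i q = (∑ j, w j * sc e j i q) * A i q from rfl]
        rw [Finset.sum_mul]
        exact Finset.sum_congr rfl fun k _ => by ring
      simp only [t1]
      have t2 : ∀ i, ∑ q, ∑ k, w k * (sc e k i q * A i q) =
          ∑ k, ∑ q, w k * (sc e k i q * A i q) := fun i => Finset.sum_comm
      simp only [t2]
      rw [Finset.sum_comm]
      simp only [Finset.mul_sum]
    have s2 : ∑ i, ∑ q, A i q * A q i = ∑ k, w k * ∑ i, ∑ q, sc e k q i * A i q := by
      have t1 : ∀ i q, A i q * A q i = ∑ k, w k * (sc e k q i * A i q) := by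
        intro i q
        conv_lhs => rw [show A i q * A q i = A i q * (∑ j, w j * sc e j q i) from rfl]
        rw [Finset.mul_sum]
        exact Finset.sum_congr rfl fun k _ => by ring
      simp only [t1]
      have t2 : ∀ i, ∑ q, ∑ k, w k * (sc e k q i * A i q) =
          ∑ k, ∑ q, w k * (sc e k q i * A i q) := fun i => Finset.sum_comm
      simp only [t2]
      rw [Finset.sum_comm]
      simp only [Finset.mul_sum]
    have s3 : ∑ l, Hc (sc e) l * ∑ k, A l k * w k = ∑ k, w k * ∑ l, Hc (sc e) l * A l k := by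
      simp only [Finset.mul_sum]
      rw [Finset.sum_comm]
      exact Finset.sum_congr rfl fun k _ => Finset.sum_congr rfl fun l _ => by ring
    rw [s1, s2, s3, Finset.mul_sum, Finset.mul_sum, Finset.mul_sum, ← Finset.sum_sub_distrib,
      ← Finset.sum_add_distrib]
    exact Finset.sum_congr rfl fun k _ => by ring
  rw [h3] at h2
  have h4 : 0 ≤ ∑ i, ∑ q, (A i q + A q i) ^ 2 :=
    Finset.sum_nonneg fun i _ => Finset.sum_nonneg fun q _ => sq_nonneg _
  have h5 : ∑ i, ∑ q, (A i q + A q i) ^ 2 = 2 * ∑ i, ∑ q, A i q * A i q +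
      2 * ∑ i, ∑ q, A i q * A q i := by
    have e4 : ∑ i, ∑ q, A q i * A q i = ∑ i, ∑ q, A i q * A i q := Finset.sum_comm
    have e5 : ∀ i q, (A i q + A q i) ^ 2 = A i q * A i q + 2 * (A i q * A q i) +
        A q i * A q i := fun i q => by ring
    simp only [e5, Finset.sum_add_distrib, ← Finset.mul_sum, e4]
    ring
  have h6 : 0 ≤ ∑ i, ∑ j, (∑ k, sc e i j k * w k) ^ 2 :=
    Finset.sum_nonneg fun i _ => Finset.sum_nonneg fun j _ => sq_nonneg _
  linarith

theorem dir2_core [FiniteDimensional ℝ g] [DecidableEq σ] (s : LieSubalgebra ℝ g)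
    (h : ∀ x y : g, ⁅x, y⁆ ∈ s) (e : Basis σ ℝ s) (hneg : NegR (sc e)) (hkk : kk s h e = ⊥) :
    HasNegRicci g := by
  set N : Submodule ℝ g := LinearMap.ker (Fl s h e) with hN
  have hcompl : IsCompl s.toSubmodule N := by
    constructor
    · rw [Submodule.disjoint_def]
      intro x hxs hxN
      by_contra hx0
      exact Fl_neg s h e hneg ⟨x, hxs⟩ (fun h0 => hx0 (congrArg (fun y : s => (y : g)) h0)) hxN
    · rw [codisjoint_iff, eq_top_iff]
      intro x _
      have hinj : Function.Injective (Fl s h e ∘ₗ s.toSubmodule.subtype) := by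
        rw [← LinearMap.ker_eq_bot, LinearMap.ker_eq_bot']
        intro y hy
        by_contra hy0
        exact Fl_neg s h e hneg y hy0 hy
      have hfr : finrank ℝ s.toSubmodule = finrank ℝ (σ → ℝ) := by
        rw [finrank_fintype_fun_eq_card]
        exact finrank_eq_card_basis e
      have hsurj := (LinearMap.injective_iff_surjective_of_finrank_eq_finrank hfr).mp hinj
      obtain ⟨y, hy⟩ := hsurj (Fl s h e x)
      rw [Submodule.mem_sup]
      refine ⟨y, y.2, x - y, ?_, by abel⟩
      rw [hN, LinearMap.mem_ker, map_sub, sub_eq_zero]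
      exact hy.symm
  let y := finBasis ℝ N
  let e' : Basis (σ) ℝ s.toSubmodule := e
  let E : Basis (σ ⊕ Fin (finrank ℝ N)) ℝ g :=
    (e'.prod y).map (Submodule.prodEquivOfIsCompl s.toSubmodule N hcompl)
  have hEl : ∀ i, E (Sum.inl i) = (e i : g) := by
    intro i
    simp [E, e', Submodule.coe_prodEquivOfIsCompl']
  have hEr : ∀ a, E (Sum.inr a) = (y a : g) := by
    intro a
    simp [E, Submodule.coe_prodEquivOfIsCompl']
  have hrepl : ∀ (x : s) k, E.repr (x : g) (Sum.inl k) = e.repr x k := by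
    intro x k
    simp only [E, Basis.map_repr, LinearEquiv.trans_apply, Basis.prod_repr_inl]
    rw [show ((x : s) : g) = ((x : s.toSubmodule) : g) from rfl,
      Submodule.prodEquivOfIsCompl_symm_apply_left]
  have hrepr : ∀ (x : s) a, E.repr (x : g) (Sum.inr a) = 0 := by
    intro x a
    simp only [E, Basis.map_repr, LinearEquiv.trans_apply, Basis.prod_repr_inr]
    rw [show ((x : s) : g) = ((x : s.toSubmodule) : g) from rfl,
      Submodule.prodEquivOfIsCompl_symm_apply_left]
    simp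
  have hout : ∀ i j a, sc E i j (Sum.inr a) = 0 := fun i j a => hrepr ⟨⁅E i, E j⁆, h _ _⟩ a
  have hc1 : ∀ i j k, sc E (Sum.inl i) (Sum.inl j) (Sum.inl k) = sc e i j k := by
    intro i j k
    rw [sc, hEl, hEl]
    exact hrepl ⁅e i, e j⁆ k
  have hc2 : ∀ a i q, sc E (Sum.inr a) (Sum.inl i) (Sum.inl q) = aL s h e i q (y a : g) := by
    intro a i q
    rw [sc, hEr, hEl, aL_apply]
    exact hrepl (adS s h (y a) (e i)) q
  have hanti := sc_anti E
  refine hasNegRicci_of_limit E hout ?_
  have hH : ∀ i, Hc (sc E) (Sum.inl i) = Hc (sc e) i := by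
    intro i
    unfold Hc
    rw [Fintype.sum_sum_type]
    simp only [hout, Finset.sum_const_zero, add_zero, hc1]
  have hkill1 : ∀ j k, killM (sc E) (Sum.inl j) (Sum.inl k) = killM (sc e) j k := by
    intro j k
    unfold killM
    simp only [Fintype.sum_sum_type, hout, mul_zero, zero_mul, Finset.sum_const_zero, add_zero,
      hc1]
  have hkill2 : ∀ a k, killM (sc E) (Sum.inr a) (Sum.inl k) =
      ∑ i, ∑ q, sc e k q i * aL s h e i q (y a : g) := by
    intro a k
    unfold killM
    simp only [Fintype.sum_sum_type, hout, mul_zero, zero_mul, Finset.sum_const_zero, add_zero,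
      hc1, hc2]
    exact Finset.sum_congr rfl fun i _ => Finset.sum_congr rfl fun q _ =>
      mul_comm (aL s h e i q (y a : g)) (sc e k q i)
  have hkill3 : ∀ a b, killM (sc E) (Sum.inr a) (Sum.inr b) =
      ∑ i, ∑ q, aL s h e i q (y a : g) * aL s h e q i (y b : g) := by
    intro a b
    unfold killM
    simp only [Fintype.sum_sum_type, hout, mul_zero, zero_mul, Finset.sum_const_zero, add_zero,
      hc2]
  have hR1 : ∀ j k, rr (fun i => wt 0 i ^ 2) (sc E) (Sum.inl j) (Sum.inl k) =
      ricM (sc e) j k := by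
    intro j k
    unfold rr ricM mM
    simp only [Fintype.sum_sum_type, wt, Sum.elim_inl, Sum.elim_inr, one_pow, one_mul, hout,
      mul_zero, zero_mul, Finset.sum_const_zero, add_zero, ne_eq, OfNat.ofNat_ne_zero,
      not_false_eq_true, zero_pow, hc1, hkill1, hH, mul_one]
  have hR2 : ∀ a k, rr (fun i => wt 0 i ^ 2) (sc E) (Sum.inr a) (Sum.inl k) = 0 := by
    intro a k
    have h1 : Fl s h e (y a : g) = 0 := (y a).2
    have h2 := congrFun h1 k
    rw [Fl_apply, Pi.zero_apply] at h2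
    refine Eq.trans ?_ h2
    unfold rr
    have h3 : ∀ l, sc E (Sum.inl l) (Sum.inr a) (Sum.inl k) = -aL s h e l k (y a : g) := by
      intro l
      rw [hanti, hc2]
    simp only [Fintype.sum_sum_type, wt, Sum.elim_inl, Sum.elim_inr, one_pow, one_mul, hout,
      mul_zero, zero_mul, Finset.sum_const_zero, add_zero, ne_eq, OfNat.ofNat_ne_zero,
      not_false_eq_true, zero_pow, hc1, hc2, hkill2, hH, h3, mul_neg, Finset.sum_neg_distrib]
    have h4 : ∑ i, ∑ q, aL s h e i q (y a : g) * sc e k i q =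
        ∑ i, ∑ q, sc e k i q * aL s h e i q (y a : g) :=
      Finset.sum_congr rfl fun i _ => Finset.sum_congr rfl fun q _ => mul_comm _ _
    rw [h4]
    ring
  have hR3 : ∀ a b, rr (fun i => wt 0 i ^ 2) (sc E) (Sum.inr a) (Sum.inr b) =
      -(1 / 2) * ∑ i, ∑ q, aL s h e i q (y a : g) * aL s h e i q (y b : g) -
      (1 / 2) * ∑ i, ∑ q, aL s h e i q (y a : g) * aL s h e q i (y b : g) := by
    intro a b
    unfold rr
    simp only [Fintype.sum_sum_type, wt, Sum.elim_inl, Sum.elim_inr, one_pow, one_mul, hout,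
      mul_zero, zero_mul, Finset.sum_const_zero, add_zero, ne_eq, OfNat.ofNat_ne_zero,
      not_false_eq_true, zero_pow, hc2, hkill3, sub_zero]
  intro v hv
  rw [Fintype.sum_sum_type]
  simp only [Fintype.sum_sum_type, Finset.sum_add_distrib]
  have hR2' : ∀ k a, rr (fun i => wt 0 i ^ 2) (sc E) (Sum.inl k) (Sum.inr a) = 0 := by
    intro k a
    rw [rr_symm, hR2]
  simp only [hR1, hR2, hR2', hR3, zero_mul, Finset.sum_const_zero, add_zero, zero_add]
  -- the element of `N`
  set z : Fin (finrank ℝ N) → ℝ := fun a => v (Sum.inr a) with hz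
  set x : σ → ℝ := fun i => v (Sum.inl i) with hx
  set Z : g := ∑ a, z a • (y a : g) with hZ
  have haZ : ∀ i q, aL s h e i q Z = ∑ a, z a * aL s h e i q (y a : g) := by
    intro i q
    rw [hZ, map_sum]
    exact Finset.sum_congr rfl fun a _ => by rw [map_smul, smul_eq_mul]
  have hQ : ∑ a, ∑ b, (-(1 / 2) * ∑ i, ∑ q, aL s h e i q (y a : g) * aL s h e i q (y b : g) -
      (1 / 2) * ∑ i, ∑ q, aL s h e i q (y a : g) * aL s h e q i (y b : g)) * z a * z b =
      -(1 / 4) * ∑ i, ∑ q, (aL s h e i q Z + aL s h e q i Z) ^ 2 := by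
    have t0 : ∀ f : (σ) → (σ) → Fin (finrank ℝ N) → ℝ,
        ∀ f' : (σ) → (σ) → Fin (finrank ℝ N) → ℝ,
        ∑ a, ∑ b, (∑ i, ∑ q, f i q a * f' i q b) * z a * z b =
        ∑ i, ∑ q, (∑ a, z a * f i q a) * (∑ b, z b * f' i q b) := by
      intro f f'
      have s1 : ∀ a, ∑ b, (∑ i, ∑ q, f i q a * f' i q b) * z a * z b =
          ∑ i, ∑ q, ∑ b, z a * f i q a * (z b * f' i q b) := by
        intro a
        have s2 : ∀ b, (∑ i, ∑ q, f i q a * f' i q b) * z a * z b =
            ∑ i, ∑ q, z a * f i q a * (z b * f' i q b) := by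
          intro b
          simp only [Finset.sum_mul]
          exact Finset.sum_congr rfl fun i _ => Finset.sum_congr rfl fun q _ => by ring
        simp only [s2]
        rw [Finset.sum_comm]
        exact Finset.sum_congr rfl fun i _ => Finset.sum_comm
      simp only [s1]
      rw [Finset.sum_comm]
      refine Finset.sum_congr rfl fun i _ => ?_
      rw [Finset.sum_comm]
      refine Finset.sum_congr rfl fun q _ => ?_
      rw [Finset.sum_mul_sum]
    have t1 := t0 (fun i q a => aL s h e i q (y a : g)) (fun i q a => aL s h e i q (y a : g))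
    have t2 := t0 (fun i q a => aL s h e i q (y a : g)) (fun i q a => aL s h e q i (y a : g))
    simp only [← haZ] at t1 t2
    have t3 : ∑ i, ∑ q, (aL s h e i q Z + aL s h e q i Z) ^ 2 =
        2 * ∑ i, ∑ q, aL s h e i q Z * aL s h e i q Z +
        2 * ∑ i, ∑ q, aL s h e i q Z * aL s h e q i Z := by
      have e4 : ∑ i, ∑ q, aL s h e q i Z * aL s h e q i Z =
          ∑ i, ∑ q, aL s h e i q Z * aL s h e i q Z := Finset.sum_comm
      have e5 : ∀ i q, (aL s h e i q Z + aL s h e q i Z) ^ 2 =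
          aL s h e i q Z * aL s h e i q Z + 2 * (aL s h e i q Z * aL s h e q i Z) +
          aL s h e q i Z * aL s h e q i Z := fun i q => by ring
      simp only [e5, Finset.sum_add_distrib, ← Finset.mul_sum, e4]
      ring
    have t4 : ∑ a, ∑ b, (-(1 / 2) * ∑ i, ∑ q, aL s h e i q (y a : g) * aL s h e i q (y b : g) -
      (1 / 2) * ∑ i, ∑ q, aL s h e i q (y a : g) * aL s h e q i (y b : g)) * z a * z b =
      -(1 / 2) * (∑ a, ∑ b, (∑ i, ∑ q, aL s h e i q (y a : g) * aL s h e i q (y b : g)) *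
        z a * z b) - (1 / 2) * (∑ a, ∑ b,
        (∑ i, ∑ q, aL s h e i q (y a : g) * aL s h e q i (y b : g)) * z a * z b) := by
      rw [Finset.mul_sum, Finset.mul_sum, ← Finset.sum_sub_distrib]
      refine Finset.sum_congr rfl fun a _ => ?_
      rw [Finset.mul_sum, Finset.mul_sum, ← Finset.sum_sub_distrib]
      refine Finset.sum_congr rfl fun b _ => ?_
      ring
    rw [t4, t1, t2, t3]
    ring
  change ∑ j, ∑ k, ricM (sc e) j k * x j * x k +
    ∑ a, ∑ b, (-(1 / 2) * ∑ i, ∑ q, aL s h e i q (y a : g) * aL s h e i q (y b : g) -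
      (1 / 2) * ∑ i, ∑ q, aL s h e i q (y a : g) * aL s h e q i (y b : g)) * z a * z b < 0
  rw [hQ]
  have h4 : 0 ≤ ∑ i, ∑ q, (aL s h e i q Z + aL s h e q i Z) ^ 2 :=
    Finset.sum_nonneg fun i _ => Finset.sum_nonneg fun q _ => sq_nonneg _
  by_cases hx0 : x = 0
  · have hz0 : z ≠ 0 := by
      intro hz0
      apply hv
      funext i
      rcases i with i | i
      · exact congrFun hx0 i
      · exact congrFun hz0 i
    have hZ0 : Z ≠ 0 := by
      intro h0
      have h1 : ∑ a, z a • y a = 0 := by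
        apply Subtype.ext
        push_cast
        exact h0
      exact hz0 (funext fun a => (Fintype.linearIndependent_iff.mp y.linearIndependent) z h1 a)
    have hpos' : 0 < ∑ i, ∑ q, (aL s h e i q Z + aL s h e q i Z) ^ 2 := by
      refine lt_of_le_of_ne h4 fun h5 => ?_
      apply hZ0
      rw [← Submodule.mem_bot ℝ, ← hkk, mem_kk]
      have h6 : ∀ i q, aL s h e i q Z + aL s h e q i Z = 0 := by
        intro i q
        have h7 := (Finset.sum_eq_zero_iff_of_nonneg fun i _ =>
          Finset.sum_nonneg fun q _ => sq_nonneg (aL s h e i q Z + aL s h e q i Z)).mp h5.symm i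
          (Finset.mem_univ i)
        have h8 := (Finset.sum_eq_zero_iff_of_nonneg fun q _ =>
          sq_nonneg (aL s h e i q Z + aL s h e q i Z)).mp h7 q (Finset.mem_univ q)
        exact pow_eq_zero_iff (two_ne_zero) |>.mp h8
      intro x' y'
      rw [dotB_apply, dotB_apply]
      have h9 : ∀ (x' : s) q, e.repr (adS s h Z x') q = ∑ i, e.repr x' i * aL s h e i q Z := by
        intro x' q
        conv_lhs => rw [← e.sum_repr x']
        rw [map_sum, map_sum, Finsupp.finsetSum_apply]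
        refine Finset.sum_congr rfl fun i _ => ?_
        rw [map_smul, map_smul, Finsupp.smul_apply, smul_eq_mul, aL_apply]
      simp only [h9]
      have h10 : ∑ i, e.repr x' i * ∑ q, e.repr y' q * aL s h e q i Z =
          ∑ i, (∑ q, e.repr x' q * aL s h e i q Z) * e.repr y' i := by
        simp only [Finset.mul_sum, Finset.sum_mul]
        rw [Finset.sum_comm]
        exact Finset.sum_congr rfl fun i _ => Finset.sum_congr rfl fun q _ => by ring
      rw [h10, ← Finset.sum_add_distrib]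
      refine Finset.sum_eq_zero fun i _ => ?_
      rw [← add_mul, ← Finset.sum_add_distrib]
      have h11 : ∑ q, (e.repr x' q * aL s h e q i Z + e.repr x' q * aL s h e i q Z) = 0 := by
        refine Finset.sum_eq_zero fun q _ => ?_
        rw [← mul_add, h6, mul_zero]
      rw [h11, zero_mul]
    have h12 : ∑ j, ∑ k, ricM (sc e) j k * x j * x k = 0 := by
      rw [hx0]
      simp
    rw [h12]
    linarith
  · have h13 := hneg x hx0
    linarith

theorem dir2 [FiniteDimensional ℝ g] (n : LieIdeal ℝ g) (hgn : ∀ x y : g, ⁅x, y⁆ ∈ n)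
    (hnil : ActsNil n) (s : LieSubalgebra ℝ g) (hns : ∀ x ∈ n, x ∈ s)
    (hcent : ∀ Z : g, (∀ x ∈ s, ⁅Z, x⁆ = 0) → Z ∈ n) (hs : HasNegRicci s) : HasNegRicci g := by
  obtain ⟨B, D, hsymm, hpos, hLC, hneg0⟩ := hs
  obtain ⟨m, p, e0, -, hEo, -⟩ := exists_adapted s B hsymm hpos ⊤
  have hNeg0 : NegR (sc e0) := negR_of_metric e0 B D hEo hLC hneg0
  obtain ⟨e, hneg, hkk⟩ := exists_good_frame n hgn hnil s hns hcent e0 hNeg0
  exact dir2_core s _ e hneg hkk

end Pool.Agent.Lib.P6ec3b3
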