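import Pool.Agent.Lib.P6ec3b3.Defs

/-!
# Facts on nilpotent ideals of a real Lie algebra
-/

open Module LieAlgebra LieModule
open scoped TensorProduct

namespace Pool.Agent.Lib.P6ec3b3

attribute [local instance 100] LieRing.ofAssociativeRing

universe u v

/-- For a solvable complex Lie algebra, the derived algebra acts by nilpotent operators. -/
theorem nil_of_mem_derived_complex {L : Type u} [LieRing L] [LieAlgebra ℂ L]
    [LieAlgebra.IsSolvable L] (n : ℕ) :
    ∀ (V : Type v) [AddCommGroup V] [Module ℂ V] [LieRingModule L V] [LieModule ℂ L V]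
      [Module.Finite ℂ V], finrank ℂ V = n → ∀ x ∈ derivedSeries ℂ L 1,
        IsNilpotent (toEnd ℂ L V x) := by
  induction n using Nat.strong_induction_on with
  | _ n ih =>
    intro V _ _ _ _ _ hn x hx
    rcases subsingleton_or_nontrivial V with hV | hV
    · exact ⟨1, by ext v; exact Subsingleton.elim _ _⟩
    · obtain ⟨χ, hχ⟩ := exists_nontrivial_weightSpace_of_isSolvable ℂ L V
      set W : LieSubmodule ℂ L V := weightSpace V χ with hW
      have hker : ∀ x ∈ derivedSeries ℂ L 1, ∀ v ∈ W, ⁅x, v⁆ = 0 := by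
        intro x hx v hv
        have hx' : x ∈ Submodule.span ℂ {z : L | ∃ a b : L, ⁅a, b⁆ = z} := by
          rw [← coe_derivedSeries_one_eq]; exact hx
        rw [mem_weightSpace] at hv
        refine Submodule.span_induction ?_ ?_ ?_ ?_ hx'
        · rintro z ⟨a, b, rfl⟩
          rw [lie_lie, hv b, hv a, lie_smul, lie_smul, hv a, hv b, smul_smul, smul_smul,
            mul_comm, sub_self]
        · exact zero_lie v
        · intro a b _ _ ha hb
          rw [add_lie, ha, hb, add_zero]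
        · intro r a _ ha
          rw [smul_lie, ha, smul_zero]
      have hlt : finrank ℂ (V ⧸ W) < n := by
        have h1 := Submodule.finrank_quotient_add_finrank (W : Submodule ℂ V)
        have h2 : 0 < finrank ℂ (W : Submodule ℂ V) := by
          have : Nontrivial (W : Submodule ℂ V) := hχ
          exact finrank_pos
        have h3 : finrank ℂ (V ⧸ W) = finrank ℂ (V ⧸ (W : Submodule ℂ V)) := rfl
        omega
      have : Module.Finite ℂ (V ⧸ W) :=
        Module.Finite.of_surjective (LieSubmodule.Quotient.mk' W : V →ₗ[ℂ] V ⧸ W)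
          (LieSubmodule.Quotient.surjective_mk' W)
      obtain ⟨k, hk⟩ := ih _ hlt (V ⧸ W) rfl x hx
      refine ⟨k + 1, ?_⟩
      ext v
      rw [pow_succ', Module.End.mul_apply, toEnd_apply_apply, LinearMap.zero_apply]
      apply hker x hx
      have h1 : ∀ (j : ℕ) (v : V), LieSubmodule.Quotient.mk' W ((toEnd ℂ L V x ^ j) v) =
          (toEnd ℂ L (V ⧸ W) x ^ j) (LieSubmodule.Quotient.mk' W v) := by
        intro j
        induction j with
        | zero => intro v; simp
        | succ j ihj =>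
          intro v
          rw [pow_succ', Module.End.mul_apply, pow_succ', Module.End.mul_apply, ← ihj,
            toEnd_apply_apply, toEnd_apply_apply, LieModuleHom.map_lie]
      rw [← LieSubmodule.Quotient.mk_eq_zero, h1, hk, LinearMap.zero_apply]

variable {g : Type u} [LieRing g] [LieAlgebra ℝ g]

/-- For a solvable real Lie algebra, the derived algebra acts nilpotently. -/
theorem derived_nilpotent [FiniteDimensional ℝ g] [LieAlgebra.IsSolvable g] :
    LieModule.IsNilpotent (derivedSeries ℝ g 1) g := by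
  rw [LieModule.isNilpotent_iff_forall' (R := ℝ)]
  rintro ⟨x, hx⟩
  have h1 : (1 : ℂ) ⊗ₜ[ℝ] x ∈ derivedSeries ℂ (ℂ ⊗[ℝ] g) 1 := by
    rw [derivedSeries_baseChange]
    exact Submodule.tmul_mem_baseChange_of_mem 1 hx
  have h2 := nil_of_mem_derived_complex _ (ℂ ⊗[ℝ] g) rfl _ h1
  rw [LieModule.toEnd_baseChange] at h2
  obtain ⟨k, hk⟩ := h2
  refine ⟨k, ?_⟩
  ext v
  rw [← LinearMap.baseChange_pow] at hk
  have h3 := congrArg (fun f => f ((1 : ℂ) ⊗ₜ[ℝ] v)) hk
  simp only [LinearMap.baseChange_tmul, LinearMap.zero_apply] at h3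
  rw [Module.FaithfullyFlat.one_tmul_eq_zero_iff] at h3
  rw [LinearMap.zero_apply]
  rw [← h3]
  rfl

/-- The ideal `I` acts nilpotently on `g`. -/
def ActsNil (I : LieIdeal ℝ g) : Prop := ∃ k, I.lcs g k = ⊥

theorem actsNil_iff (I : LieIdeal ℝ g) : ActsNil I ↔ LieModule.IsNilpotent I g := by
  rw [LieModule.isNilpotent_iff ℝ I g, ActsNil]
  refine exists_congr fun k => ?_
  rw [← LieSubmodule.toSubmodule_inj, LieIdeal.coe_lcs_eq, ← LieSubmodule.toSubmodule_inj]
  rfl

theorem nilpotent_iff_actsNil [FiniteDimensional ℝ g] (I : LieIdeal ℝ g) :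
    LieRing.IsNilpotent I ↔ ActsNil I := by
  rw [actsNil_iff]
  have h2 : ∀ (x : I) (j : ℕ) (w : I), (toEnd ℝ I g x ^ j) (w : g) =
      (((toEnd ℝ I I x ^ j) w : I) : g) := by
    intro x j
    induction j with
    | zero => intro w; simp
    | succ j ihj =>
      intro w
      rw [pow_succ', Module.End.mul_apply, pow_succ', Module.End.mul_apply, ihj]
      rfl
  constructor
  · intro h
    rw [LieModule.isNilpotent_iff_forall' (R := ℝ)]
    rintro ⟨x, hx⟩
    have h1 : IsNilpotent (toEnd ℝ I I ⟨x, hx⟩) := isNilpotent_toEnd_of_isNilpotent ℝ I I _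
    obtain ⟨k, hk⟩ := h1
    refine ⟨k + 1, ?_⟩
    ext v
    have hmem : ⁅x, v⁆ ∈ I := lie_mem_left ℝ g I x v hx
    rw [pow_succ, Module.End.mul_apply]
    have h3 := h2 ⟨x, hx⟩ k ⟨⁅x, v⁆, hmem⟩
    rw [hk] at h3
    exact h3
  · intro h
    change LieModule.IsNilpotent I I
    rw [LieModule.isNilpotent_iff_forall' (R := ℝ)]
    intro x
    obtain ⟨k, hk⟩ := isNilpotent_toEnd_of_isNilpotent ℝ I g x
    refine ⟨k, ?_⟩
    ext w
    have h3 := h2 x k w
    rw [hk] at h3
    exact h3.symm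

/-- Fitting: the sum of two ideals which act nilpotently acts nilpotently. -/
theorem ActsNil.sup {I J : LieIdeal ℝ g} (hI : ActsNil I) (hJ : ActsNil J) : ActsNil (I ⊔ J) := by
  obtain ⟨k, hk⟩ := hI
  obtain ⟨l, hl⟩ := hJ
  have step : ∀ (t : ℕ) (N : LieSubmodule ℝ g g), N ≤ J.lcs g t → ∀ i : ℕ,
      (fun N => ⁅I ⊔ J, N⁆)^[i] N ≤ J.lcs g (t + 1) ⊔ (I.lcs g i ⊓ J.lcs g t) := by
    intro t N hN i
    induction i with
    | zero =>
      refine le_sup_of_le_right ?_
      simpa using hN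
    | succ i ih =>
      rw [Function.iterate_succ_apply']
      refine (LieSubmodule.mono_lie_right _ ih).trans ?_
      rw [LieSubmodule.lie_le_iff]
      intro x hx m hm
      obtain ⟨a, ha, b, hb, rfl⟩ := (LieSubmodule.mem_sup _ _ _).mp hx
      obtain ⟨m1, hm1, m2, hm2, rfl⟩ := (LieSubmodule.mem_sup _ _ _).mp hm
      have hm2' := (LieSubmodule.mem_inf _ _ _).mp hm2
      rw [add_lie, lie_add, lie_add]
      have e1 : ⁅a, m1⁆ ∈ J.lcs g (t + 1) := LieSubmodule.lie_mem _ hm1
      have e2 : ⁅b, m1⁆ ∈ J.lcs g (t + 1) := LieSubmodule.lie_mem _ hm1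
      have e3 : ⁅b, m2⁆ ∈ J.lcs g (t + 1) := by
        rw [LieIdeal.lcs_succ]
        exact LieSubmodule.lie_mem_lie hb hm2'.2
      have e4 : ⁅a, m2⁆ ∈ I.lcs g (i + 1) ⊓ J.lcs g t := by
        rw [LieSubmodule.mem_inf]
        refine ⟨?_, LieSubmodule.lie_mem _ hm2'.2⟩
        rw [LieIdeal.lcs_succ]
        exact LieSubmodule.lie_mem_lie ha hm2'.1
      refine add_mem (add_mem ?_ ?_) (add_mem ?_ ?_)
      · exact (LieSubmodule.mem_sup _ _ _).mpr ⟨_, e1, 0, zero_mem _, add_zero _⟩
      · exact (LieSubmodule.mem_sup _ _ _).mpr ⟨0, zero_mem _, _, e4, zero_add _⟩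
      · exact (LieSubmodule.mem_sup _ _ _).mpr ⟨_, e2, 0, zero_mem _, add_zero _⟩
      · exact (LieSubmodule.mem_sup _ _ _).mpr ⟨_, e3, 0, zero_mem _, add_zero _⟩
  have main : ∀ t : ℕ, (I ⊔ J).lcs g (k * t) ≤ J.lcs g t := by
    intro t
    induction t with
    | zero => simp
    | succ t ih =>
      have h1 := step t _ ih k
      rw [hk, bot_inf_eq, sup_bot_eq] at h1
      refine le_trans (le_of_eq ?_) h1
      rw [LieIdeal.lcs, LieIdeal.lcs, ← Function.iterate_add_apply]
      congr 2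
      ring
  exact ⟨k * l, by rw [eq_bot_iff, ← hl]; exact main l⟩

/-- Existence of the nilradical. -/
theorem exists_nilradical (g : Type u) [LieRing g] [LieAlgebra ℝ g] [FiniteDimensional ℝ g] :
    ∃ n : LieIdeal ℝ g, IsGreatest {I : LieIdeal ℝ g | LieRing.IsNilpotent I} n := by
  have hne : {I : LieIdeal ℝ g | ActsNil I}.Nonempty := ⟨⊥, ⟨1, by
    rw [LieIdeal.lcs_succ, LieSubmodule.lie_eq_bot_iff]
    intro x hx m _
    rw [LieSubmodule.mem_bot] at hx
    rw [hx, zero_lie]⟩⟩
  have hwf : WellFoundedGT (LieSubmodule ℝ g g) := LieSubmodule.wellFoundedGT_of_noetherian ℝ g g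
  obtain ⟨n, hn, hmax⟩ := hwf.wf.has_min _ hne
  refine ⟨n, (nilpotent_iff_actsNil n).mpr hn, ?_⟩
  intro I hI
  have h1 : ActsNil (n ⊔ I) := ActsNil.sup hn ((nilpotent_iff_actsNil I).mp hI)
  have h2 := hmax _ h1
  have h3 : n ≤ n ⊔ I := le_sup_left
  have h4 : n = n ⊔ I := by
    by_contra h5
    exact h2 (lt_of_le_of_ne h3 h5)
  rw [h4]
  exact le_sup_right

end Pool.Agent.Lib.P6ec3b3
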