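import Pool.Agent.Lib.P6ec3b3.Milnor
import Pool.Agent.Lib.P6ec3b3.LieFacts

/-!
# Bases adapted to a nilpotent ideal
-/

open Module Polynomial

namespace Pool.Agent.Lib.P6ec3b3

attribute [local instance 100] LieRing.ofAssociativeRing

section change

variable {g : Type*} [LieRing g] [LieAlgebra ℝ g]
variable {ι : Type*} [Fintype ι] [DecidableEq ι]

/-- Change of basis by an invertible matrix `P` with inverse `Q`: the new basis is
`E' j = ∑ i, P i j • E i`. -/
noncomputable def chB (E : Basis ι ℝ g) (P Q : Matrix ι ι ℝ) (h1 : P * Q = 1) (h2 : Q * P = 1) :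
    Basis ι ℝ g :=
  Basis.ofEquivFun (E.equivFun.trans (Matrix.toLin'OfInv h1 h2))

theorem chB_repr (E : Basis ι ℝ g) (P Q : Matrix ι ι ℝ) (h1 : P * Q = 1) (h2 : Q * P = 1)
    (x : g) (k : ι) : (chB E P Q h1 h2).repr x k = ∑ l, Q k l * E.repr x l := by
  rw [chB, Basis.ofEquivFun_repr_apply]
  change (Matrix.toLin' Q (E.equivFun x)) k = _
  rw [Matrix.toLin'_apply, Matrix.mulVec, dotProduct]
  rfl

theorem chB_apply (E : Basis ι ℝ g) (P Q : Matrix ι ι ℝ) (h1 : P * Q = 1) (h2 : Q * P = 1)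
    (j : ι) : chB E P Q h1 h2 j = ∑ i, P i j • E i := by
  apply (chB E P Q h1 h2).repr.injective
  ext k
  rw [Basis.repr_self, chB_repr]
  have : ∀ l, E.repr (∑ i, P i j • E i) l = P l j := by
    intro l
    rw [map_sum, Finsupp.finsetSum_apply]
    simp [Finsupp.single_apply]
  simp only [this]
  rw [← Matrix.mul_apply, h2, Matrix.one_apply, Finsupp.single_apply]
  simp only [eq_comm]

theorem sc_chB (E : Basis ι ℝ g) (P Q : Matrix ι ι ℝ) (h1 : P * Q = 1) (h2 : Q * P = 1) :
    sc (chB E P Q h1 h2) = opO Q (opL P (opR P (sc E))) := by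
  funext i j k
  rw [sc, chB_repr, opO_apply]
  refine Finset.sum_congr rfl fun l _ => ?_
  congr 1
  rw [chB_apply, chB_apply, opL_apply, sum_lie, map_sum, Finsupp.finsetSum_apply]
  refine Finset.sum_congr rfl fun q _ => ?_
  rw [smul_lie, map_smul, Finsupp.smul_apply, smul_eq_mul, opR_apply, lie_sum, map_sum,
    Finsupp.finsetSum_apply]
  congr 1
  refine Finset.sum_congr rfl fun r _ => ?_
  rw [lie_smul, map_smul, Finsupp.smul_apply, smul_eq_mul, sc]

end change

end Pool.Agent.Lib.P6ec3b3
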