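import Pool.Agent.Lib.P6ec3b3.Perturb
import Pool.Agent.Lib.P6ec3b3.Dir1

/-!
# Frames without skew symmetric outer derivations
-/

open Module Filter Topology

namespace Pool.Agent.Lib.P6ec3b3

attribute [local instance 100] LieRing.ofAssociativeRing

section arrays

variable {ι : Type*} [Fintype ι]

theorem sum_central (c : SC ι) (anti : ∀ i j k, c i j k = -c j i k) (z : ι → ℝ)
    (hcen : ∀ i, adL c i z = 0) (i q : ι) : ∑ k, z k * c k i q = 0 := by
  have h4 := congrFun (hcen i) q
  rw [adL_apply, Pi.zero_apply] at h4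
  rw [← neg_eq_zero, ← h4, ← Finset.sum_neg_distrib]
  refine Finset.sum_congr rfl fun k _ => ?_
  rw [anti k i q]; ring

/-- In a central direction the Ricci curvature is nonnegative. -/
theorem ricQ_central (c : SC ι) (anti : ∀ i j k, c i j k = -c j i k) (z : ι → ℝ)
    (hcen : ∀ i, adL c i z = 0) : 0 ≤ ∑ j, ∑ k, ricM c j k * z j * z k := by
  have hs := sum_central c anti z hcen
  have hs' : ∀ i q, ∑ k, z k * c i k q = 0 := by
    intro i q
    have h4 := congrFun (hcen i) q
    rw [adL_apply, Pi.zero_apply] at h4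
    exact h4
  have e2 : ∑ k, ∑ l, (∑ i, ∑ q, c k i q * c l i q) * z k * z l = 0 := by
    have h1 : ∀ l, ∑ k, (∑ i, ∑ q, c k i q * c l i q) * z k = 0 := by
      intro l
      have h2 : ∀ k, (∑ i, ∑ q, c k i q * c l i q) * z k =
          ∑ i, ∑ q, c l i q * (z k * c k i q) := by
        intro k
        simp only [Finset.sum_mul]
        exact Finset.sum_congr rfl fun i _ => Finset.sum_congr rfl fun q _ => by ring
      simp only [h2]
      rw [Finset.sum_comm]
      refine Finset.sum_eq_zero fun i _ => ?_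
      rw [Finset.sum_comm]
      refine Finset.sum_eq_zero fun q _ => ?_
      rw [← Finset.mul_sum, hs, mul_zero]
    rw [Finset.sum_comm]
    refine Finset.sum_eq_zero fun l _ => ?_
    rw [← Finset.sum_mul, h1, zero_mul]
  have e3 : ∑ k, ∑ l, (∑ i, ∑ j, c i j k * c i j l) * z k * z l =
      ∑ i, ∑ j, (∑ k, c i j k * z k) ^ 2 := by
    have h1 : ∀ i j, (∑ k, c i j k * z k) ^ 2 = ∑ k, ∑ l, c i j k * c i j l * z k * z l := by
      intro i j
      rw [sq, Finset.sum_mul_sum]
      exact Finset.sum_congr rfl fun i _ => Finset.sum_congr rfl fun q _ => by ring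
    have s1 : ∀ k, ∑ l, (∑ i, ∑ j, c i j k * c i j l) * z k * z l =
        ∑ i, ∑ j, ∑ l, c i j k * c i j l * z k * z l := by
      intro k
      simp only [Finset.sum_mul]
      rw [Finset.sum_comm]
      refine Finset.sum_congr rfl fun i _ => Finset.sum_comm
    rw [Finset.sum_congr rfl fun k _ => s1 k, Finset.sum_comm]
    refine Finset.sum_congr rfl fun i _ => ?_
    rw [Finset.sum_comm]
    exact Finset.sum_congr rfl fun j _ => (h1 i j).symm
  have e4 : ∑ k, ∑ l, killM c k l * z k * z l = 0 := by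
    have h1 : ∀ l, ∑ k, killM c k l * z k = 0 := by
      intro l
      unfold killM
      have h2 : ∀ k, (∑ i, ∑ q, c k i q * c l q i) * z k =
          ∑ i, ∑ q, c l q i * (z k * c k i q) := by
        intro k
        simp only [Finset.sum_mul]
        exact Finset.sum_congr rfl fun i _ => Finset.sum_congr rfl fun q _ => by ring
      simp only [h2]
      rw [Finset.sum_comm]
      refine Finset.sum_eq_zero fun i _ => ?_
      rw [Finset.sum_comm]
      refine Finset.sum_eq_zero fun q _ => ?_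
      rw [← Finset.mul_sum, hs, mul_zero]
    rw [Finset.sum_comm]
    refine Finset.sum_eq_zero fun l _ => ?_
    rw [← Finset.sum_mul, h1, zero_mul]
  have e5 : ∑ k, ∑ l, (∑ h, Hc c h * (c h k l + c h l k)) * z k * z l = 0 := by
    have h1 : ∀ k l, (∑ h, Hc c h * (c h k l + c h l k)) * z k * z l =
        ∑ h, (Hc c h * z l * (z k * c h k l) + Hc c h * z k * (z l * c h l k)) := by
      intro k l
      simp only [Finset.sum_mul]
      exact Finset.sum_congr rfl fun i _ => by ring
    simp only [h1]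
    have h2 : ∀ k, ∑ l, ∑ h, (Hc c h * z l * (z k * c h k l) + Hc c h * z k * (z l * c h l k)) =
        ∑ h, ∑ l, (Hc c h * z l * (z k * c h k l) + Hc c h * z k * (z l * c h l k)) :=
      fun k => Finset.sum_comm
    simp only [h2]
    rw [Finset.sum_comm]
    refine Finset.sum_eq_zero fun h _ => ?_
    simp only [Finset.sum_add_distrib]
    have h3 : ∀ k, ∑ l, Hc c h * z k * (z l * c h l k) = 0 := by
      intro k
      rw [← Finset.mul_sum, hs', mul_zero]
    have h4 : ∑ k, ∑ l, Hc c h * z l * (z k * c h k l) = 0 := by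
      rw [Finset.sum_comm]
      refine Finset.sum_eq_zero fun l _ => ?_
      rw [← Finset.mul_sum, hs', mul_zero]
    rw [h4]
    simp only [h3, Finset.sum_const_zero, add_zero]
  have e1 : ∑ j, ∑ k, ricM c j k * z j * z k =
      -(1 / 2) * (∑ k, ∑ l, (∑ i, ∑ q, c k i q * c l i q) * z k * z l) +
      (1 / 4) * (∑ k, ∑ l, (∑ i, ∑ j, c i j k * c i j l) * z k * z l) -
      (1 / 2) * (∑ k, ∑ l, killM c k l * z k * z l) -
      (1 / 2) * (∑ k, ∑ l, (∑ h, Hc c h * (c h k l + c h l k)) * z k * z l) := by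
    rw [Finset.mul_sum, Finset.mul_sum, Finset.mul_sum, Finset.mul_sum, ← Finset.sum_add_distrib,
      ← Finset.sum_sub_distrib, ← Finset.sum_sub_distrib]
    refine Finset.sum_congr rfl fun k _ => ?_
    rw [Finset.mul_sum, Finset.mul_sum, Finset.mul_sum, Finset.mul_sum, ← Finset.sum_add_distrib,
      ← Finset.sum_sub_distrib, ← Finset.sum_sub_distrib]
    refine Finset.sum_congr rfl fun l _ => ?_
    rw [ricM, mM]
    ring
  rw [e1, e2, e3, e4, e5]
  have h6 : 0 ≤ ∑ i, ∑ j, (∑ k, c i j k * z k) ^ 2 :=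
    Finset.sum_nonneg fun i _ => Finset.sum_nonneg fun j _ => sq_nonneg _
  linarith

end arrays

variable {g : Type*} [LieRing g] [LieAlgebra ℝ g]

/-- The action of `g` on the ideal `s`. -/
def adS (s : LieSubalgebra ℝ g) (h : ∀ x y : g, ⁅x, y⁆ ∈ s) : g →ₗ[ℝ] s →ₗ[ℝ] s :=
  LinearMap.mk₂ ℝ (fun Z x => ⟨⁅Z, (x : g)⁆, h _ _⟩)
    (by intro Z Z' x; apply Subtype.ext; simp)
    (by intro r Z x; apply Subtype.ext; simp)
    (by intro Z x x'; apply Subtype.ext; simp)
    (by intro r Z x; apply Subtype.ext; simp)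

theorem adS_coe (s : LieSubalgebra ℝ g) (h : ∀ x y : g, ⁅x, y⁆ ∈ s) (Z : g) (x : s) :
    ((adS s h Z x : s) : g) = ⁅Z, (x : g)⁆ := rfl

variable {ι : Type*} [Fintype ι]

/-- Elements acting by skew symmetric maps. -/
noncomputable def kk (s : LieSubalgebra ℝ g) (h : ∀ x y : g, ⁅x, y⁆ ∈ s) (e : Basis ι ℝ s) :
    Submodule ℝ g where
  carrier := {Z | ∀ x y : s, dotB e (adS s h Z x) y + dotB e x (adS s h Z y) = 0}
  add_mem' := by
    intro Z Z' hZ hZ' x y
    simp only [map_add, LinearMap.add_apply]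
    linarith [hZ x y, hZ' x y]
  zero_mem' := by
    intro x y
    simp
  smul_mem' := by
    intro r Z hZ x y
    simp only [map_smul, LinearMap.smul_apply, smul_eq_mul]
    rw [← mul_add, hZ x y, mul_zero]

theorem mem_kk (s : LieSubalgebra ℝ g) (h : ∀ x y : g, ⁅x, y⁆ ∈ s) (e : Basis ι ℝ s) (Z : g) :
    Z ∈ kk s h e ↔ ∀ x y : s, dotB e (adS s h Z x) y + dotB e x (adS s h Z y) = 0 := Iff.rfl

theorem dotB_symm (e : Basis ι ℝ g) (x y : g) : dotB e x y = dotB e y x := by
  rw [dotB_apply, dotB_apply]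
  exact Finset.sum_congr rfl fun i _ => mul_comm _ _

theorem dotB_pos (e : Basis ι ℝ g) (x : g) (hx : x ≠ 0) : 0 < dotB e x x := by
  rw [dotB_apply]
  have h0 : ∀ i ∈ Finset.univ, 0 ≤ e.repr x i * e.repr x i := fun i _ => mul_self_nonneg _
  refine lt_of_le_of_ne (Finset.sum_nonneg h0) fun h1 => hx ?_
  have h2 := (Finset.sum_eq_zero_iff_of_nonneg h0).mp h1.symm
  apply e.repr.map_eq_zero_iff.mp
  ext i
  exact mul_self_eq_zero.mp (h2 i (Finset.mem_univ i))

/-- A change of basis stretching one direction. -/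
theorem stretch [DecidableEq ι] (e : Basis ι ℝ g) (v : g) (hv : dotB e v v = 1)
    (hneg : NegR (sc e)) :
    ∃ (e' : Basis ι ℝ g) (t : ℝ), 0 < t ∧ NegR (sc e') ∧
      ∀ x y, dotB e' x y = dotB e x y + t * (dotB e v x * dotB e v y) := by
  set N : Matrix ι ι ℝ := fun i j => e.repr v i * e.repr v j with hN
  have hNN : N * N = N := by
    ext i j
    rw [Matrix.mul_apply]
    have : ∀ k, N i k * N k j = e.repr v i * e.repr v j * (e.repr v k * e.repr v k) := by
      intro k
      simp only [hN]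
      ring
    simp only [this]
    rw [← Finset.mul_sum, ← dotB_apply, hv, mul_one]
  let P : ℝ → Matrix ι ι ℝ := fun r => 1 - (r / (1 + r)) • N
  let Q : ℝ → Matrix ι ι ℝ := fun r => 1 + r • N
  have hPQ : ∀ r : ℝ, 0 ≤ r → P r * Q r = 1 := by
    intro r hr
    have h1 : (1 + r : ℝ) ≠ 0 := by positivity
    simp only [P, Q]
    rw [sub_mul, one_mul, mul_add, mul_one, smul_mul_smul_comm, hNN]
    rw [← add_smul, add_sub_assoc, ← sub_smul]
    have : r - (r / (1 + r) + r / (1 + r) * r) = 0 := by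
      field_simp
      ring
    rw [this, zero_smul, add_zero]
  have hQP : ∀ r : ℝ, 0 ≤ r → Q r * P r = 1 := by
    intro r hr
    have h1 : (1 + r : ℝ) ≠ 0 := by positivity
    simp only [P, Q]
    rw [add_mul, one_mul, mul_sub, mul_one, smul_mul_smul_comm, hNN]
    rw [← sub_smul, sub_add, ← sub_smul]
    have : r / (1 + r) - (r - r * (r / (1 + r))) = 0 := by
      field_simp
      ring
    rw [this, zero_smul, sub_zero]
  have hcont : ContinuousAt (fun r : ℝ => act (P r) (Q r) (sc e)) 0 := by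
    have hP : ∀ i j, ContinuousAt (fun r => P r i j) 0 := by
      intro i j
      simp only [P, Matrix.sub_apply, Matrix.smul_apply, smul_eq_mul]
      refine ContinuousAt.sub continuousAt_const (ContinuousAt.mul ?_ continuousAt_const)
      refine ContinuousAt.div continuousAt_id (continuousAt_const.add continuousAt_id) ?_
      norm_num
    have hQ : ∀ i j, ContinuousAt (fun r => Q r i j) 0 := by
      intro i j
      simp only [Q, Matrix.add_apply, Matrix.smul_apply, smul_eq_mul]
      fun_prop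
    refine continuousAt_pi.mpr fun i => continuousAt_pi.mpr fun j => continuousAt_pi.mpr fun k => ?_
    simp only [act_apply]
    refine tendsto_finsetSum _ fun l _ => (hQ k l).tendsto.mul ?_
    refine tendsto_finsetSum _ fun q _ => (hP q i).tendsto.mul ?_
    refine tendsto_finsetSum _ fun r _ => (hP r j).tendsto.mul tendsto_const_nhds
  have h0 : act (P 0) (Q 0) (sc e) = sc e := by
    simp only [P, Q, zero_div, zero_smul, sub_zero, add_zero, act_one]
  have hev : ∀ᶠ r in 𝓝 (0 : ℝ), NegR (act (P r) (Q r) (sc e)) := by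
    refine hcont.eventually (isOpen_negR.mem_nhds ?_)
    change NegR (act (P 0) (Q 0) (sc e))
    rw [h0]
    exact hneg
  have hev2 : ∀ᶠ r in 𝓝[>] (0 : ℝ), NegR (act (P r) (Q r) (sc e)) :=
    hev.filter_mono nhdsWithin_le_nhds
  obtain ⟨r, hr1, hr2⟩ := (hev2.and self_mem_nhdsWithin).exists
  have hr0 : 0 < r := hr2
  refine ⟨chB e (P r) (Q r) (hPQ r hr0.le) (hQP r hr0.le), 2 * r + r ^ 2, by positivity, ?_, ?_⟩
  · rw [sc_chB]
    exact hr1
  · intro x y
    have hrep : ∀ z k, (chB e (P r) (Q r) (hPQ r hr0.le) (hQP r hr0.le)).repr z k =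
        e.repr z k + r * e.repr v k * dotB e v z := by
      intro z k
      rw [chB_repr]
      simp only [Q, Matrix.add_apply, Matrix.smul_apply, smul_eq_mul, add_mul,
        Finset.sum_add_distrib]
      congr 1
      · simp [Matrix.one_apply]
      · rw [dotB_apply, Finset.mul_sum]
        refine Finset.sum_congr rfl fun l _ => ?_
        simp only [hN]
        ring
    rw [dotB_apply]
    simp only [hrep]
    have h1 : ∀ i, (e.repr x i + r * e.repr v i * dotB e v x) *
        (e.repr y i + r * e.repr v i * dotB e v y) = e.repr x i * e.repr y i +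
        r * dotB e v y * (e.repr v i * e.repr x i) + r * dotB e v x * (e.repr v i * e.repr y i) +
        r ^ 2 * (dotB e v x * dotB e v y) * (e.repr v i * e.repr v i) := by
      intro i
      ring
    simp only [h1, Finset.sum_add_distrib, ← Finset.mul_sum, ← dotB_apply, hv]
    ring

/-- A frame of `s` with negative Ricci curvature such that no nonzero element of `g` acts on `s`
by a skew symmetric map. -/
theorem exists_good_frame [FiniteDimensional ℝ g] [DecidableEq ι]
    (n : LieIdeal ℝ g) (hgn : ∀ x y : g, ⁅x, y⁆ ∈ n) (hnil : ActsNil n)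
    (s : LieSubalgebra ℝ g) (hns : ∀ x ∈ n, x ∈ s)
    (hcent : ∀ Z : g, (∀ x ∈ s, ⁅Z, x⁆ = 0) → Z ∈ n)
    (e0 : Basis ι ℝ s) (he0 : NegR (sc e0)) :
    ∃ e : Basis ι ℝ s, NegR (sc e) ∧ kk s (fun x y => hns _ (hgn x y)) e = ⊥ := by
  set h : ∀ x y : g, ⁅x, y⁆ ∈ s := fun x y => hns _ (hgn x y) with hh
  obtain ⟨K, hK⟩ := hnil
  -- minimal dimension
  have hex : ∃ d : ℕ, ∃ e : Basis ι ℝ s, NegR (sc e) ∧ finrank ℝ (kk s h e) = d :=
    ⟨_, e0, he0, rfl⟩
  classical
  obtain ⟨e, hneg, hd⟩ := Nat.find_spec hex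
  have hmin : ∀ e' : Basis ι ℝ s, NegR (sc e') → finrank ℝ (kk s h e) ≤ finrank ℝ (kk s h e') := by
    intro e' he'
    rw [hd]
    exact Nat.find_min' hex ⟨e', he', rfl⟩
  refine ⟨e, hneg, ?_⟩
  by_contra hne
  obtain ⟨Z, hZ, hZ0⟩ := Submodule.exists_mem_ne_zero_of_ne_bot hne
  set D : s →ₗ[ℝ] s := adS s h Z with hDdef
  have hDne : D ≠ 0 := by
    intro hD0
    have h1 : ∀ x ∈ s, ⁅Z, x⁆ = 0 := by
      intro x hx
      have h2 := congrArg (fun f => ((f ⟨x, hx⟩ : s) : g)) hD0
      exact h2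
    have hZs : Z ∈ s := hns _ (hcent Z h1)
    have hz0 : (fun i => e.repr ⟨Z, hZs⟩ i) ≠ 0 := by
      intro h2
      apply hZ0
      have h3 : (⟨Z, hZs⟩ : s) = 0 := by
        apply e.repr.map_eq_zero_iff.mp
        ext i
        exact congrFun h2 i
      exact congrArg (fun y : s => (y : g)) h3
    have h4 := hneg _ hz0
    have h5 := ricQ_central (sc e) (sc_anti e) (fun i => e.repr ⟨Z, hZs⟩ i) (by
      intro i
      funext k
      rw [adL_apply, ← repr_lie_right]
      have h6 : ⁅e i, (⟨Z, hZs⟩ : s)⁆ = 0 := by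
        apply Subtype.ext
        rw [LieSubalgebra.coe_bracket, ← lie_skew, h1 _ (e i).2]
        simp
      rw [h6, map_zero]
      rfl)
    linarith
  -- the filtration
  let Cf : ℕ → Submodule ℝ s := fun j => (LieSubmodule.toSubmodule (n.lcs g j)).comap
    s.toSubmodule.subtype
  have hCmem : ∀ j (x : s), x ∈ Cf j ↔ (x : g) ∈ n.lcs g j := fun j x => Iff.rfl
  have hex2 : ∃ j, ∀ x ∈ Cf j, D x = 0 := by
    refine ⟨K, fun x hx => ?_⟩
    rw [hCmem, hK, LieSubmodule.mem_bot] at hx
    have : x = 0 := Subtype.ext hx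
    rw [this, map_zero]
  have hj1 := Nat.find_spec hex2
  have hj2 : Nat.find hex2 ≠ 0 := by
    intro h0
    rw [h0] at hj1
    apply hDne
    refine LinearMap.ext fun x => hj1 x ?_
    rw [hCmem]
    simp
  obtain ⟨j, hj⟩ := Nat.exists_eq_succ_of_ne_zero hj2
  have hj3 := Nat.find_min hex2 (m := j) (by omega)
  rw [hj, Nat.succ_eq_add_one] at hj1
  push Not at hj3
  have hle : Cf (j + 1) ≤ Cf j := by
    intro x hx
    rw [hCmem] at hx ⊢
    rw [LieIdeal.lcs_succ] at hx
    exact LieSubmodule.lie_le_right _ _ hx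
  obtain ⟨v, hv1, hDv, hmain⟩ := perturb s (dotB e) (dotB_symm e) (dotB_pos e)
    (Set.range (adS s h)) (Cf (j + 1)) (Cf j) hle
    (by
      rintro _ ⟨W, rfl⟩ x hx
      rw [hCmem] at hx ⊢
      exact LieSubmodule.lie_mem _ hx)
    (by
      rintro _ ⟨W, rfl⟩ x hx
      rw [hCmem] at hx ⊢
      exact LieSubmodule.lie_mem _ hx)
    (by
      rintro _ ⟨W, rfl⟩ _ ⟨W', rfl⟩ x hx
      rw [hCmem] at hx ⊢
      have h1 : (((adS s h W) ((adS s h W') x) - (adS s h W') ((adS s h W) x) : s) : g) =
          ⁅⁅W, W'⁆, (x : g)⁆ := by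
        rw [lie_lie]
        rfl
      rw [h1, LieIdeal.lcs_succ]
      exact LieSubmodule.lie_mem_lie (hgn _ _) hx)
    D ⟨Z, rfl⟩ (fun x y => hZ x y) hj1 hj3
  obtain ⟨e', t, ht, hneg', hdot⟩ := stretch e v hv1 hneg
  have hlt : kk s h e' < kk s h e := by
    refine lt_of_le_of_ne ?_ ?_
    · intro Z' hZ' x y
      have h1 : ∀ x y, dotB e (adS s h Z' x) y + dotB e x (adS s h Z' y) +
          t * (dotB e v (adS s h Z' x) * dotB e v y + dotB e v x * dotB e v (adS s h Z' y)) =
          0 := by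
        intro x y
        have h2 := hZ' x y
        rw [hdot, hdot] at h2
        linarith
      have h2 := hmain t ht _ ⟨Z', rfl⟩ h1
      have h3 := h1 x y
      rw [h2 x, h2 y] at h3
      linarith
    · intro heq
      have hZ' : Z ∈ kk s h e' := by rw [heq]; exact hZ
      have h1 : ∀ x y, dotB e (adS s h Z x) y + dotB e x (adS s h Z y) +
          t * (dotB e v (adS s h Z x) * dotB e v y + dotB e v x * dotB e v (adS s h Z y)) =
          0 := by
        intro x y
        have h2 := hZ' x y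
        rw [hdot, hdot] at h2
        linarith
      have h2 := hmain t ht _ ⟨Z, rfl⟩ h1 (D v)
      have h3 := hZ v (D v)
      change dotB e (D v) (D v) + dotB e v (D (D v)) = 0 at h3
      change dotB e v (D (D v)) = 0 at h2
      have h4 := dotB_pos e (D v) hDv
      linarith
  have := Submodule.finrank_lt_finrank_of_lt hlt
  have := hmin e' hneg'
  omega

end Pool.Agent.Lib.P6ec3b3
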