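import Pool.Agent.Lib.P6ec3b3.Ops

/-!
# A nonzero nilpotent structure has a central element in the derived algebra
-/

open Module

namespace Pool.Agent.Lib.P6ec3b3

/-- A commuting family of nilpotent maps has a common kernel vector in any nonzero invariant
subspace. -/
theorem exists_common_kernel {V : Type*} [AddCommGroup V] [Module ℝ V] {α : Type*}
    (T : α → V →ₗ[ℝ] V) (U : Submodule ℝ V) (hU : ∃ u ∈ U, u ≠ 0)
    (hinv : ∀ a, ∀ u ∈ U, T a u ∈ U) (hcomm : ∀ a b, ∀ u ∈ U, T a (T b u) = T b (T a u))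
    (hnil : ∀ a, ∃ P : ℕ, T a ^ P = 0) (s : Finset α) :
    ∃ u ∈ U, u ≠ 0 ∧ ∀ a ∈ s, T a u = 0 := by
  classical
  induction s using Finset.induction_on with
  | empty =>
    obtain ⟨u, hu, hu0⟩ := hU
    exact ⟨u, hu, hu0, by simp⟩
  | insert a s _ ih =>
    obtain ⟨u, hu, hu0, hs⟩ := ih
    have hpow : ∀ (j : ℕ), (T a ^ j) u ∈ U := by
      intro j
      induction j with
      | zero => simpa using hu
      | succ j ihj =>
        rw [pow_succ', Module.End.mul_apply]
        exact hinv a _ ihj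
    have hb : ∀ b ∈ s, ∀ j : ℕ, T b ((T a ^ j) u) = 0 := by
      intro b hb j
      induction j with
      | zero => simpa using hs b hb
      | succ j ihj =>
        rw [pow_succ', Module.End.mul_apply, hcomm b a _ (hpow j), ihj, map_zero]
    have hex : ∃ j : ℕ, (T a ^ j) u = 0 := by
      obtain ⟨P, hP⟩ := hnil a
      exact ⟨P, by rw [hP]; rfl⟩
    have h1 := Nat.find_spec hex
    have h2 : Nat.find hex ≠ 0 := by
      intro h
      rw [h] at h1
      exact hu0 (by simpa using h1)
    obtain ⟨j, hj⟩ := Nat.exists_eq_succ_of_ne_zero h2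
    have h3 : (T a ^ j) u ≠ 0 := Nat.find_min hex (by omega)
    refine ⟨_, hpow j, h3, ?_⟩
    intro b hbm
    rcases Finset.mem_insert.mp hbm with rfl | hbm
    · rw [hj, Nat.succ_eq_add_one, pow_succ', Module.End.mul_apply] at h1
      exact h1
    · exact hb b hbm j

section

variable {ι : Type*} [Fintype ι]

/-- `ad E_i` in coordinates. -/
def adL (c : SC ι) (i : ι) : (ι → ℝ) →ₗ[ℝ] (ι → ℝ) where
  toFun v k := ∑ j, v j * c i j k
  map_add' v w := by
    funext k
    simp only [Pi.add_apply, add_mul, Finset.sum_add_distrib]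
  map_smul' r v := by
    funext k
    simp only [Pi.smul_apply, smul_eq_mul, RingHom.id_apply, Finset.mul_sum]
    exact Finset.sum_congr rfl fun l _ => by ring

theorem adL_apply (c : SC ι) (i : ι) (v : ι → ℝ) (k : ι) : adL c i v k = ∑ j, v j * c i j k := rfl

/-- The Jacobi identity for arrays. -/
def Jac (c : SC ι) : Prop :=
  ∀ i j l k, ∑ q, (c i j q * c q l k + c j l q * c q i k + c l i q * c q j k) = 0

theorem adL_comm (c : SC ι) (anti : ∀ i j k, c i j k = -c j i k) (jac : Jac c) (i j : ι)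
    (v : ι → ℝ) :
    adL c i (adL c j v) = adL c j (adL c i v) + ∑ q, c i j q • adL c q v := by
  funext k
  simp only [Pi.add_apply, Finset.sum_apply, Pi.smul_apply, smul_eq_mul, adL_apply,
    Finset.mul_sum, Finset.sum_mul]
  rw [Finset.sum_comm, Finset.sum_comm (f := fun q l => v l * c i l q * c j q k),
    Finset.sum_comm (f := fun q l => c i j q * (v l * c q l k)), ← Finset.sum_add_distrib]
  refine Finset.sum_congr rfl fun l _ => ?_
  have h := jac i j l k
  have h1 : ∑ q, v l * c j l q * c i q k - ∑ q, v l * c i l q * c j q k -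
      ∑ q, c i j q * (v l * c q l k) = -v l *
      ∑ q, (c i j q * c q l k + c j l q * c q i k + c l i q * c q j k) := by
    rw [Finset.mul_sum, ← Finset.sum_sub_distrib, ← Finset.sum_sub_distrib]
    refine Finset.sum_congr rfl fun q _ => ?_
    rw [anti i q k, anti i l q, anti j q k]
    ring
  rw [h, mul_zero] at h1
  linarith

end

section

variable {α β : Type*} [Fintype α] [Fintype β]

/-- All words of length `m` in the `ad E_b`, `b ∈ β`, kill `v`. -/
def Wn (c : SC (α ⊕ β)) : ℕ → (α ⊕ β → ℝ) → Prop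
  | 0, v => v = 0
  | m + 1, v => ∀ b : β, Wn c m (adL c (Sum.inr b) v)

theorem exists_killed (c : SC (α ⊕ β)) (U : Submodule ℝ (α ⊕ β → ℝ))
    (hinv : ∀ b : β, ∀ u ∈ U, adL c (Sum.inr b) u ∈ U) (m : ℕ) :
    ∀ v ∈ U, v ≠ 0 → Wn c m v → ∃ u ∈ U, u ≠ 0 ∧ ∀ b : β, adL c (Sum.inr b) u = 0 := by
  induction m with
  | zero => intro v _ hv0 h; exact absurd h hv0
  | succ m ih =>
    intro v hv hv0 h
    by_cases h1 : ∀ b : β, adL c (Sum.inr b) v = 0
    · exact ⟨v, hv, hv0, h1⟩
    · push Not at h1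
      obtain ⟨b, hb⟩ := h1
      exact ih _ (hinv b v hv) hb (h b)

/-- Milnor's argument. -/
theorem milnor (c : SC (α ⊕ β)) (anti : ∀ i j k, c i j k = -c j i k) (jac : Jac c)
    (out : ∀ i j a, c i j (Sum.inl a) = 0) {K : ℕ} (word : ∀ v, Wn c K v)
    (hnil : ∀ a : α, ∃ P : ℕ, adL c (Sum.inl a) ^ P = 0) (hne : c ≠ 0) :
    ∃ z : α ⊕ β → ℝ, (∀ a, z (Sum.inl a) = 0) ∧
      0 < ∑ k, ∑ l, mM c k l * z k * z l := by
  set U0 : Submodule ℝ (α ⊕ β → ℝ) :=
    Submodule.span ℝ (Set.range fun p : (α ⊕ β) × (α ⊕ β) => c p.1 p.2) with hU0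
  have hadU0 : ∀ i v, adL c i v ∈ U0 := by
    intro i v
    have : adL c i v = ∑ j, v j • c i j := by
      funext k
      rw [adL_apply, Finset.sum_apply]
      rfl
    rw [this]
    exact Submodule.sum_mem _ fun j _ => Submodule.smul_mem _ _
      (Submodule.subset_span ⟨(i, j), rfl⟩)
  -- vectors killed by all `ad E_b`
  let U1 : Submodule ℝ (α ⊕ β → ℝ) :=
    { carrier := {u | u ∈ U0 ∧ ∀ b : β, adL c (Sum.inr b) u = 0}
      add_mem' := by
        intro u v hu hv
        exact ⟨add_mem hu.1 hv.1, fun b => by rw [map_add, hu.2 b, hv.2 b, add_zero]⟩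
      zero_mem' := ⟨zero_mem _, fun b => map_zero _⟩
      smul_mem' := by
        intro r u hu
        exact ⟨U0.smul_mem r hu.1, fun b => by rw [map_smul, hu.2 b, smul_zero]⟩ }
  have hU1 : ∃ u ∈ U1, u ≠ 0 := by
    have : ∃ i j, c i j ≠ 0 := by
      by_contra h
      push Not at h
      exact hne (by funext i j; exact h i j)
    obtain ⟨i, j, hij⟩ := this
    obtain ⟨u, hu, hu0, hk⟩ := exists_killed c U0 (fun b u _ => hadU0 _ u) K (c i j)
      (Submodule.subset_span ⟨(i, j), rfl⟩) hij (word _)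
    exact ⟨u, ⟨hu, hk⟩, hu0⟩
  have hkill : ∀ i j : α ⊕ β, ∀ u ∈ U1, ∑ q, c i j q • adL c q u = 0 := by
    intro i j u hu
    rw [Fintype.sum_sum_type]
    simp only [out, zero_smul, Finset.sum_const_zero, zero_add]
    refine Finset.sum_eq_zero fun b _ => ?_
    rw [hu.2 b, smul_zero]
  have hcomm : ∀ i j : α ⊕ β, ∀ u ∈ U1, adL c i (adL c j u) = adL c j (adL c i u) := by
    intro i j u hu
    rw [adL_comm c anti jac i j u, hkill i j u hu, add_zero]
  have hinv : ∀ a : α, ∀ u ∈ U1, adL c (Sum.inl a) u ∈ U1 := by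
    intro a u hu
    refine ⟨hadU0 _ _, fun b => ?_⟩
    rw [hcomm _ _ u hu, hu.2 b, map_zero]
  obtain ⟨z, hz, hz0, hza⟩ := exists_common_kernel (fun a : α => adL c (Sum.inl a)) U1 hU1 hinv
    (fun a b u hu => hcomm _ _ u hu) hnil Finset.univ
  have hcen : ∀ i, adL c i z = 0 := by
    intro i
    rcases i with a | b
    · exact hza a (Finset.mem_univ a)
    · exact hz.2 b
  have hz1 : ∀ a, z (Sum.inl a) = 0 := by
    have : ∀ u ∈ U0, ∀ a, u (Sum.inl a) = 0 := by
      intro u hu a
      refine Submodule.span_induction ?_ ?_ ?_ ?_ hu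
      · rintro _ ⟨p, rfl⟩
        exact out _ _ a
      · rfl
      · intro x y _ _ hx hy
        rw [Pi.add_apply, hx, hy, add_zero]
      · intro r x _ hx
        rw [Pi.smul_apply, hx, smul_zero]
    exact this z hz.1
  refine ⟨z, hz1, ?_⟩
  -- pairing with the brackets
  have hpair : ∃ i j, ∑ k, c i j k * z k ≠ 0 := by
    by_contra h
    push Not at h
    have h1 : ∀ u ∈ U0, ∑ k, u k * z k = 0 := by
      intro u hu
      refine Submodule.span_induction ?_ ?_ ?_ ?_ hu
      · rintro _ ⟨p, rfl⟩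
        exact h _ _
      · simp
      · intro x y _ _ hx hy
        simp only [Pi.add_apply, add_mul, Finset.sum_add_distrib, hx, hy, add_zero]
      · intro r x _ hx
        simp only [Pi.smul_apply, smul_eq_mul, mul_assoc, ← Finset.mul_sum, hx, mul_zero]
    have h2 := h1 z hz.1
    apply hz0
    funext k
    have h3 := (Finset.sum_eq_zero_iff_of_nonneg fun k _ => mul_self_nonneg (z k)).mp h2 k
      (Finset.mem_univ k)
    exact mul_self_eq_zero.mp h3
  have hval : ∑ k, ∑ l, mM c k l * z k * z l =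
      (1 / 4) * ∑ i, ∑ j, (∑ k, c i j k * z k) ^ 2 := by
    have e1 : ∑ k, ∑ l, mM c k l * z k * z l =
        -(1 / 2) * (∑ k, ∑ l, (∑ i, ∑ q, c k i q * c l i q) * z k * z l) +
        (1 / 4) * ∑ k, ∑ l, (∑ i, ∑ j, c i j k * c i j l) * z k * z l := by
      rw [Finset.mul_sum, Finset.mul_sum, ← Finset.sum_add_distrib]
      refine Finset.sum_congr rfl fun k _ => ?_
      rw [Finset.mul_sum, Finset.mul_sum, ← Finset.sum_add_distrib]
      refine Finset.sum_congr rfl fun l _ => ?_
      rw [mM]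
      ring
    have e2 : ∑ k, ∑ l, (∑ i, ∑ q, c k i q * c l i q) * z k * z l = 0 := by
      have h1 : ∀ l, ∑ k, (∑ i, ∑ q, c k i q * c l i q) * z k = 0 := by
        intro l
        have h2 : ∀ k, (∑ i, ∑ q, c k i q * c l i q) * z k =
            ∑ i, ∑ q, c l i q * (z k * c k i q) := by
          intro k
          simp only [Finset.sum_mul]
          exact Finset.sum_congr rfl fun i _ => Finset.sum_congr rfl fun q _ => by ring
        simp only [h2]
        rw [Finset.sum_comm]
        refine Finset.sum_eq_zero fun i _ => ?_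
        rw [Finset.sum_comm]
        refine Finset.sum_eq_zero fun q _ => ?_
        rw [← Finset.mul_sum]
        have h3 : ∑ k, z k * c k i q = 0 := by
          have h4 := congrFun (hcen i) q
          rw [adL_apply] at h4
          rw [Pi.zero_apply] at h4
          rw [← neg_eq_zero, ← h4, ← Finset.sum_neg_distrib]
          refine Finset.sum_congr rfl fun k _ => ?_
          rw [anti k i q]; ring
        rw [h3, mul_zero]
      rw [Finset.sum_comm]
      refine Finset.sum_eq_zero fun l _ => ?_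
      rw [← Finset.sum_mul, h1, zero_mul]
    have e3 : ∑ k, ∑ l, (∑ i, ∑ j, c i j k * c i j l) * z k * z l =
        ∑ i, ∑ j, (∑ k, c i j k * z k) ^ 2 := by
      have h1 : ∀ i j, (∑ k, c i j k * z k) ^ 2 = ∑ k, ∑ l, c i j k * c i j l * z k * z l := by
        intro i j
        rw [sq, Finset.sum_mul_sum]
        exact Finset.sum_congr rfl fun i _ => Finset.sum_congr rfl fun q _ => by ring
      have s1 : ∀ k, ∑ l, (∑ i, ∑ j, c i j k * c i j l) * z k * z l =
          ∑ i, ∑ j, ∑ l, c i j k * c i j l * z k * z l := by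
        intro k
        simp only [Finset.sum_mul]
        rw [Finset.sum_comm]
        refine Finset.sum_congr rfl fun i _ => Finset.sum_comm
      rw [Finset.sum_congr rfl fun k _ => s1 k, Finset.sum_comm]
      refine Finset.sum_congr rfl fun i _ => ?_
      rw [Finset.sum_comm]
      exact Finset.sum_congr rfl fun j _ => (h1 i j).symm
    rw [e1, e2, e3]
    ring
  rw [hval]
  obtain ⟨i, j, hij⟩ := hpair
  have h1 : 0 < (∑ k, c i j k * z k) ^ 2 := by positivity
  have h2 : (∑ k, c i j k * z k) ^ 2 ≤ ∑ j, (∑ k, c i j k * z k) ^ 2 :=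
    Finset.single_le_sum (f := fun j => (∑ k, c i j k * z k) ^ 2) (fun j _ => sq_nonneg _)
      (Finset.mem_univ j)
  have h3 : ∑ j, (∑ k, c i j k * z k) ^ 2 ≤ ∑ i, ∑ j, (∑ k, c i j k * z k) ^ 2 :=
    Finset.single_le_sum (f := fun i => ∑ j, (∑ k, c i j k * z k) ^ 2)
      (fun i _ => Finset.sum_nonneg fun j _ => sq_nonneg _) (Finset.mem_univ i)
  linarith

end

end Pool.Agent.Lib.P6ec3b3
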