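import Pool.Agent.Lib.P6ec3b3.LieFacts

/-!
# The nilradical of a solvable Lie algebra
-/

open Module LieAlgebra

namespace Pool.Agent.Lib.P6ec3b3

variable {g : Type*} [LieRing g] [LieAlgebra ℝ g]

theorem lie_mem_nilradical [FiniteDimensional ℝ g] [LieAlgebra.IsSolvable g] (n : LieIdeal ℝ g)
    (hn : IsGreatest {I : LieIdeal ℝ g | LieRing.IsNilpotent I} n) (x y : g) : ⁅x, y⁆ ∈ n := by
  have h1 : ActsNil (derivedSeries ℝ g 1) := (actsNil_iff _).mpr derived_nilpotent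
  have h2 : derivedSeries ℝ g 1 ≤ n := hn.2 ((nilpotent_iff_actsNil _).mpr h1)
  apply h2
  change ⁅x, y⁆ ∈ ⁅(⊤ : LieIdeal ℝ g), (⊤ : LieIdeal ℝ g)⁆
  exact LieSubmodule.lie_mem_lie (LieSubmodule.mem_top x) (LieSubmodule.mem_top y)

theorem mem_of_centralizes (n : LieIdeal ℝ g) (hgn : ∀ x y : g, ⁅x, y⁆ ∈ n) (hnil : ActsNil n)
    (hmax : ∀ I : LieIdeal ℝ g, ActsNil I → I ≤ n) (Z : g) (hZ : ∀ x ∈ n, ⁅Z, x⁆ = 0) :
    Z ∈ n := by
  let I : LieIdeal ℝ g :=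
    { toSubmodule := Submodule.span ℝ {Z} ⊔ LieSubmodule.toSubmodule n
      lie_mem := fun {x m} _ => Submodule.mem_sup_right (hgn x m) }
  have hIn : ∀ N : LieSubmodule ℝ g g, ⁅I, N⁆ ≤ n := by
    intro N
    rw [LieSubmodule.lie_le_iff]
    intro x _ m _
    exact hgn x m
  obtain ⟨K, hK⟩ := hnil
  have key : ∀ k, I.lcs g (k + 1) ≤ n.lcs g k := by
    intro k
    induction k with
    | zero => simp
    | succ k ih =>
      rw [LieIdeal.lcs_succ, LieIdeal.lcs_succ _ _ k, LieSubmodule.lie_le_iff]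
      intro x hx m hm
      have hx' : x ∈ Submodule.span ℝ {Z} ⊔ LieSubmodule.toSubmodule n := hx
      obtain ⟨y, hy, a, ha, rfl⟩ := Submodule.mem_sup.mp hx'
      obtain ⟨r, rfl⟩ := Submodule.mem_span_singleton.mp hy
      have hmn : m ∈ n := hIn _ hm
      have hm' : m ∈ I.lcs g (k + 1) := by rw [LieIdeal.lcs_succ]; exact hm
      rw [add_lie, smul_lie, hZ m hmn, smul_zero, zero_add, LieIdeal.lcs_succ]
      exact LieSubmodule.lie_mem_lie ha (ih hm')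
  have hI : ActsNil I := ⟨K + 1, by rw [eq_bot_iff, ← hK]; exact key K⟩
  exact hmax I hI (Submodule.mem_sup_left (Submodule.mem_span_singleton_self Z))

theorem nilradical_ne_bot [Nontrivial g] (n : LieIdeal ℝ g) (hgn : ∀ x y : g, ⁅x, y⁆ ∈ n)
    (hmax : ∀ I : LieIdeal ℝ g, ActsNil I → I ≤ n) : n ≠ ⊥ := by
  intro h0
  have h1 : ActsNil (⊤ : LieIdeal ℝ g) := by
    refine ⟨1, ?_⟩
    rw [LieIdeal.lcs_succ, LieSubmodule.lie_eq_bot_iff]
    intro x _ m _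
    have := hgn x m
    rwa [h0, LieSubmodule.mem_bot] at this
  have h2 := hmax _ h1
  obtain ⟨x, hx⟩ := exists_ne (0 : g)
  have h3 := h2 (LieSubmodule.mem_top x)
  rw [h0, LieSubmodule.mem_bot] at h3
  exact hx h3

end Pool.Agent.Lib.P6ec3b3
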