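import Pool.Agent.Lib.P6ec3b3.Coord

/-!
# The infinitesimal action of matrices on structure constants
-/

open Module

namespace Pool.Agent.Lib.P6ec3b3

variable {ι : Type*} [Fintype ι]

/-- Action on the output. -/
def opO (u : Matrix ι ι ℝ) : SC ι →ₗ[ℝ] SC ι where
  toFun c i j k := ∑ l, u k l * c i j l
  map_add' c d := by
    funext i j k
    simp only [Pi.add_apply, mul_add, Finset.sum_add_distrib]
  map_smul' r c := by
    funext i j k
    simp only [Pi.smul_apply, smul_eq_mul, RingHom.id_apply, Finset.mul_sum]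
    exact Finset.sum_congr rfl fun l _ => by ring

/-- Action on the first input. -/
def opL (u : Matrix ι ι ℝ) : SC ι →ₗ[ℝ] SC ι where
  toFun c i j k := ∑ q, u q i * c q j k
  map_add' c d := by
    funext i j k
    simp only [Pi.add_apply, mul_add, Finset.sum_add_distrib]
  map_smul' r c := by
    funext i j k
    simp only [Pi.smul_apply, smul_eq_mul, RingHom.id_apply, Finset.mul_sum]
    exact Finset.sum_congr rfl fun l _ => by ring

/-- Action on the second input. -/
def opR (u : Matrix ι ι ℝ) : SC ι →ₗ[ℝ] SC ι where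
  toFun c i j k := ∑ q, u q j * c i q k
  map_add' c d := by
    funext i j k
    simp only [Pi.add_apply, mul_add, Finset.sum_add_distrib]
  map_smul' r c := by
    funext i j k
    simp only [Pi.smul_apply, smul_eq_mul, RingHom.id_apply, Finset.mul_sum]
    exact Finset.sum_congr rfl fun l _ => by ring

theorem opO_apply (u : Matrix ι ι ℝ) (c : SC ι) (i j k : ι) :
    opO u c i j k = ∑ l, u k l * c i j l := rfl

theorem opL_apply (u : Matrix ι ι ℝ) (c : SC ι) (i j k : ι) :
    opL u c i j k = ∑ q, u q i * c q j k := rfl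

theorem opR_apply (u : Matrix ι ι ℝ) (c : SC ι) (i j k : ι) :
    opR u c i j k = ∑ q, u q j * c i q k := rfl

/-- The infinitesimal action. -/
def piU (u : Matrix ι ι ℝ) : SC ι →ₗ[ℝ] SC ι := opO u - opL u - opR u

theorem piU_apply (u : Matrix ι ι ℝ) (c : SC ι) (i j k : ι) :
    piU u c i j k = ∑ l, u k l * c i j l - ∑ q, u q i * c q j k - ∑ q, u q j * c i q k := rfl

theorem opO_mul (u v : Matrix ι ι ℝ) : opO u * opO v = opO (u * v) := by
  refine LinearMap.ext fun c => ?_
  funext i j k
  change ∑ l, u k l * ∑ m, v l m * c i j m = ∑ m, (u * v) k m * c i j m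
  simp only [Matrix.mul_apply, Finset.mul_sum, Finset.sum_mul]
  rw [Finset.sum_comm]
  exact Finset.sum_congr rfl fun l _ => Finset.sum_congr rfl fun m _ => by ring

theorem opL_mul (u v : Matrix ι ι ℝ) : opL u * opL v = opL (v * u) := by
  refine LinearMap.ext fun c => ?_
  funext i j k
  change ∑ l, u l i * ∑ m, v m l * c m j k = ∑ m, (v * u) m i * c m j k
  simp only [Matrix.mul_apply, Finset.mul_sum, Finset.sum_mul]
  rw [Finset.sum_comm]
  exact Finset.sum_congr rfl fun l _ => Finset.sum_congr rfl fun m _ => by ring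

theorem opR_mul (u v : Matrix ι ι ℝ) : opR u * opR v = opR (v * u) := by
  refine LinearMap.ext fun c => ?_
  funext i j k
  change ∑ l, u l j * ∑ m, v m l * c i m k = ∑ m, (v * u) m j * c i m k
  simp only [Matrix.mul_apply, Finset.mul_sum, Finset.sum_mul]
  rw [Finset.sum_comm]
  exact Finset.sum_congr rfl fun l _ => Finset.sum_congr rfl fun m _ => by ring

theorem opO_opL (u v : Matrix ι ι ℝ) : opO u * opL v = opL v * opO u := by
  refine LinearMap.ext fun c => ?_
  funext i j k
  change ∑ l, u k l * ∑ m, v m i * c m j l = ∑ m, v m i * ∑ l, u k l * c m j l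
  simp only [Finset.mul_sum]
  rw [Finset.sum_comm]
  exact Finset.sum_congr rfl fun l _ => Finset.sum_congr rfl fun m _ => by ring

theorem opO_opR (u v : Matrix ι ι ℝ) : opO u * opR v = opR v * opO u := by
  refine LinearMap.ext fun c => ?_
  funext i j k
  change ∑ l, u k l * ∑ m, v m j * c i m l = ∑ m, v m j * ∑ l, u k l * c i m l
  simp only [Finset.mul_sum]
  rw [Finset.sum_comm]
  exact Finset.sum_congr rfl fun l _ => Finset.sum_congr rfl fun m _ => by ring

theorem opL_opR (u v : Matrix ι ι ℝ) : opL u * opR v = opR v * opL u := by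
  refine LinearMap.ext fun c => ?_
  funext i j k
  change ∑ l, u l i * ∑ m, v m j * c l m k = ∑ m, v m j * ∑ l, u l i * c l m k
  simp only [Finset.mul_sum]
  rw [Finset.sum_comm]
  exact Finset.sum_congr rfl fun l _ => Finset.sum_congr rfl fun m _ => by ring

theorem opO_sub (u v : Matrix ι ι ℝ) : opO (u - v) = opO u - opO v := by
  refine LinearMap.ext fun c => ?_
  funext i j k
  change ∑ l, (u - v) k l * c i j l = ∑ l, u k l * c i j l - ∑ l, v k l * c i j l
  rw [← Finset.sum_sub_distrib]
  exact Finset.sum_congr rfl fun l _ => by rw [Matrix.sub_apply]; ring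

theorem opL_sub (u v : Matrix ι ι ℝ) : opL (u - v) = opL u - opL v := by
  refine LinearMap.ext fun c => ?_
  funext i j k
  change ∑ l, (u - v) l i * c l j k = ∑ l, u l i * c l j k - ∑ l, v l i * c l j k
  rw [← Finset.sum_sub_distrib]
  exact Finset.sum_congr rfl fun l _ => by rw [Matrix.sub_apply]; ring

theorem opR_sub (u v : Matrix ι ι ℝ) : opR (u - v) = opR u - opR v := by
  refine LinearMap.ext fun c => ?_
  funext i j k
  change ∑ l, (u - v) l j * c i l k = ∑ l, u l j * c i l k - ∑ l, v l j * c i l k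
  rw [← Finset.sum_sub_distrib]
  exact Finset.sum_congr rfl fun l _ => by rw [Matrix.sub_apply]; ring

theorem piU_comm (u v : Matrix ι ι ℝ) :
    piU u * piU v - piU v * piU u = piU (u * v - v * u) := by
  unfold piU
  rw [opO_sub, opL_sub, opR_sub, ← opO_mul, ← opO_mul, ← opL_mul, ← opL_mul, ← opR_mul, ← opR_mul]
  simp only [mul_sub, sub_mul]
  rw [← opO_opL u v, ← opO_opL v u, ← opO_opR u v, ← opO_opR v u, ← opL_opR u v, ← opL_opR v u]
  abel

/-- The inner product of arrays. -/
def ip (c d : SC ι) : ℝ := ∑ i, ∑ j, ∑ k, c i j k * d i j k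

theorem ip_sub_left (c c' d : SC ι) : ip (c - c') d = ip c d - ip c' d := by
  unfold ip
  simp only [Pi.sub_apply, sub_mul, Finset.sum_sub_distrib]

theorem ip_sub_right (c d d' : SC ι) : ip c (d - d') = ip c d - ip c d' := by
  unfold ip
  simp only [Pi.sub_apply, mul_sub, Finset.sum_sub_distrib]

theorem ip_self_eq_zero {c : SC ι} (h : ip c c = 0) : c = 0 := by
  have h0 : ∀ i j k, 0 ≤ c i j k * c i j k := fun i j k => mul_self_nonneg _
  have h1 : ∀ i j, 0 ≤ ∑ k, c i j k * c i j k := fun i j => Finset.sum_nonneg fun k _ => h0 i j k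
  have h2 : ∀ i, 0 ≤ ∑ j, ∑ k, c i j k * c i j k := fun i => Finset.sum_nonneg fun j _ => h1 i j
  funext i j k
  have a1 := (Finset.sum_eq_zero_iff_of_nonneg fun i _ => h2 i).mp h i (Finset.mem_univ _)
  have a2 := (Finset.sum_eq_zero_iff_of_nonneg fun j _ => h1 i j).mp a1 j (Finset.mem_univ _)
  have a3 := (Finset.sum_eq_zero_iff_of_nonneg fun k _ => h0 i j k).mp a2 k (Finset.mem_univ _)
  exact mul_self_eq_zero.mp a3

theorem ip_self_nonneg (c : SC ι) : 0 ≤ ip c c :=
  Finset.sum_nonneg fun _ _ => Finset.sum_nonneg fun _ _ => Finset.sum_nonneg fun _ _ =>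
    mul_self_nonneg _

theorem ip_opO (u : Matrix ι ι ℝ) (c d : SC ι) : ip (opO u c) d = ip c (opO u.transpose d) := by
  unfold ip
  refine Finset.sum_congr rfl fun i _ => Finset.sum_congr rfl fun j _ => ?_
  simp only [opO_apply, Finset.mul_sum, Finset.sum_mul]
  rw [Finset.sum_comm]
  exact Finset.sum_congr rfl fun k _ => Finset.sum_congr rfl fun l _ => by
    rw [Matrix.transpose_apply]; ring

theorem ip_opL (u : Matrix ι ι ℝ) (c d : SC ι) : ip (opL u c) d = ip c (opL u.transpose d) := by
  unfold ip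
  simp only [opL_apply, Finset.mul_sum, Finset.sum_mul]
  have e1 : ∀ i : ι, ∑ j, ∑ k, ∑ q, u q i * c q j k * d i j k =
      ∑ q, ∑ j, ∑ k, u q i * c q j k * d i j k := by
    intro i
    rw [Finset.sum_comm]
    rw [Finset.sum_comm]
    have : ∀ j, ∑ k, ∑ q, u q i * c q j k * d i j k = ∑ q, ∑ k, u q i * c q j k * d i j k :=
      fun j => Finset.sum_comm
    simp only [this]
    rw [Finset.sum_comm]
  have e2 : ∀ i : ι, ∑ j, ∑ k, ∑ q, c i j k * (u.transpose q i * d q j k) =
      ∑ q, ∑ j, ∑ k, c i j k * (u.transpose q i * d q j k) := by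
    intro i
    have : ∀ j, ∑ k, ∑ q, c i j k * (u.transpose q i * d q j k) =
      ∑ q, ∑ k, c i j k * (u.transpose q i * d q j k) :=
      fun j => Finset.sum_comm
    simp only [this]
    rw [Finset.sum_comm]
  simp only [e1, e2]
  rw [Finset.sum_comm]
  exact Finset.sum_congr rfl fun k _ => Finset.sum_congr rfl fun l _ =>
    Finset.sum_congr rfl fun i _ => Finset.sum_congr rfl fun j _ => by
    rw [Matrix.transpose_apply]; ring

theorem ip_opR (u : Matrix ι ι ℝ) (c d : SC ι) : ip (opR u c) d = ip c (opR u.transpose d) := by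
  unfold ip
  refine Finset.sum_congr rfl fun i _ => ?_
  simp only [opR_apply, Finset.mul_sum, Finset.sum_mul]
  have e1 : ∀ j, ∑ k, ∑ q, u q j * c i q k * d i j k =
      ∑ q, ∑ k, u q j * c i q k * d i j k := fun j => Finset.sum_comm
  have e2 : ∀ j, ∑ k, ∑ q, c i j k * (u.transpose q j * d i q k) =
      ∑ q, ∑ k, c i j k * (u.transpose q j * d i q k) := fun j => Finset.sum_comm
  simp only [e1, e2]
  rw [Finset.sum_comm]
  exact Finset.sum_congr rfl fun k _ => Finset.sum_congr rfl fun l _ =>
    Finset.sum_congr rfl fun i _ => by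
    rw [Matrix.transpose_apply]; ring

theorem ip_piU (u : Matrix ι ι ℝ) (c d : SC ι) : ip (piU u c) d = ip c (piU u.transpose d) := by
  unfold piU
  simp only [LinearMap.sub_apply, ip_sub_left, ip_sub_right, ip_opO, ip_opL, ip_opR]

/-- Polarised moment map. -/
noncomputable def mM2 (c d : SC ι) (k l : ι) : ℝ :=
  -(1 / 2) * ∑ i, ∑ q, c k i q * d l i q + (1 / 4) * ∑ i, ∑ j, c i j k * d i j l

theorem mM_eq_mM2 (c : SC ι) (k l : ι) : mM c k l = mM2 c c k l := rfl

theorem mM2_symm (c d : SC ι) (k l : ι) : mM2 c d k l = mM2 d c l k := by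
  unfold mM2
  simp only [mul_comm]

theorem ip_opL_eq_opR (u : Matrix ι ι ℝ) (c d : SC ι) (hc : ∀ i j k, c i j k = -c j i k)
    (hd : ∀ i j k, d i j k = -d j i k) : ip (opL u c) d = ip (opR u c) d := by
  unfold ip
  rw [Finset.sum_comm]
  refine Finset.sum_congr rfl fun i _ => Finset.sum_congr rfl fun j _ =>
    Finset.sum_congr rfl fun k _ => ?_
  rw [opL_apply, opR_apply, hd j i k, Finset.sum_mul, Finset.sum_mul]
  refine Finset.sum_congr rfl fun q _ => ?_
  rw [hc q i k]
  ring

theorem sum_mul_mM2 (u : Matrix ι ι ℝ) (hu : u.transpose = u) (c d : SC ι)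
    (hc : ∀ i j k, c i j k = -c j i k) (hd : ∀ i j k, d i j k = -d j i k) :
    4 * ∑ k, ∑ l, u k l * mM2 c d k l = ip (piU u c) d := by
  have h1 : ip (piU u c) d = ip (opO u c) d - 2 * ip (opL u c) d := by
    unfold piU
    simp only [LinearMap.sub_apply, ip_sub_left]
    rw [← ip_opL_eq_opR u c d hc hd]
    ring
  rw [h1]
  have h2 : ip (opO u c) d = ∑ k, ∑ l, u k l * ∑ i, ∑ j, c i j k * d i j l := by
    unfold ip
    simp only [opO_apply, Finset.sum_mul, Finset.mul_sum]
    have e1 : ∀ i j : ι, ∑ k, ∑ l, u k l * c i j l * d i j k =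
        ∑ k, ∑ l, u k l * (c i j k * d i j l) := by
      intro i j
      rw [Finset.sum_comm]
      refine Finset.sum_congr rfl fun k _ => Finset.sum_congr rfl fun l _ => ?_
      have : u l k = u k l := by
        conv_lhs => rw [← hu]
        rfl
      rw [this]; ring
    simp only [e1]
    have e2 : ∀ i : ι, ∑ j, ∑ k, ∑ l, u k l * (c i j k * d i j l) =
        ∑ k, ∑ j, ∑ l, u k l * (c i j k * d i j l) := fun i => Finset.sum_comm
    simp only [e2]
    rw [Finset.sum_comm]
    refine Finset.sum_congr rfl fun k _ => ?_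
    have e3 : ∀ i : ι, ∑ j, ∑ l, u k l * (c i j k * d i j l) =
        ∑ l, ∑ j, u k l * (c i j k * d i j l) := fun i => Finset.sum_comm
    simp only [e3]
    rw [Finset.sum_comm]
  have h3 : ip (opL u c) d = ∑ k, ∑ l, u k l * ∑ i, ∑ q, c k i q * d l i q := by
    unfold ip
    simp only [opL_apply, Finset.sum_mul, Finset.mul_sum]
    have e1 : ∀ i : ι, ∑ j, ∑ k, ∑ q, u q i * c q j k * d i j k =
        ∑ q, ∑ j, ∑ k, u q i * (c q j k * d i j k) := by
      intro i
      have : ∀ j, ∑ k, ∑ q, u q i * c q j k * d i j k =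
        ∑ q, ∑ k, u q i * (c q j k * d i j k) := by
        intro j
        rw [Finset.sum_comm]
        exact Finset.sum_congr rfl fun k _ => Finset.sum_congr rfl fun l _ => by ring
      simp only [this]
      rw [Finset.sum_comm]
    simp only [e1]
    rw [Finset.sum_comm]
  rw [h2, h3]
  unfold mM2
  simp only [mul_add, Finset.sum_add_distrib, Finset.mul_sum]
  simp only [← Finset.mul_sum, mul_left_comm _ (-(1 / 2) : ℝ), mul_left_comm _ (1 / 4 : ℝ)]
  ring

/-- If `u` is a derivation of `c` and the moment map is orthogonal to `[u, uᵀ]`, then `uᵀ` is a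
derivation of `c`. -/
theorem transpose_derivation (u : Matrix ι ι ℝ) (c : SC ι) (hc : ∀ i j k, c i j k = -c j i k)
    (h0 : piU u c = 0)
    (h1 : ∑ k, ∑ l, (u * u.transpose - u.transpose * u) k l * mM c k l = 0) :
    piU u.transpose c = 0 := by
  apply ip_self_eq_zero
  have hT : (u * u.transpose - u.transpose * u).transpose = u * u.transpose - u.transpose * u := by
    rw [Matrix.transpose_sub, Matrix.transpose_mul, Matrix.transpose_mul,
      Matrix.transpose_transpose]
  have e1 : ip (piU u.transpose c) (piU u.transpose c) =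
      ip c (piU u (piU u.transpose c)) := by
    rw [ip_piU, Matrix.transpose_transpose]
  have e2 : piU u (piU u.transpose c) = piU (u * u.transpose - u.transpose * u) c := by
    rw [← piU_comm, LinearMap.sub_apply, Module.End.mul_apply, Module.End.mul_apply, h0, map_zero,
      sub_zero]
  have e3 : ip c (piU (u * u.transpose - u.transpose * u) c) =
      ip (piU (u * u.transpose - u.transpose * u) c) c := by
    rw [ip_piU, hT]
  rw [e1, e2, e3, ← sum_mul_mM2 _ hT c c hc hc]
  simp only [← mM_eq_mM2]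
  rw [h1, mul_zero]

end Pool.Agent.Lib.P6ec3b3
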