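import Pool.Agent.Lib.P6ec3b3.Defs

/-!
# Perturbing an inner product to destroy a skew symmetric derivation
-/

open Module

namespace Pool.Agent.Lib.P6ec3b3

section inner

variable {V : Type*} [NormedAddCommGroup V] [InnerProductSpace ℝ V] [FiniteDimensional ℝ V]

theorem exists_eigen (F F' : Submodule ℝ V) (hFF : F ≤ F') (D : V →ₗ[ℝ] V)
    (skew : ∀ x y, inner ℝ (D x) y + inner ℝ x (D y) = 0)
    (hinv' : ∀ x ∈ F', D x ∈ F') (hD0 : ∀ x ∈ F, D x = 0) (hD1 : ∃ x ∈ F', D x ≠ 0) :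
    ∃ (v : V) (μ : ℝ), v ∈ F' ∧ v ∈ Fᗮ ∧ inner ℝ v v = (1 : ℝ) ∧ D (D v) = μ • v ∧ μ ≠ 0 := by
  have hL : ∀ x ∈ F' ⊓ Fᗮ, D x ∈ F' ⊓ Fᗮ := by
    intro x hx
    refine ⟨hinv' x hx.1, ?_⟩
    refine (Submodule.mem_orthogonal _ _).mpr ?_
    intro y hy
    have h1 := skew y x
    rw [hD0 y hy, inner_zero_left, zero_add] at h1
    exact h1
  have hL2 : ∀ x ∈ F' ⊓ Fᗮ, (D ∘ₗ D) x ∈ F' ⊓ Fᗮ := fun x hx => hL _ (hL x hx)
  let T : (F' ⊓ Fᗮ : Submodule ℝ V) →ₗ[ℝ] (F' ⊓ Fᗮ : Submodule ℝ V) := (D ∘ₗ D).restrict hL2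
  have hTs : T.IsSymmetric := by
    intro x y
    change inner ℝ (D (D (x : V))) (y : V) = inner ℝ (x : V) (D (D (y : V)))
    have h1 := skew (D x) y
    have h2 := skew (x : V) (D y)
    linarith
  have hTne : ∃ i, T (hTs.eigenvectorBasis rfl i) ≠ 0 := by
    by_contra h
    push Not at h
    have hT0 : T = 0 := (hTs.eigenvectorBasis rfl).toBasis.ext fun i => by
      rw [OrthonormalBasis.coe_toBasis, h i, LinearMap.zero_apply]
    obtain ⟨x, hx, hx0⟩ := hD1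
    have hy : D x ∈ F' ⊓ Fᗮ := by
      refine ⟨hinv' x hx, ?_⟩
      refine (Submodule.mem_orthogonal _ _).mpr ?_
      intro y hy
      have h1 := skew y x
      rw [hD0 y hy, inner_zero_left, zero_add] at h1
      exact h1
    have h1 : D (D (D x)) = 0 := by
      have h2 := congrArg (fun f => ((f ⟨D x, hy⟩ : (F' ⊓ Fᗮ : Submodule ℝ V)) : V)) hT0
      exact h2
    have h2 : D (D x) = 0 := by
      have h3 := skew (D (D x)) (D x)
      rw [h1, inner_zero_left, zero_add] at h3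
      exact inner_self_eq_zero.mp h3
    have h3 := skew (D x) x
    rw [h2, inner_zero_left, zero_add] at h3
    exact hx0 (inner_self_eq_zero.mp h3)
  obtain ⟨i, hi⟩ := hTne
  have h1 := hTs.apply_eigenvectorBasis rfl i
  set v : (F' ⊓ Fᗮ : Submodule ℝ V) := hTs.eigenvectorBasis rfl i with hv
  refine ⟨v, hTs.eigenvalues rfl i, v.2.1, v.2.2, ?_, ?_, ?_⟩
  · have h2 := (hTs.eigenvectorBasis rfl).inner_eq_one i
    rw [Submodule.coe_inner] at h2
    exact h2
  · have h2 := congrArg (fun x : (F' ⊓ Fᗮ : Submodule ℝ V) => (x : V)) h1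
    exact h2
  · intro h0
    apply hi
    rw [h1, h0]
    simp

theorem perturb_main (𝒢 : Set (V →ₗ[ℝ] V)) (F F' : Submodule ℝ V) (hFF : F ≤ F')
    (hinv : ∀ T ∈ 𝒢, ∀ x ∈ F, T x ∈ F) (hinv' : ∀ T ∈ 𝒢, ∀ x ∈ F', T x ∈ F')
    (hcomm : ∀ T ∈ 𝒢, ∀ T' ∈ 𝒢, ∀ x ∈ F', T (T' x) - T' (T x) ∈ F)
    (D : V →ₗ[ℝ] V) (hD : D ∈ 𝒢)
    (skew : ∀ x y, inner ℝ (D x) y + inner ℝ x (D y) = 0)
    (hD0 : ∀ x ∈ F, D x = 0) (hD1 : ∃ x ∈ F', D x ≠ 0) :
    ∃ v : V, inner ℝ v v = (1 : ℝ) ∧ D v ≠ 0 ∧ ∀ t : ℝ, 0 < t → ∀ T ∈ 𝒢,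
      (∀ x y, inner ℝ (T x) y + inner ℝ x (T y) +
        t * (inner ℝ v (T x) * inner ℝ v y + inner ℝ v x * inner ℝ v (T y)) = 0) →
      ∀ x, inner ℝ v (T x) = (0 : ℝ) := by
  obtain ⟨v, μ, hvF', hvF, hv1, hDD, hμ⟩ := exists_eigen F F' hFF D skew (hinv' D hD) hD0 hD1
  refine ⟨v, hv1, ?_, ?_⟩
  · intro h0
    rw [h0, map_zero] at hDD
    rcases smul_eq_zero.mp hDD.symm with h | h
    · exact hμ h
    · rw [h, inner_zero_left] at hv1
      exact zero_ne_one hv1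
  · intro t ht T hT hE
    have hvx : ∀ x ∈ F, inner ℝ v x = (0 : ℝ) := fun x hx =>
      Submodule.inner_left_of_mem_orthogonal hx hvF
    have hxv : ∀ x ∈ F, inner ℝ x v = (0 : ℝ) := fun x hx =>
      Submodule.inner_right_of_mem_orthogonal hx hvF
    -- step 1: vanishing on F
    have s1 : ∀ x ∈ F, inner ℝ v (T x) = (0 : ℝ) := fun x hx => hvx _ (hinv T hT x hx)
    -- step 2: vanishing on F'ᗮ
    have s2 : ∀ z ∈ F'ᗮ, inner ℝ v (T z) = (0 : ℝ) := by
      intro z hz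
      have h1 := hE z v
      have h2 : inner ℝ z (T v) = (0 : ℝ) :=
        Submodule.inner_left_of_mem_orthogonal (hinv' T hT v hvF') hz
      have h3 : inner ℝ v z = (0 : ℝ) := Submodule.inner_right_of_mem_orthogonal hvF' hz
      have h4 : inner ℝ (T z) v = inner ℝ v (T z) := real_inner_comm _ _
      rw [h2, h3, hv1, h4] at h1
      have h5 : inner ℝ v (T z) * (1 + t) = 0 := by linarith
      rcases mul_eq_zero.mp h5 with h | h
      · exact h
      · linarith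
    -- step 3: T preserves L
    have s3 : ∀ y ∈ F' ⊓ Fᗮ, T y ∈ F' ⊓ Fᗮ := by
      intro y hy
      refine ⟨hinv' T hT y hy.1, ?_⟩
      refine (Submodule.mem_orthogonal _ _).mpr ?_
      intro x hx
      have h1 := hE x y
      have h2 : inner ℝ (T x) y = (0 : ℝ) :=
        Submodule.inner_right_of_mem_orthogonal (hinv T hT x hx) hy.2
      rw [h2, s1 x hx, hvx x hx] at h1
      linarith
    have s4 : ∀ y ∈ F' ⊓ Fᗮ, D y ∈ F' ⊓ Fᗮ := by
      intro y hy
      refine ⟨hinv' D hD y hy.1, ?_⟩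
      refine (Submodule.mem_orthogonal _ _).mpr ?_
      intro x hx
      have h1 := skew x y
      rw [hD0 x hx, inner_zero_left, zero_add] at h1
      exact h1
    have s5 : ∀ x ∈ F' ⊓ Fᗮ, T (D x) = D (T x) := by
      intro x hx
      have h1 := hcomm T hT D hD x hx.1
      have h2 : T (D x) - D (T x) ∈ Fᗮ :=
        Submodule.sub_mem _ (s3 _ (s4 x hx)).2 (s4 _ (s3 x hx)).2
      have h3 : inner ℝ (T (D x) - D (T x)) (T (D x) - D (T x)) = (0 : ℝ) :=
        Submodule.inner_right_of_mem_orthogonal h1 h2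
      exact sub_eq_zero.mp (inner_self_eq_zero.mp h3)
    have hvL : v ∈ F' ⊓ Fᗮ := ⟨hvF', hvF⟩
    have s6 : ∀ x ∈ F' ⊓ Fᗮ, ∀ y ∈ F' ⊓ Fᗮ,
        inner ℝ v (T (D x)) * inner ℝ v y + inner ℝ v (D x) * inner ℝ v (T y) +
        inner ℝ v (T x) * inner ℝ v (D y) + inner ℝ v x * inner ℝ v (T (D y)) = (0 : ℝ) := by
      intro x hx y hy
      have h1 := hE (D x) y
      have h2 := hE x (D y)
      have h3 := skew (T x) y
      have h4 := skew x (T y)
      rw [s5 x hx] at h1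
      rw [s5 y hy] at h2
      rw [s5 x hx, s5 y hy]
      have h5 : t * (inner ℝ v (D (T x)) * inner ℝ v y + inner ℝ v (D x) * inner ℝ v (T y) +
        inner ℝ v (T x) * inner ℝ v (D y) + inner ℝ v x * inner ℝ v (D (T y))) = 0 := by
        linarith
      rcases mul_eq_zero.mp h5 with h | h
      · exact absurd h ht.ne'
      · exact h
    have hvDv : inner ℝ v (D v) = (0 : ℝ) := by
      have h1 := skew v v
      rw [real_inner_comm] at h1
      linarith
    have hDDv : inner ℝ v (D (D v)) = μ := by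
      rw [hDD, inner_smul_right, hv1, mul_one]
    have s7 : ∀ y ∈ F' ⊓ Fᗮ, μ * inner ℝ v (T v) * inner ℝ v y + μ * inner ℝ v (T y) +
        inner ℝ v (T (D v)) * inner ℝ v (D y) = 0 := by
      intro y hy
      have h1 := s6 (D v) (s4 v hvL) y hy
      rw [hDDv, hvDv, hDD, map_smul, inner_smul_right] at h1
      linarith
    have s8 : inner ℝ v (T v) = (0 : ℝ) := by
      have h1 := s7 v hvL
      rw [hv1, hvDv] at h1
      have h2 : μ * inner ℝ v (T v) = 0 := by linarith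
      rcases mul_eq_zero.mp h2 with h | h
      · exact absurd h hμ
      · exact h
    have s9 : inner ℝ v (T (D v)) = (0 : ℝ) := by
      have h1 := s7 (D v) (s4 v hvL)
      rw [hvDv, hDDv] at h1
      have h2 : μ * inner ℝ v (T (D v)) = 0 := by linarith
      rcases mul_eq_zero.mp h2 with h | h
      · exact absurd h hμ
      · exact h
    have s10 : ∀ y ∈ F' ⊓ Fᗮ, inner ℝ v (T y) = (0 : ℝ) := by
      intro y hy
      have h1 := s7 y hy
      rw [s8, s9] at h1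
      have h2 : μ * inner ℝ v (T y) = 0 := by linarith
      rcases mul_eq_zero.mp h2 with h | h
      · exact absurd h hμ
      · exact h
    intro x
    obtain ⟨p, hp, z, hz, rfl⟩ := F'.exists_add_mem_mem_orthogonal x
    obtain ⟨f, hf, l, hl, rfl⟩ := F.exists_add_mem_mem_orthogonal p
    have hl' : l ∈ F' := by
      have := F'.sub_mem hp (hFF hf)
      rwa [add_sub_cancel_left] at this
    rw [map_add, map_add, inner_add_right, inner_add_right, s1 f hf, s2 z hz, s10 l ⟨hl', hl⟩]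
    norm_num

end inner

/-- The version for an abstract positive definite form. -/
theorem perturb (V : Type*) [AddCommGroup V] [Module ℝ V] [FiniteDimensional ℝ V]
    (B : V →ₗ[ℝ] V →ₗ[ℝ] ℝ) (hsymm : ∀ x y, B x y = B y x) (hpos : ∀ x, x ≠ 0 → 0 < B x x)
    (𝒢 : Set (V →ₗ[ℝ] V)) (F F' : Submodule ℝ V) (hFF : F ≤ F')
    (hinv : ∀ T ∈ 𝒢, ∀ x ∈ F, T x ∈ F) (hinv' : ∀ T ∈ 𝒢, ∀ x ∈ F', T x ∈ F')
    (hcomm : ∀ T ∈ 𝒢, ∀ T' ∈ 𝒢, ∀ x ∈ F', T (T' x) - T' (T x) ∈ F)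
    (D : V →ₗ[ℝ] V) (hD : D ∈ 𝒢)
    (skew : ∀ x y, B (D x) y + B x (D y) = 0)
    (hD0 : ∀ x ∈ F, D x = 0) (hD1 : ∃ x ∈ F', D x ≠ 0) :
    ∃ v : V, B v v = (1 : ℝ) ∧ D v ≠ 0 ∧ ∀ t : ℝ, 0 < t → ∀ T ∈ 𝒢,
      (∀ x y, B (T x) y + B x (T y) + t * (B v (T x) * B v y + B v x * B v (T y)) = 0) →
      ∀ x, B v (T x) = (0 : ℝ) := by
  let core : InnerProductSpace.Core ℝ V :=
    { inner := fun x y => B x y
      conj_inner_symm := fun x y => hsymm y x
      re_inner_nonneg := fun x => by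
        by_cases hx : x = 0
        · rw [hx]; simp
        · exact (hpos x hx).le
      add_left := fun x y z => by simp
      smul_left := fun x y r => by simp
      definite := fun x hx => by
        by_contra h
        exact (hpos x h).ne' hx }
  let : NormedAddCommGroup V := core.toNormedAddCommGroup
  let : InnerProductSpace ℝ V := InnerProductSpace.ofCore core.toCore
  exact perturb_main 𝒢 F F' hFF hinv hinv' hcomm D hD skew hD0 hD1

end Pool.Agent.Lib.P6ec3b3
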