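import Pool.Agent.Lib.P6ec3b3.Conseq

/-!
# The rank one structure defined by the mean curvature vector
-/

open Module Filter Topology Polynomial

namespace Pool.Agent.Lib.P6ec3b3

set_option linter.unusedSectionVars false
set_option linter.unusedSimpArgs false

variable {α β : Type*} [Fintype α] [Fintype β]

/-- Structure constants of the subalgebra spanned by `∑ w_a A_a` and the ideal. -/
def rk1 (w : α → ℝ) (c : SC (α ⊕ β)) : SC (Unit ⊕ β)
  | Sum.inr i, Sum.inr j, Sum.inr k => c (Sum.inr i) (Sum.inr j) (Sum.inr k)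
  | Sum.inl _, Sum.inr j, Sum.inr k => ∑ a, w a * c (Sum.inl a) (Sum.inr j) (Sum.inr k)
  | Sum.inr i, Sum.inl _, Sum.inr k => ∑ a, w a * c (Sum.inr i) (Sum.inl a) (Sum.inr k)
  | Sum.inl _, Sum.inl _, _ => 0
  | Sum.inl _, Sum.inr _, Sum.inl _ => 0
  | Sum.inr _, Sum.inl _, Sum.inl _ => 0
  | Sum.inr _, Sum.inr _, Sum.inl _ => 0

theorem rk1_anti (w : α → ℝ) (c : SC (α ⊕ β)) (anti : ∀ i j k, c i j k = -c j i k)
    (i j k : Unit ⊕ β) : rk1 w c i j k = -rk1 w c j i k := by
  rcases i with i | i <;> rcases j with j | j <;> rcases k with k | k <;> simp only [rk1, neg_zero]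
  · rw [← Finset.sum_neg_distrib]
    exact Finset.sum_congr rfl fun a _ => by rw [anti (Sum.inl a)]; ring
  · rw [← Finset.sum_neg_distrib]
    exact Finset.sum_congr rfl fun a _ => by rw [anti (Sum.inr i)]; ring
  · exact anti _ _ _

theorem rk1_out (w : α → ℝ) (c : SC (α ⊕ β)) (i j : Unit ⊕ β) (a : Unit) :
    rk1 w c i j (Sum.inl a) = 0 := by
  rcases i with i | i <;> rcases j with j | j <;> rfl

theorem rk1_f (w : α → ℝ) (c : SC (α ⊕ β)) (a b : Unit) (k : Unit ⊕ β) :
    rk1 w c (Sum.inl a) (Sum.inl b) k = 0 := by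
  rcases k with k | k <;> rfl

theorem rk1_Dm (w : α → ℝ) (c : SC (α ⊕ β)) : Dm (rk1 w c) () = ∑ a, w a • Dm c a := by
  ext l k
  rw [Matrix.sum_apply]
  rfl

theorem rk1_MM (w : α → ℝ) (c : SC (α ⊕ β)) : MM (rk1 w c) = MM c := rfl

theorem continuous_rk1 (w : α → ℝ) : Continuous (rk1 w : SC (α ⊕ β) → SC (Unit ⊕ β)) := by
  refine continuous_pi fun i => continuous_pi fun j => continuous_pi fun k => ?_
  rcases i with i | i <;> rcases j with j | j <;> rcases k with k | k <;> simp only [rk1] <;>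
    fun_prop

variable [DecidableEq β]
variable {K : ℕ} {t : α → ℝ} {χ : α → ℝ[X]} {c : SC (α ⊕ β)} {C : Matrix β β ℝ}

omit [DecidableEq β] in
theorem killM_inr (hg : Good K t χ c) (w : α → ℝ) (k : β) (x : Unit ⊕ β) :
    killM (rk1 w c) (Sum.inr k) x = 0 := by
  rcases x with x | l
  · have h1 : killM (rk1 w c) (Sum.inr k) (Sum.inl x) =
        ∑ a, w a * killM c (Sum.inr k) (Sum.inl a) := by
      unfold killM
      simp only [Fintype.sum_sum_type, rk1_out, rk1, zero_mul, mul_zero, Finset.sum_const_zero,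
        zero_add, hg.out, Finset.mul_sum]
      have e1 : ∀ i : β, ∑ q : β, ∑ a, c (Sum.inr k) (Sum.inr i) (Sum.inr q) *
          (w a * c (Sum.inl a) (Sum.inr q) (Sum.inr i)) = ∑ a, ∑ q : β,
          w a * (c (Sum.inr k) (Sum.inr i) (Sum.inr q) *
            c (Sum.inl a) (Sum.inr q) (Sum.inr i)) := by
        intro i
        rw [Finset.sum_comm]
        exact Finset.sum_congr rfl fun a _ => Finset.sum_congr rfl fun q _ => by ring
      simp only [e1]
      rw [Finset.sum_comm]
    rw [h1]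
    exact Finset.sum_eq_zero fun a _ => by rw [hg.kil, mul_zero]
  · have h1 : killM (rk1 w c) (Sum.inr k) (Sum.inr l) = killM c (Sum.inr k) (Sum.inr l) := by
      unfold killM
      simp only [Fintype.sum_sum_type, rk1_out, rk1, zero_mul, mul_zero, Finset.sum_const_zero,
        zero_add, hg.out]
    rw [h1, hg.kil]

omit [DecidableEq β] in
theorem Hc_inr (hg : Good K t χ c) (w : α → ℝ) (k : β) : Hc (rk1 w c) (Sum.inr k) = 0 := by
  have h1 := hg.trB k
  unfold Hc at h1 ⊢
  rw [Fintype.sum_sum_type] at h1 ⊢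
  simp only [rk1_out, hg.out, Finset.sum_const_zero, zero_add, rk1] at h1 ⊢
  exact h1

omit [DecidableEq β] in
theorem trace_Dm (hg : Good K t χ c) (a : α) : (Dm c a).trace = t a := by
  have h1 := hg.trA a
  unfold Hc at h1
  rw [Fintype.sum_sum_type] at h1
  simp only [hg.out, Finset.sum_const_zero, zero_add] at h1
  exact h1

omit [DecidableEq β] in
theorem Hc_inl (hg : Good K t χ c) (w : α → ℝ) (x : Unit) :
    Hc (rk1 w c) (Sum.inl x) = ∑ a, w a * t a := by
  unfold Hc
  rw [Fintype.sum_sum_type]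
  simp only [rk1_out, Finset.sum_const_zero, zero_add, rk1]
  rw [Finset.sum_comm]
  refine Finset.sum_congr rfl fun a _ => ?_
  rw [← Finset.mul_sum]
  congr 1
  exact trace_Dm hg a

theorem MaxData.rk1_comm (h : MaxData t c C) (hg : Good K t χ c) (w : α → ℝ) :
    (∑ a, w a • Dm c a).transpose * (∑ a, w a • Dm c a) =
      (∑ a, w a • Dm c a) * (∑ a, w a • Dm c a).transpose := by
  rw [Matrix.transpose_sum, Finset.sum_mul_sum, Finset.sum_mul_sum, Finset.sum_comm]
  refine Finset.sum_congr rfl fun a _ => Finset.sum_congr rfl fun b _ => ?_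
  rw [Matrix.transpose_smul, smul_mul_smul_comm, smul_mul_smul_comm,
    h.normal hg, mul_comm (w b)]

/-- The rank one structure has negative Ricci curvature. -/
theorem MaxData.negR_rk1 [Nonempty β] (h : MaxData t c C) (hg : Good K t χ c) (w : α → ℝ)
    (τ : ℝ) (hτ : 0 < τ) (hw : ∀ a, t a = τ * w a) (hww : ∑ a, w a * t a = τ) :
    NegR (rk1 w c) := by
  set D0 : Matrix β β ℝ := ∑ a, w a • Dm c a with hD0
  have hDm : Dm (rk1 w c) () = D0 := rk1_Dm w c
  have hD0e : ∀ l k, ∑ a, w a * c (Sum.inl a) (Sum.inr k) (Sum.inr l) = D0 l k := by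
    intro l k
    rw [hD0, Matrix.sum_apply]
    rfl
  -- the block on the ideal
  have hR : ∀ k l, ricM (rk1 w c) (Sum.inr k) (Sum.inr l) = GM t c k l := by
    intro k l
    have h1 := mM_split (rk1 w c) (rk1_anti w c hg.anti) (rk1_out w c) (rk1_f w c) k l
    have h2 := mM_split c hg.anti hg.out (fun a b k => h.f_zero hg a b k) k l
    rw [Fintype.sum_unique, show (default : Unit) = () from rfl, hDm, h.rk1_comm hg w, sub_self,
      mul_zero, add_zero, rk1_MM] at h1
    have h3 : ∑ a, ((Dm c a * (Dm c a).transpose) k l - ((Dm c a).transpose * Dm c a) k l) = 0 :=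
      Finset.sum_eq_zero fun a _ => by rw [h.normal hg, sub_self]
    rw [h3, mul_zero, add_zero] at h2
    unfold ricM GM
    rw [h1, h2, killM_inr hg, Fintype.sum_sum_type, Fintype.sum_unique, Hc_inl hg, hww]
    simp only [Hc_inr hg, zero_mul, Finset.sum_const_zero, add_zero, mul_zero, sub_zero]
    congr 2
    change τ * (∑ a, w a * c (Sum.inl a) (Sum.inr k) (Sum.inr l) +
      ∑ a, w a * c (Sum.inl a) (Sum.inr l) (Sum.inr k)) = _
    rw [← Finset.sum_add_distrib, Finset.mul_sum]
    refine Finset.sum_congr rfl fun a _ => ?_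
    rw [hw]
    ring
  -- the mixed block
  have hmix : ∀ (x : Unit) k, ricM (rk1 w c) (Sum.inr k) (Sum.inl x) = 0 := by
    intro x k
    unfold ricM
    rw [killM_inr hg, Fintype.sum_sum_type]
    simp only [Hc_inr hg, zero_mul, Finset.sum_const_zero, add_zero, mul_zero, sub_zero, rk1_f,
      rk1_out]
    unfold mM
    simp only [rk1_out, mul_zero, Finset.sum_const_zero, add_zero, Fintype.sum_sum_type, rk1_f,
      zero_add]
    have h1 := h.trace_zero D0.transpose (by
      have h2 : C * D0 = D0 * C := by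
        rw [hD0, Finset.mul_sum, Finset.sum_mul]
        refine Finset.sum_congr rfl fun a _ => ?_
        rw [mul_smul_comm, smul_mul_assoc, h.comm]
      have h3 := congrArg Matrix.transpose h2
      rw [Matrix.transpose_mul, Matrix.transpose_mul, h.transpose] at h3
      exact h3.symm) k
    have h4 : ∑ i, ∑ q, rk1 w c (Sum.inr k) (Sum.inr i) (Sum.inr q) *
        rk1 w c (Sum.inl x) (Sum.inr i) (Sum.inr q) = (D0.transpose * Mm c k).trace := by
      rw [Matrix.trace]
      refine Finset.sum_congr rfl fun i _ => ?_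
      rw [Matrix.diag_apply, Matrix.mul_apply]
      refine Finset.sum_congr rfl fun q _ => ?_
      rw [mul_comm]
      congr 1
      exact hD0e q i
    rw [h4, h1, mul_zero]
  -- the corner
  have hcorner : ricM (rk1 w c) (Sum.inl ()) (Sum.inl ()) < 0 := by
    have h1 : ricM (rk1 w c) (Sum.inl ()) (Sum.inl ()) =
        -(1 / 4) * ∑ i, ∑ q, (D0 q i + D0 i q) ^ 2 := by
      unfold ricM
      simp only [rk1_out, mul_zero, Finset.sum_const_zero, add_zero, sub_zero]
      unfold mM killM
      simp only [rk1_out, mul_zero, Finset.sum_const_zero, add_zero, Fintype.sum_sum_type, rk1_f,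
        zero_add, zero_mul]
      have e1 : ∑ i, ∑ q, rk1 w c (Sum.inl ()) (Sum.inr i) (Sum.inr q) *
          rk1 w c (Sum.inl ()) (Sum.inr i) (Sum.inr q) = ∑ i, ∑ q, D0 q i * D0 q i := by
        refine Finset.sum_congr rfl fun i _ => Finset.sum_congr rfl fun q _ => ?_
        rw [← hD0e q i]
        rfl
      have e2 : ∑ i, ∑ q, rk1 w c (Sum.inl ()) (Sum.inr i) (Sum.inr q) *
          rk1 w c (Sum.inl ()) (Sum.inr q) (Sum.inr i) = ∑ i, ∑ q, D0 q i * D0 i q := by
        refine Finset.sum_congr rfl fun i _ => Finset.sum_congr rfl fun q _ => ?_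
        rw [← hD0e q i, ← hD0e i q]
        rfl
      rw [e1, e2]
      have e3 : ∑ i, ∑ q, (D0 q i + D0 i q) ^ 2 = 2 * ∑ i, ∑ q, D0 q i * D0 q i +
          2 * ∑ i, ∑ q, D0 q i * D0 i q := by
        have e4 : ∑ i, ∑ q, D0 i q * D0 i q = ∑ i, ∑ q, D0 q i * D0 q i := Finset.sum_comm
        have e5 : ∀ i q, (D0 q i + D0 i q) ^ 2 = D0 q i * D0 q i + 2 * (D0 q i * D0 i q) +
            D0 i q * D0 i q := fun i q => by ring
        simp only [e5, Finset.sum_add_distrib, ← Finset.mul_sum, e4]
        ring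
      rw [e3]
      ring
    rw [h1]
    have h2 : 0 < ∑ i, ∑ q, (D0 q i + D0 i q) ^ 2 := by
      have h3 : 0 ≤ ∑ i, ∑ q, (D0 q i + D0 i q) ^ 2 :=
        Finset.sum_nonneg fun i _ => Finset.sum_nonneg fun q _ => sq_nonneg _
      refine lt_of_le_of_ne h3 fun h4 => ?_
      have h5 := (Finset.sum_eq_zero_iff_of_nonneg fun i _ =>
        Finset.sum_nonneg fun q _ => sq_nonneg (D0 q i + D0 i q)).mp h4.symm
      have h6 : ∀ i, D0 i i = 0 := by
        intro i
        have h7 := (Finset.sum_eq_zero_iff_of_nonneg fun q _ =>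
          sq_nonneg (D0 q i + D0 i q)).mp (h5 i (Finset.mem_univ i)) i (Finset.mem_univ i)
        have h8 := pow_eq_zero_iff (two_ne_zero) |>.mp h7
        linarith
      have h9 : D0.trace = τ := by
        rw [hD0, Matrix.trace_sum, ← hww]
        refine Finset.sum_congr rfl fun a _ => ?_
        rw [Matrix.trace_smul, trace_Dm hg, smul_eq_mul]
      have h10 : D0.trace = 0 := Finset.sum_eq_zero fun i _ => h6 i
      rw [h10] at h9
      exact hτ.ne h9
    linarith
  intro v hv
  rw [Fintype.sum_sum_type]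
  simp only [Fintype.sum_sum_type, Fintype.sum_unique, Finset.sum_add_distrib]
  have hmix' : ∀ (x : Unit) k, ricM (rk1 w c) (Sum.inl x) (Sum.inr k) = 0 := by
    intro x k
    rw [ricM_symm, hmix]
  simp only [hmix, hmix', hR, zero_mul, Finset.sum_const_zero, add_zero, zero_add]
  set y : β → ℝ := fun b => v (Sum.inr b) with hy
  have hq : ∑ k, ∑ l, GM t c k l * v (Sum.inr k) * v (Sum.inr l) = -qf (-GM t c) y := by
    unfold qf
    simp only [Matrix.neg_apply, neg_mul, Finset.sum_neg_distrib, neg_neg]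
    rfl
  rw [hq]
  by_cases hy0 : y = 0
  · have hx : v (Sum.inl ()) ≠ 0 := by
      intro hx
      apply hv
      funext i
      rcases i with i | i
      · exact hx
      · exact congrFun hy0 i
    have h1 : qf (-GM t c) y = 0 := by
      rw [hy0]
      unfold qf
      simp
    rw [h1]
    have h2 : 0 < v (Sum.inl ()) * v (Sum.inl ()) := mul_self_pos.mpr hx
    change ricM (rk1 w c) (Sum.inl ()) (Sum.inl ()) * v (Sum.inl ()) * v (Sum.inl ()) + -0 < 0
    nlinarith
  · have h1 : 0 < qf (-GM t c) y := by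
      rw [qf_eq_dot]
      exact h.pos.dotProduct_mulVec_pos hy0
    have h2 : 0 ≤ v (Sum.inl ()) * v (Sum.inl ()) := mul_self_nonneg _
    change ricM (rk1 w c) (Sum.inl ()) (Sum.inl ()) * v (Sum.inl ()) * v (Sum.inl ()) +
      -qf (-GM t c) y < 0
    nlinarith

end Pool.Agent.Lib.P6ec3b3
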