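import Pool.Agent.Lib.P6ec3b3.Deriv

/-!
# The first variation of the determinant of the Ricci tensor
-/

open Module Filter Topology Polynomial

namespace Pool.Agent.Lib.P6ec3b3

section

variable {ι : Type*} [Fintype ι]

theorem hasDerivAt_mM (cs : ℝ → SC ι) (d : SC ι)
    (h : ∀ i j k, HasDerivAt (fun s => cs s i j k) (d i j k) 0) (k l : ι) :
    HasDerivAt (fun s => mM (cs s) k l) (mM2 (cs 0) d k l + mM2 d (cs 0) k l) 0 := by
  unfold mM
  have h1 : HasDerivAt (fun s => ∑ i, ∑ q, cs s k i q * cs s l i q)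
      (∑ i, ∑ q, (d k i q * cs 0 l i q + cs 0 k i q * d l i q)) 0 :=
    HasDerivAt.fun_sum fun i _ => HasDerivAt.fun_sum fun q _ => (h k i q).mul (h l i q)
  have h2 : HasDerivAt (fun s => ∑ i, ∑ j, cs s i j k * cs s i j l)
      (∑ i, ∑ j, (d i j k * cs 0 i j l + cs 0 i j k * d i j l)) 0 :=
    HasDerivAt.fun_sum fun i _ => HasDerivAt.fun_sum fun q _ => (h i q k).mul (h i q l)
  refine ((h1.const_mul (-(1 / 2))).add (h2.const_mul (1 / 4))).congr_deriv ?_
  unfold mM2
  simp only [Finset.sum_add_distrib]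
  ring

theorem piU_anti (u : Matrix ι ι ℝ) (c : SC ι) (hc : ∀ i j k, c i j k = -c j i k) (i j k : ι) :
    piU u c i j k = -piU u c j i k := by
  rw [piU_apply, piU_apply]
  have h1 : ∑ l, u k l * c j i l = -∑ l, u k l * c i j l := by
    rw [← Finset.sum_neg_distrib]
    exact Finset.sum_congr rfl fun l _ => by rw [hc j i l]; ring
  have h2 : ∑ q, u q j * c q i k = -∑ q, u q j * c i q k := by
    rw [← Finset.sum_neg_distrib]
    exact Finset.sum_congr rfl fun l _ => by rw [hc l i k]; ring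
  have h3 : ∑ q, u q i * c j q k = -∑ q, u q i * c q j k := by
    rw [← Finset.sum_neg_distrib]
    exact Finset.sum_congr rfl fun l _ => by rw [hc j l k]; ring
  rw [h1, h2, h3]
  ring

end

variable {α β : Type*} [Fintype α] [Fintype β] [DecidableEq α] [DecidableEq β]

/-- Extension of a matrix on `β` by the identity. -/
def emb (P : Matrix β β ℝ) : Matrix (α ⊕ β) (α ⊕ β) ℝ := Matrix.fromBlocks 1 0 0 P

omit [Fintype α] [Fintype β] [DecidableEq α] [DecidableEq β] in
/-- Extension of a matrix on `β` by zero. -/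
def emb0 (C : Matrix β β ℝ) : Matrix (α ⊕ β) (α ⊕ β) ℝ := Matrix.fromBlocks 0 0 0 C

omit [DecidableEq β] in
theorem emb_mul (P Q : Matrix β β ℝ) : (emb P * emb Q : Matrix (α ⊕ β) (α ⊕ β) ℝ) =
    emb (P * Q) := by
  unfold emb
  rw [Matrix.fromBlocks_multiply]
  simp

omit [Fintype α] [Fintype β] in
theorem emb_one : (emb (1 : Matrix β β ℝ) : Matrix (α ⊕ β) (α ⊕ β) ℝ) = 1 :=
  Matrix.fromBlocks_one

omit [Fintype α] [Fintype β] [DecidableEq α] [DecidableEq β] in
theorem emb0_transpose (C : Matrix β β ℝ) :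
    (emb0 C : Matrix (α ⊕ β) (α ⊕ β) ℝ).transpose = emb0 C.transpose := by
  unfold emb0
  rw [Matrix.fromBlocks_transpose]
  simp

/-- Invariance of a set of structures under changes of basis of the ideal. -/
def Invt (S : Set (SC (α ⊕ β))) : Prop :=
  ∀ P Q : Matrix β β ℝ, P * Q = 1 → Q * P = 1 → ∀ c ∈ S, act (emb P) (emb Q) c ∈ S

omit [DecidableEq α] [DecidableEq β] in
theorem sum_emb0 (C : Matrix β β ℝ) (f : α ⊕ β → α ⊕ β → ℝ) :
    ∑ k, ∑ l, emb0 C k l * f k l = ∑ k, ∑ l, C k l * f (Sum.inr k) (Sum.inr l) := by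
  simp [Fintype.sum_sum_type, emb0]

omit [DecidableEq α] [DecidableEq β] in
theorem piU_emb0 (C : Matrix β β ℝ) (c : SC (α ⊕ β)) (a : α) (k l : β) :
    piU (emb0 C) c (Sum.inl a) (Sum.inr k) (Sum.inr l) =
      ∑ m, C l m * c (Sum.inl a) (Sum.inr k) (Sum.inr m) -
      ∑ q, C q k * c (Sum.inl a) (Sum.inr q) (Sum.inr l) := by
  rw [piU_apply]
  simp [Fintype.sum_sum_type, emb0]

omit [DecidableEq α] [DecidableEq β] in
theorem sum_conj_zero (C : Matrix β β ℝ) (c : SC (α ⊕ β)) (a : α) :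
    ∑ k, ∑ l, C k l * piU (emb0 C) c (Sum.inl a) (Sum.inr k) (Sum.inr l) = 0 := by
  simp only [piU_emb0, mul_sub, Finset.mul_sum, Finset.sum_sub_distrib]
  have h1 : ∑ k, ∑ l, ∑ q, C k l * (C q k * c (Sum.inl a) (Sum.inr q) (Sum.inr l)) =
      ∑ q, ∑ k, ∑ l, C k l * (C q k * c (Sum.inl a) (Sum.inr q) (Sum.inr l)) := by
    have : ∀ k, ∑ l, ∑ q, C k l * (C q k * c (Sum.inl a) (Sum.inr q) (Sum.inr l)) =
        ∑ q, ∑ l, C k l * (C q k * c (Sum.inl a) (Sum.inr q) (Sum.inr l)) :=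
      fun k => Finset.sum_comm
    simp only [this]
    rw [Finset.sum_comm]
  rw [h1, sub_eq_zero]
  refine Finset.sum_congr rfl fun k _ => Finset.sum_congr rfl fun l _ =>
    Finset.sum_congr rfl fun m _ => ?_
  ring

omit [DecidableEq α] [DecidableEq β] in
/-- The derivative of the trace pairing. -/
theorem trace_pairing (t : α → ℝ) (C : Matrix β β ℝ) (hC : C.transpose = C) (c d : SC (α ⊕ β))
    (hc : ∀ i j k, c i j k = -c j i k) (hd : ∀ i j k, d i j k = -piU (emb0 C) c i j k)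
    (F' : Matrix β β ℝ)
    (hF' : ∀ k l, F' k l = -(mM2 c d (Sum.inr k) (Sum.inr l) + mM2 d c (Sum.inr k) (Sum.inr l) -
      (1 / 2) * ∑ a, t a * (d (Sum.inl a) (Sum.inr k) (Sum.inr l) +
        d (Sum.inl a) (Sum.inr l) (Sum.inr k)))) :
    (C * F').trace = (1 / 2) * ip (piU (emb0 C) c) (piU (emb0 C) c) := by
  have hCs : ∀ k l, C l k = C k l := fun k l => congrFun (congrFun hC k) l
  have hd' : d = -piU (emb0 C) c := by funext i j k; exact hd i j k
  have hanti : ∀ i j k, d i j k = -d j i k := by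
    intro i j k
    rw [hd, hd, piU_anti _ c hc i j k]
  have hsT : (emb0 C : Matrix (α ⊕ β) (α ⊕ β) ℝ).transpose = emb0 C := by
    rw [emb0_transpose, hC]
  have h1 : (C * F').trace = ∑ k, ∑ l, C k l * F' l k := by
    rw [Matrix.trace]
    refine Finset.sum_congr rfl fun k _ => ?_
    rw [Matrix.diag_apply, Matrix.mul_apply]
  have s1 : ∑ k, ∑ l, C k l * mM2 c d (Sum.inr k) (Sum.inr l) =
      -(1 / 4) * ip (piU (emb0 C) c) (piU (emb0 C) c) := by
    have h2 := sum_mul_mM2 (emb0 C) hsT c d hc hanti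
    rw [sum_emb0] at h2
    have h3 : ip (piU (emb0 C) c) d = -ip (piU (emb0 C) c) (piU (emb0 C) c) := by
      have := ip_sub_right (piU (emb0 C) c) 0 (piU (emb0 C) c)
      have h0 : ip (piU (emb0 C) c) 0 = 0 := by
        unfold ip
        simp
      rw [hd', ← zero_sub, this, h0, zero_sub]
    linarith
  have s2 : ∑ k, ∑ l, C k l * mM2 d c (Sum.inr k) (Sum.inr l) =
      -(1 / 4) * ip (piU (emb0 C) c) (piU (emb0 C) c) := by
    rw [← s1, Finset.sum_comm]
    refine Finset.sum_congr rfl fun k _ => Finset.sum_congr rfl fun l _ => ?_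
    rw [mM2_symm d c, hCs]
  have s3 : ∀ a, ∑ k, ∑ l, C k l * d (Sum.inl a) (Sum.inr k) (Sum.inr l) = 0 := by
    intro a
    have := sum_conj_zero C c a
    simp only [hd, mul_neg, Finset.sum_neg_distrib]
    rw [this, neg_zero]
  have s4 : ∀ a, ∑ k, ∑ l, C k l * d (Sum.inl a) (Sum.inr l) (Sum.inr k) = 0 := by
    intro a
    rw [← s3 a, Finset.sum_comm]
    refine Finset.sum_congr rfl fun k _ => Finset.sum_congr rfl fun l _ => ?_
    rw [hCs]
  have s5 : ∑ k, ∑ l, C k l * ((1 / 2) * ∑ a, t a * (d (Sum.inl a) (Sum.inr l) (Sum.inr k) +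
        d (Sum.inl a) (Sum.inr k) (Sum.inr l))) = 0 := by
    have e1 : ∀ k l, C k l * ((1 / 2) * ∑ a, t a * (d (Sum.inl a) (Sum.inr l) (Sum.inr k) +
        d (Sum.inl a) (Sum.inr k) (Sum.inr l))) = ∑ a, (1 / 2) * t a *
        (C k l * d (Sum.inl a) (Sum.inr l) (Sum.inr k) +
          C k l * d (Sum.inl a) (Sum.inr k) (Sum.inr l)) := by
      intro k l
      rw [Finset.mul_sum, Finset.mul_sum]
      exact Finset.sum_congr rfl fun a _ => by ring
    simp only [e1]
    have e2 : ∀ k, ∑ l, ∑ a, (1 / 2) * t a *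
        (C k l * d (Sum.inl a) (Sum.inr l) (Sum.inr k) +
          C k l * d (Sum.inl a) (Sum.inr k) (Sum.inr l)) = ∑ a, ∑ l, (1 / 2) * t a *
        (C k l * d (Sum.inl a) (Sum.inr l) (Sum.inr k) +
          C k l * d (Sum.inl a) (Sum.inr k) (Sum.inr l)) := fun k => Finset.sum_comm
    simp only [e2]
    rw [Finset.sum_comm]
    refine Finset.sum_eq_zero fun a _ => ?_
    have e3 : ∀ k, ∑ l, (1 / 2) * t a *
        (C k l * d (Sum.inl a) (Sum.inr l) (Sum.inr k) +
          C k l * d (Sum.inl a) (Sum.inr k) (Sum.inr l)) = (1 / 2) * t a *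
        (∑ l, C k l * d (Sum.inl a) (Sum.inr l) (Sum.inr k) +
          ∑ l, C k l * d (Sum.inl a) (Sum.inr k) (Sum.inr l)) := by
      intro k
      rw [← Finset.mul_sum, Finset.sum_add_distrib]
    simp only [e3]
    rw [← Finset.mul_sum, Finset.sum_add_distrib, s3, s4]
    ring
  rw [h1]
  have h4 : ∑ k, ∑ l, C k l * F' l k = -(∑ k, ∑ l, C k l * mM2 c d (Sum.inr k) (Sum.inr l)) -
      (∑ k, ∑ l, C k l * mM2 d c (Sum.inr k) (Sum.inr l)) +
      ∑ k, ∑ l, C k l * ((1 / 2) * ∑ a, t a * (d (Sum.inl a) (Sum.inr l) (Sum.inr k) +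
        d (Sum.inl a) (Sum.inr k) (Sum.inr l))) := by
    rw [← Finset.sum_neg_distrib, ← Finset.sum_sub_distrib, ← Finset.sum_add_distrib]
    refine Finset.sum_congr rfl fun k _ => ?_
    rw [← Finset.sum_neg_distrib, ← Finset.sum_sub_distrib, ← Finset.sum_add_distrib]
    refine Finset.sum_congr rfl fun l _ => ?_
    rw [hF', mM2_symm c d (Sum.inr l) (Sum.inr k), mM2_symm d c (Sum.inr l) (Sum.inr k)]
    ring
  rw [h4, s1, s2, s5]
  ring

theorem variation {t : α → ℝ} (S : Set (SC (α ⊕ β))) (hS : Invt S)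
    (c : SC (α ⊕ β)) (hanti : ∀ i j k, c i j k = -c j i k) (hcl : c ∈ closure S)
    (hpos : (-GM t c).PosDef) (hmax : ∀ d ∈ KK t S, (-GM t d).det ≤ (-GM t c).det) :
    piU (emb0 (-GM t c)⁻¹) c = 0 := by
  set C : Matrix β β ℝ := (-GM t c)⁻¹ with hCdef
  have hC : C.transpose = C := by
    have := hpos.inv.isHermitian
    rw [Matrix.IsHermitian, Matrix.conjTranspose_eq_transpose_of_trivial] at this
    exact this
  let P : ℝ → Matrix (α ⊕ β) (α ⊕ β) ℝ := fun s => emb (1 + s • C)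
  let Q : ℝ → Matrix (α ⊕ β) (α ⊕ β) ℝ := fun s => emb (1 + s • C)⁻¹
  have hP0 : P 0 = 1 := by simp only [P, zero_smul, add_zero, emb_one]
  have hQ0 : Q 0 = 1 := by simp only [Q, zero_smul, add_zero, inv_one, emb_one]
  have hP : ∀ i j, HasDerivAt (fun s => P s i j) (emb0 C i j) 0 := by
    intro i j
    rcases i with a | b <;> rcases j with a' | b'
    · exact hasDerivAt_const _ _
    · exact hasDerivAt_const _ _
    · exact hasDerivAt_const _ _
    · exact hasDerivAt_one_add C b b'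
  have hQ : ∀ i j, HasDerivAt (fun s => Q s i j) (-emb0 C i j) 0 := by
    intro i j
    rcases i with a | b <;> rcases j with a' | b'
    · exact (hasDerivAt_const _ _).congr_deriv (by simp [emb0])
    · exact (hasDerivAt_const _ _).congr_deriv (by simp [emb0])
    · exact (hasDerivAt_const _ _).congr_deriv (by simp [emb0])
    · exact hasDerivAt_inv_one_add C b b'
  let cs : ℝ → SC (α ⊕ β) := fun s => act (P s) (Q s) c
  have hcs0 : cs 0 = c := by simp only [cs, hP0, hQ0, act_one]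
  have hder : ∀ i j k, HasDerivAt (fun s => cs s i j k) (-piU (emb0 C) c i j k) 0 :=
    fun i j k => hasDerivAt_act P Q (emb0 C) hP0 hQ0 hP hQ c i j k
  have hcsS : ∀ᶠ s in 𝓝 (0 : ℝ), cs s ∈ closure S := by
    filter_upwards [eventually_isUnit C] with s hs
    exact act_mem_closure _ _ S (hS _ _ (Matrix.mul_nonsing_inv _ hs)
      (Matrix.nonsing_inv_mul _ hs)) c hcl
  have hcont : Tendsto cs (𝓝 0) (𝓝 c) := by
    rw [tendsto_pi_nhds]
    intro i
    rw [tendsto_pi_nhds]
    intro j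
    rw [tendsto_pi_nhds]
    intro k
    have := (hder i j k).continuousAt.tendsto
    rwa [hcs0] at this
  have hposQ : ∀ v : β → ℝ, v ≠ 0 → 0 < qf (-GM t c) v := by
    intro v hv
    rw [qf_eq_dot]
    exact hpos.dotProduct_mulVec_pos hv
  have hKK : ∀ᶠ s in 𝓝 (0 : ℝ), cs s ∈ KK t S := by
    have h1 : ∀ᶠ s in 𝓝 (0 : ℝ), (-GM t (cs s)) ∈
        {M : Matrix β β ℝ | ∀ v : β → ℝ, v ≠ 0 → 0 < qf M v} := by
      have h2 : Tendsto (fun s => -GM t (cs s)) (𝓝 0) (𝓝 (-GM t c)) :=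
        (((continuous_GM t).neg.tendsto c).comp hcont)
      exact h2.eventually (isOpen_posQ.mem_nhds hposQ)
    filter_upwards [h1, hcsS] with s h2 h3
    refine ⟨h3, fun v => ?_⟩
    by_cases hv : v = 0
    · rw [hv]
      unfold qf
      simp
    · have h4 := h2 v hv
      have h5 : qf (-GM t (cs s)) v = -qf (GM t (cs s)) v := by
        unfold qf
        simp only [Matrix.neg_apply, neg_mul, Finset.sum_neg_distrib]
      rw [h5] at h4
      linarith
  have hlm : IsLocalMax (fun s => (-GM t (cs s)).det) 0 := by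
    filter_upwards [hKK] with s hs
    rw [hcs0]
    exact hmax _ hs
  let d : SC (α ⊕ β) := fun i j k => -piU (emb0 C) c i j k
  let F' : Matrix β β ℝ := fun k l => -(mM2 c d (Sum.inr k) (Sum.inr l) +
    mM2 d c (Sum.inr k) (Sum.inr l) -
      (1 / 2) * ∑ a, t a * (d (Sum.inl a) (Sum.inr k) (Sum.inr l) +
        d (Sum.inl a) (Sum.inr l) (Sum.inr k)))
  have hFd : ∀ k l, HasDerivAt (fun s => (-GM t (cs s)) k l) (F' k l) 0 := by
    intro k l
    have h1 := hasDerivAt_mM cs d hder (Sum.inr k) (Sum.inr l)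
    rw [hcs0] at h1
    have h2 : HasDerivAt (fun s => ∑ a, t a * (cs s (Sum.inl a) (Sum.inr k) (Sum.inr l) +
        cs s (Sum.inl a) (Sum.inr l) (Sum.inr k))) (∑ a, t a *
        (d (Sum.inl a) (Sum.inr k) (Sum.inr l) + d (Sum.inl a) (Sum.inr l) (Sum.inr k))) 0 :=
      HasDerivAt.fun_sum fun a _ => ((hder _ _ _).add (hder _ _ _)).const_mul _
    exact (h1.sub (h2.const_mul (1 / 2))).neg
  have hdet0 : (-GM t (cs 0)).det ≠ 0 := by
    rw [hcs0]
    exact hpos.det_pos.ne'
  have hD := hasDerivAt_det (fun s => -GM t (cs s)) F' hdet0 hFd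
  have h0 := hlm.hasDerivAt_eq_zero hD
  have h1 : (C * F').trace = 0 := by
    rcases mul_eq_zero.mp h0 with h | h
    · exact absurd h hdet0
    · rw [hcs0] at h
      exact h
  rw [trace_pairing t C hC c d hanti (fun i j k => rfl) F' (fun k l => rfl)] at h1
  exact ip_self_eq_zero (by linarith)

end Pool.Agent.Lib.P6ec3b3
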